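import Mathlib

/-!
# A real Laplace method on a half line: representation near the saddle point
-/

set_option autoImplicit false

open Complex MeasureTheory Filter Topology Set
open scoped ComplexConjugate

namespace Pool.Agent.H466.HF

/-- data on a horizontal half line: a function `f` with logarithmic derivative `P` from `v1` on -/
structure Core (f P : ℝ → ℂ) (v1 M Θ B1 : ℝ) : Prop where
  cont : Continuous f
  der : ∀ v : ℝ, v1 ≤ v → HasDerivAt f (f v * P v) v
  lip : ∀ v w : ℝ, v1 ≤ v → v1 ≤ w → ‖P v - P w‖ ≤ M * |v - w|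
  im : ∀ v : ℝ, v1 ≤ v → |(P v).im| ≤ Θ
  left : ∀ v : ℝ, 0 ≤ v → v ≤ v1 → ‖f v‖ ≤ B1 * ‖f v1‖
  ne : f v1 ≠ 0
  pos : 0 < v1
  Mnn : 0 ≤ M
  Bnn : 0 ≤ B1

variable {f P : ℝ → ℂ} {v1 M Θ B1 : ℝ}

/-- extension of `P` by a constant -/
noncomputable def ext (P : ℝ → ℂ) (v1 : ℝ) (t : ℝ) : ℂ := P (max t v1)

lemma ext_of_le {P : ℝ → ℂ} {v1 t : ℝ} (h : v1 ≤ t) : ext P v1 t = P t := by
  unfold ext
  rw [max_eq_left h]

lemma Core.ext_lip (C : Core f P v1 M Θ B1) (s t : ℝ) :
    ‖ext P v1 s - ext P v1 t‖ ≤ M * |s - t| := by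
  unfold ext
  refine (C.lip _ _ (le_max_right _ _) (le_max_right _ _)).trans ?_
  exact mul_le_mul_of_nonneg_left (abs_max_sub_max_le_abs _ _ _) C.Mnn

lemma Core.ext_cont (C : Core f P v1 M Θ B1) : Continuous (ext P v1) := by
  have h : LipschitzWith (Real.toNNReal M) (ext P v1) := by
    refine LipschitzWith.of_dist_le_mul fun s t => ?_
    rw [dist_eq_norm, Real.dist_eq, Real.coe_toNNReal _ C.Mnn]
    exact C.ext_lip s t
  exact h.continuous

lemma Core.rep_aux (C : Core f P v1 M Θ B1) {v w : ℝ} (hv : v1 ≤ v) (hvw : v ≤ w) :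
    f w = f v * cexp (∫ t in v..w, ext P v1 t) := by
  set G : ℝ → ℂ := fun t => ∫ x in v..t, ext P v1 x with hG
  have hGd : ∀ t, HasDerivAt G (ext P v1 t) t := fun t =>
    intervalIntegral.integral_hasDerivAt_right (C.ext_cont.intervalIntegrable _ _)
      (C.ext_cont.stronglyMeasurableAtFilter _ _) C.ext_cont.continuousAt
  have hH : ∀ t ∈ Icc v w, HasDerivAt (fun t => f t * cexp (-G t)) 0 t := by
    intro t ht
    have h1 := C.der t (hv.trans ht.1)
    have h2 : HasDerivAt (fun t => cexp (-G t)) (cexp (-G t) * (-ext P v1 t)) t := ((hGd t).neg).cexp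
    have h3 := h1.mul h2
    have e : (0 : ℂ) = f t * P t * cexp (-G t) + f t * (cexp (-G t) * -ext P v1 t) := by
      rw [ext_of_le (hv.trans ht.1)]
      ring
    rw [e]
    exact h3
  have hcst := constant_of_has_deriv_right_zero (a := v) (b := w)
    (f := fun t => f t * cexp (-G t))
    (fun t ht => (hH t ht).continuousAt.continuousWithinAt)
    (fun t ht => (hH t ⟨ht.1, ht.2.le⟩).hasDerivWithinAt) w ⟨hvw, le_rfl⟩
  simp only [hG, intervalIntegral.integral_same, neg_zero, Complex.exp_zero, mul_one] at hcst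
  rw [← hcst, mul_assoc, ← Complex.exp_add]
  simp

lemma Core.rep (C : Core f P v1 M Θ B1) {v w : ℝ} (hv : v1 ≤ v) (hw : v1 ≤ w) :
    ∃ R : ℂ, ‖R‖ ≤ M * (w - v) ^ 2 ∧ f w = f v * cexp (P v * ((w - v : ℝ) : ℂ) + R) := by
  have hcont := C.ext_cont
  have key : f w = f v * cexp (∫ t in v..w, ext P v1 t) := by
    rcases le_total v w with h | h
    · exact C.rep_aux hv h
    · have h1 := C.rep_aux hw h
      rw [h1, mul_assoc, ← Complex.exp_add, intervalIntegral.integral_symm w v]
      simp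
  refine ⟨∫ t in v..w, (ext P v1 t - P v), ?_, ?_⟩
  · have h1 : ∀ t ∈ Set.uIoc v w, ‖ext P v1 t - P v‖ ≤ M * |w - v| := by
      intro t ht
      have h2 := C.ext_lip t v
      rw [ext_of_le hv] at h2
      refine h2.trans (mul_le_mul_of_nonneg_left ?_ C.Mnn)
      rcases le_total v w with h | h
      · rw [uIoc_of_le h] at ht
        rw [abs_of_nonneg (by linarith [ht.1]), abs_of_nonneg (by linarith)]
        linarith [ht.2]
      · rw [uIoc_of_ge h] at ht
        rw [abs_of_nonpos (by linarith [ht.2]), abs_of_nonpos (by linarith)]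
        linarith [ht.1]
    have h2 := intervalIntegral.norm_integral_le_of_norm_le_const h1
    refine h2.trans (le_of_eq ?_)
    rw [mul_assoc, abs_mul_abs_self]
    ring
  · rw [key]
    congr 2
    rw [intervalIntegral.integral_sub (hcont.intervalIntegrable _ _)
      (continuous_const.intervalIntegrable _ _), intervalIntegral.integral_const]
    simp only [Complex.real_smul]
    ring

/-- existence of the saddle point -/
lemma Core.saddle (C : Core f P v1 M Θ B1) {lam x : ℝ} (hlam : 0 < lam) (hM : lam * M ≤ 1 / 8)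
    (hW : v1 < 2 * lam * (P v1).re + x) :
    ∃ v0 : ℝ, v1 < v0 ∧ 2 * lam * (P v0).re = v0 - x ∧
      2 * lam * (P v1).re + x - v1 ≤ (v0 - v1) * (1 + 2 * (lam * M)) := by
  set h : ℝ → ℝ := fun v => (v - x) - 2 * lam * (ext P v1 v).re with hh
  have hc : Continuous h := by
    have := C.ext_cont
    have h2 : Continuous fun v => (ext P v1 v).re := Complex.continuous_re.comp this
    fun_prop
  have hlow : ∀ v, v1 ≤ v → |(P v).re - (P v1).re| ≤ M * (v - v1) := by
    intro v hv
    have h1 := C.lip v v1 hv le_rfl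
    rw [abs_of_nonneg (sub_nonneg.mpr hv)] at h1
    have h2 := Complex.abs_re_le_norm (P v - P v1)
    rw [sub_re] at h2
    exact h2.trans h1
  set V : ℝ := v1 + 2 * (2 * lam * (P v1).re + x - v1) with hV
  have hV1 : v1 ≤ V := by rw [hV]; linarith
  have h1 : h v1 ≤ 0 := by
    simp only [hh]
    rw [ext_of_le le_rfl]
    linarith
  have h2 : 0 ≤ h V := by
    simp only [hh]
    rw [ext_of_le hV1]
    have h3 := (abs_le.mp (hlow V hV1)).2
    have h4 : 2 * lam * (P V).re ≤ 2 * lam * ((P v1).re + M * (V - v1)) := by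
      apply mul_le_mul_of_nonneg_left _ (by linarith)
      linarith
    have h5 : 2 * lam * (M * (V - v1)) ≤ 1 / 4 * (V - v1) := by
      have : lam * M * (V - v1) ≤ 1 / 8 * (V - v1) :=
        mul_le_mul_of_nonneg_right hM (by linarith)
      nlinarith
    have h6 : V - v1 = 2 * (2 * lam * (P v1).re + x - v1) := by rw [hV]; ring
    nlinarith
  have h3 := intermediate_value_Icc hV1 hc.continuousOn
  obtain ⟨v0, hv0, hv00⟩ := h3 ⟨h1, h2⟩
  have hv01 : v1 ≤ v0 := hv0.1
  simp only [hh] at hv00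
  rw [ext_of_le hv01] at hv00
  have hlt : v1 < v0 := by
    rcases hv01.lt_or_eq with h | h
    · exact h
    · exfalso
      rw [← h] at hv00
      linarith
  refine ⟨v0, hlt, by linarith, ?_⟩
  have h4 := (abs_le.mp (hlow v0 hv01)).1
  have h5 : 2 * lam * ((P v1).re - M * (v0 - v1)) ≤ 2 * lam * (P v0).re := by
    apply mul_le_mul_of_nonneg_left _ (by linarith)
    linarith
  nlinarith

end Pool.Agent.H466.HF
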