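import Pool.Agent.H466.HF.Core1

/-!
# A real Laplace method on a half line: the integrand
-/

set_option autoImplicit false

open Complex MeasureTheory Filter Topology Set
open scoped ComplexConjugate

namespace Pool.Agent.H466.HF

variable {f P : ℝ → ℂ} {v1 M Θ B1 : ℝ}

/-- the weight -/
noncomputable def wt (lam x v : ℝ) : ℝ := Real.exp (-v ^ 2 / (4 * lam) + x * v / (2 * lam))

/-- Gaussian -/
noncomputable def ga (k u : ℝ) : ℝ := Real.exp (-u ^ 2 / k)

/-- the integrand -/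
noncomputable def jj (f : ℝ → ℂ) (lam x v : ℝ) : ℂ := f v * (wt lam x v : ℂ)

/-- the integral -/
noncomputable def JJ (f : ℝ → ℂ) (lam x : ℝ) : ℂ := ∫ v in Ioi (0 : ℝ), jj f lam x v

/-- the first moment -/
noncomputable def J1 (f : ℝ → ℂ) (lam x : ℝ) : ℂ := ∫ v in Ioi (0 : ℝ), (v : ℂ) * jj f lam x v

lemma wt_pos (lam x v : ℝ) : 0 < wt lam x v := Real.exp_pos _

lemma norm_jj (f : ℝ → ℂ) (lam x v : ℝ) : ‖jj f lam x v‖ = ‖f v‖ * wt lam x v := by
  unfold jj
  rw [norm_mul, Complex.norm_real, Real.norm_eq_abs, abs_of_pos (wt_pos _ _ _)]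

lemma ga_integrable {k : ℝ} (hk : 0 < k) : Integrable (ga k) := by
  have h := integrable_exp_neg_mul_sq (b := 1 / k) (by positivity)
  refine h.congr (Eventually.of_forall fun u => ?_)
  unfold ga
  simp only
  congr 1
  ring

lemma ga_integral {k : ℝ} (_hk : 0 < k) : ∫ u, ga k u = Real.sqrt (Real.pi * k) := by
  have h := integral_gaussian (1 / k)
  rw [show Real.pi * k = Real.pi / (1 / k) by rw [div_div_eq_mul_div, div_one], ← h]
  refine integral_congr_ae (Eventually.of_forall fun u => ?_)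
  unfold ga
  simp only
  congr 1
  ring

lemma ga_pos (k u : ℝ) : 0 < ga k u := Real.exp_pos _

lemma ga_mono {k k' : ℝ} (hk : 0 < k) (h : k ≤ k') (u : ℝ) : ga k u ≤ ga k' u := by
  unfold ga
  apply Real.exp_le_exp.mpr
  rw [neg_div, neg_div, neg_le_neg_iff]
  exact div_le_div_of_nonneg_left (sq_nonneg u) hk h

/-- the Fourier transform of the Gaussian -/
lemma ga_fourier {lam : ℝ} (hlam : 0 < lam) (θ : ℝ) :
    ∫ u : ℝ, cexp (I * θ * u) * (ga (4 * lam) u : ℂ) =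
      ((Real.sqrt (Real.pi * (4 * lam)) * Real.exp (-(lam * θ ^ 2)) : ℝ) : ℂ) := by
  have hb : 0 < ((1 / (4 * lam) : ℝ) : ℂ).re := by
    rw [ofReal_re]; positivity
  have h := fourierIntegral_gaussian hb (θ : ℂ)
  have e1 : (fun u : ℝ => cexp (I * θ * u) * (ga (4 * lam) u : ℂ)) =
      fun u : ℝ => cexp (I * (θ : ℂ) * u) * cexp (-((1 / (4 * lam) : ℝ) : ℂ) * u ^ 2) := by
    funext u
    congr 1
    unfold ga
    rw [ofReal_exp]
    congr 1
    push_cast
    ring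
  rw [e1, h, ofReal_mul, ofReal_exp]
  congr 1
  · rw [← ofReal_div]
    have : (1 / 2 : ℂ) = ((1 / 2 : ℝ) : ℂ) := by push_cast; rfl
    rw [this, ← ofReal_cpow (by positivity), ← Real.sqrt_eq_rpow]
    congr 2
    field_simp
  · congr 1
    have hl : (lam : ℂ) ≠ 0 := by exact_mod_cast hlam.ne'
    push_cast
    field_simp

/-- hypotheses at a saddle point -/
structure Sad (P : ℝ → ℂ) (v1 lam x v0 : ℝ) : Prop where
  lt : v1 < v0
  eq : 2 * lam * (P v0).re = v0 - x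

lemma wt_shift {lam x v0 u : ℝ} (hlam : 0 < lam) :
    wt lam x (v0 + u) = wt lam x v0 * Real.exp (-((v0 - x) * u / (2 * lam))) * ga (4 * lam) u := by
  unfold wt ga
  rw [← Real.exp_add, ← Real.exp_add]
  congr 1
  field_simp
  ring

lemma jj_eq (C : Core f P v1 M Θ B1) {lam x v0 : ℝ} (hlam : 0 < lam) (S : Sad P v1 lam x v0)
    {u : ℝ} (hu : v1 ≤ v0 + u) :
    ∃ R : ℂ, ‖R‖ ≤ M * u ^ 2 ∧ jj f lam x (v0 + u) =
      jj f lam x v0 * (cexp (I * ((P v0).im : ℂ) * u) * (ga (4 * lam) u : ℂ)) * cexp R := by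
  obtain ⟨R, hR, hf⟩ := C.rep S.lt.le hu
  rw [add_sub_cancel_left] at hR hf
  refine ⟨R, hR, ?_⟩
  unfold jj
  rw [hf, wt_shift hlam]
  have hP : P v0 * ((u : ℝ) : ℂ) + R = ((((v0 - x) * u / (2 * lam) : ℝ)) : ℂ) +
      I * ((P v0).im : ℂ) * u + R := by
    have h1 : P v0 = ((P v0).re : ℂ) + ((P v0).im : ℂ) * I := (re_add_im _).symm
    have h2 : (P v0).re = (v0 - x) / (2 * lam) := by
      have := S.eq
      field_simp
      linarith
    have h3 : (((v0 - x) * u / (2 * lam) : ℝ) : ℂ) = (((P v0).re : ℝ) : ℂ) * (u : ℂ) := by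
      rw [h2, ← ofReal_mul]
      congr 1
      ring
    rw [h3]
    nth_rewrite 1 [h1]
    ring
  rw [hP, Complex.exp_add, Complex.exp_add]
  push_cast
  have h4 : cexp (((v0 : ℂ) - x) * u / (2 * lam)) * cexp (-(((v0 : ℂ) - x) * u / (2 * lam))) = 1 := by
    rw [← Complex.exp_add]
    simp
  calc f v0 * (cexp (((v0 : ℂ) - x) * u / (2 * lam)) * cexp (I * ((P v0).im : ℂ) * u) * cexp R) *
        ((wt lam x v0 : ℂ) * cexp (-(((v0 : ℂ) - x) * u / (2 * lam))) * (ga (4 * lam) u : ℂ))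
      = f v0 * (wt lam x v0 : ℂ) * (cexp (I * ((P v0).im : ℂ) * u) * (ga (4 * lam) u : ℂ)) * cexp R *
        (cexp (((v0 : ℂ) - x) * u / (2 * lam)) * cexp (-(((v0 : ℂ) - x) * u / (2 * lam)))) := by ring
    _ = _ := by rw [h4, mul_one]

lemma norm_exp_I (a b : ℝ) : ‖cexp (I * (a : ℂ) * b)‖ = 1 := by
  have : I * (a : ℂ) * b = ((a * b : ℝ) : ℂ) * I := by push_cast; ring
  rw [this, Complex.norm_exp_ofReal_mul_I]

lemma sq_exp {lam M u : ℝ} (hlam : 0 < lam) (_hM : 0 ≤ M) (hM2 : 128 * (lam * M) ≤ 1) :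
    ga (4 * lam) u * Real.exp (M * u ^ 2) ≤ ga (8 * lam) u := by
  unfold ga
  rw [← Real.exp_add]
  apply Real.exp_le_exp.mpr
  have h1 : M * u ^ 2 ≤ u ^ 2 / (128 * lam) := by
    rw [le_div_iff₀ (by positivity)]
    nlinarith [sq_nonneg u]
  have h2 : -u ^ 2 / (4 * lam) + u ^ 2 / (128 * lam) ≤ -u ^ 2 / (8 * lam) := by
    have e : -u ^ 2 / (8 * lam) - (-u ^ 2 / (4 * lam) + u ^ 2 / (128 * lam)) =
        15 / 128 * (u ^ 2 / lam) := by
      field_simp
      ring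
    have : 0 ≤ 15 / 128 * (u ^ 2 / lam) := by positivity
    linarith
  linarith

lemma norm_jj_le (C : Core f P v1 M Θ B1) {lam x v0 : ℝ} (hlam : 0 < lam)
    (hM2 : 128 * (lam * M) ≤ 1) (S : Sad P v1 lam x v0) {u : ℝ} (hu : v1 ≤ v0 + u) :
    ‖jj f lam x (v0 + u)‖ ≤ ‖jj f lam x v0‖ * ga (8 * lam) u := by
  obtain ⟨R, hR, h⟩ := jj_eq C hlam S hu
  rw [h, norm_mul, norm_mul, norm_mul, norm_exp_I, one_mul, Complex.norm_real, Real.norm_eq_abs,
    abs_of_pos (ga_pos _ _), mul_assoc]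
  refine mul_le_mul_of_nonneg_left ?_ (norm_nonneg _)
  refine le_trans ?_ (sq_exp (u := u) hlam C.Mnn hM2)
  refine mul_le_mul_of_nonneg_left ?_ (ga_pos _ _).le
  rw [Complex.norm_exp]
  exact Real.exp_le_exp.mpr ((re_le_norm R).trans hR)

/-- sharper bound, used at the left end -/
lemma norm_jj_le' (C : Core f P v1 M Θ B1) {lam x v0 : ℝ} (hlam : 0 < lam)
    (S : Sad P v1 lam x v0) {u : ℝ} (hu : v1 ≤ v0 + u) :
    ‖jj f lam x (v0 + u)‖ ≤ ‖jj f lam x v0‖ * Real.exp (M * u ^ 2 - u ^ 2 / (4 * lam)) := by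
  obtain ⟨R, hR, h⟩ := jj_eq C hlam S hu
  rw [h, norm_mul, norm_mul, norm_mul, norm_exp_I, one_mul, Complex.norm_real, Real.norm_eq_abs,
    abs_of_pos (ga_pos _ _), mul_assoc]
  refine mul_le_mul_of_nonneg_left ?_ (norm_nonneg _)
  rw [Complex.norm_exp, sub_eq_neg_add, Real.exp_add]
  have e : Real.exp (-(u ^ 2 / (4 * lam))) = ga (4 * lam) u := by
    unfold ga
    rw [neg_div]
  rw [e]
  refine mul_le_mul_of_nonneg_left ?_ (ga_pos _ _).le
  exact Real.exp_le_exp.mpr ((re_le_norm R).trans hR)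

lemma jj_sub_le (C : Core f P v1 M Θ B1) {lam x v0 : ℝ} (hlam : 0 < lam)
    (hM2 : 128 * (lam * M) ≤ 1) (S : Sad P v1 lam x v0) {u : ℝ} (hu : v1 ≤ v0 + u) :
    ‖jj f lam x (v0 + u) -
      jj f lam x v0 * (cexp (I * ((P v0).im : ℂ) * u) * (ga (4 * lam) u : ℂ))‖ ≤
      ‖jj f lam x v0‖ * (16 * (lam * M) * ga (16 * lam) u) := by
  obtain ⟨R, hR, h⟩ := jj_eq C hlam S hu
  rw [h, ← mul_sub_one, norm_mul, norm_mul, norm_mul, norm_exp_I, one_mul, Complex.norm_real,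
    Real.norm_eq_abs, abs_of_pos (ga_pos _ _), mul_assoc]
  refine mul_le_mul_of_nonneg_left ?_ (norm_nonneg _)
  have h1 : ‖cexp R - 1‖ ≤ M * u ^ 2 * Real.exp (M * u ^ 2) := by
    have h2 := Complex.norm_exp_sub_sum_le_norm_mul_exp R 1
    simp only [Finset.range_one, Finset.sum_singleton, pow_zero, Nat.factorial_zero, Nat.cast_one,
      div_one, pow_one] at h2
    refine h2.trans ?_
    have h3 := Real.exp_le_exp.mpr hR
    have h4 : 0 ≤ M * u ^ 2 := mul_nonneg C.Mnn (sq_nonneg u)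
    gcongr
  have h2 := sq_exp (u := u) hlam C.Mnn hM2
  have h3 : ga (8 * lam) u * (M * u ^ 2) ≤ 16 * (lam * M) * ga (16 * lam) u := by
    have h5 : ga (8 * lam) u = ga (16 * lam) u * ga (16 * lam) u := by
      unfold ga
      rw [← Real.exp_add]
      congr 1
      field_simp
      ring
    have h6 : u ^ 2 / (16 * lam) * ga (16 * lam) u ≤ 1 := by
      unfold ga
      rw [neg_div]
      set y := u ^ 2 / (16 * lam) with hy
      have h7 : y ≤ Real.exp y := (by linarith [Real.add_one_le_exp y])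
      calc y * Real.exp (-y) ≤ Real.exp y * Real.exp (-y) :=
            mul_le_mul_of_nonneg_right h7 (Real.exp_pos _).le
        _ = 1 := by rw [← Real.exp_add]; simp
    have h7 : M * u ^ 2 = 16 * (lam * M) * (u ^ 2 / (16 * lam)) := by
      field_simp
    rw [h5, h7]
    have h8 : 0 ≤ 16 * (lam * M) := by have := C.Mnn; positivity
    calc ga (16 * lam) u * ga (16 * lam) u * (16 * (lam * M) * (u ^ 2 / (16 * lam)))
        = 16 * (lam * M) * ga (16 * lam) u * (u ^ 2 / (16 * lam) * ga (16 * lam) u) := by ring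
      _ ≤ 16 * (lam * M) * ga (16 * lam) u * 1 := by
          refine mul_le_mul_of_nonneg_left h6 ?_
          exact mul_nonneg h8 (ga_pos _ _).le
      _ = _ := by ring
  calc ga (4 * lam) u * ‖cexp R - 1‖ ≤ ga (4 * lam) u * (M * u ^ 2 * Real.exp (M * u ^ 2)) :=
        mul_le_mul_of_nonneg_left h1 (ga_pos _ _).le
    _ = (ga (4 * lam) u * Real.exp (M * u ^ 2)) * (M * u ^ 2) := by ring
    _ ≤ ga (8 * lam) u * (M * u ^ 2) :=
        mul_le_mul_of_nonneg_right h2 (mul_nonneg C.Mnn (sq_nonneg u))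
    _ ≤ _ := h3

end Pool.Agent.H466.HF
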