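import Pool.Agent.H466.HF.Core2

/-!
# A real Laplace method on a half line: integrability and the main term
-/

set_option autoImplicit false

open Complex MeasureTheory Filter Topology Set
open scoped ComplexConjugate

namespace Pool.Agent.H466.HF

variable {f P : ℝ → ℂ} {v1 M Θ B1 : ℝ}

lemma wt_le {lam : ℝ} (hlam : 0 < lam) (x v : ℝ) (a : ℝ) :
    Real.exp (a * v + v ^ 2 / (128 * lam)) * wt lam x v ≤
      Real.exp (2 * lam * (a + x / (2 * lam)) ^ 2) * ga (16 * lam) v := by
  unfold wt ga
  rw [← Real.exp_add, ← Real.exp_add]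
  apply Real.exp_le_exp.mpr
  have h1 : (a + x / (2 * lam)) * v ≤ 2 * lam * (a + x / (2 * lam)) ^ 2 + v ^ 2 / (8 * lam) := by
    have h2 : 0 ≤ 2 * lam * ((a + x / (2 * lam)) - v / (4 * lam)) ^ 2 := by positivity
    have e : 2 * lam * ((a + x / (2 * lam)) - v / (4 * lam)) ^ 2 =
        2 * lam * (a + x / (2 * lam)) ^ 2 + v ^ 2 / (8 * lam) - (a + x / (2 * lam)) * v := by
      generalize a + x / (2 * lam) = A
      field_simp
      ring
    linarith
  have h2 : a * v + v ^ 2 / (128 * lam) + (-v ^ 2 / (4 * lam) + x * v / (2 * lam)) =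
      (a + x / (2 * lam)) * v - 31 / 128 * (v ^ 2 / lam) := by
    field_simp
    ring
  have h3 : v ^ 2 / (8 * lam) = 16 / 128 * (v ^ 2 / lam) := by
    field_simp
    ring
  have h4 : -v ^ 2 / (16 * lam) = -(8 / 128 * (v ^ 2 / lam)) := by
    field_simp
    ring
  have h5 : 0 ≤ v ^ 2 / lam := by positivity
  rw [h2, h4]
  linarith

lemma Core.bound (C : Core f P v1 M Θ B1) {lam : ℝ} (hlam : 0 < lam)
    (hM2 : 128 * (lam * M) ≤ 1) (x : ℝ) :
    ∃ K : ℝ, 0 ≤ K ∧ ∀ v : ℝ, 0 ≤ v → ‖jj f lam x v‖ ≤ K * ga (16 * lam) v := by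
  set a : ℝ := ‖P v1‖ with ha
  refine ⟨(B1 + 1) * ‖f v1‖ * Real.exp (2 * lam * (a + x / (2 * lam)) ^ 2), ?_, ?_⟩
  · have := C.Bnn
    positivity
  · intro v hv
    have h0 : ‖f v‖ ≤ (B1 + 1) * ‖f v1‖ * Real.exp (a * v + v ^ 2 / (128 * lam)) := by
      rcases le_total v v1 with h | h
      · have h1 := C.left v hv h
        have h2 : 1 ≤ Real.exp (a * v + v ^ 2 / (128 * lam)) := by
          apply Real.one_le_exp
          positivity
        have h3 : 0 ≤ (B1 + 1) * ‖f v1‖ := by have := C.Bnn; positivity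
        calc ‖f v‖ ≤ B1 * ‖f v1‖ := h1
          _ ≤ (B1 + 1) * ‖f v1‖ * 1 := by
              have := norm_nonneg (f v1)
              linarith
          _ ≤ _ := mul_le_mul_of_nonneg_left h2 h3
      · obtain ⟨R, hR, hf⟩ := C.rep le_rfl h
        rw [hf, norm_mul, Complex.norm_exp]
        have h1 : (P v1 * ((v - v1 : ℝ) : ℂ) + R).re ≤ a * v + v ^ 2 / (128 * lam) := by
          have h2 : (P v1 * ((v - v1 : ℝ) : ℂ)).re ≤ a * v := by
            refine (re_le_norm _).trans ?_
            rw [norm_mul, Complex.norm_real, Real.norm_eq_abs, abs_of_nonneg (by linarith)]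
            have := C.pos
            apply mul_le_mul_of_nonneg_left _ (norm_nonneg _)
            linarith
          have h3 : R.re ≤ v ^ 2 / (128 * lam) := by
            refine (re_le_norm _).trans (hR.trans ?_)
            have h4 : (v - v1) ^ 2 ≤ v ^ 2 := by
              have := C.pos
              nlinarith
            have h5 : M * (v - v1) ^ 2 ≤ M * v ^ 2 := mul_le_mul_of_nonneg_left h4 C.Mnn
            refine h5.trans ?_
            rw [le_div_iff₀ (by positivity)]
            nlinarith [sq_nonneg v]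
          rw [add_re]
          linarith
        have h2 := Real.exp_le_exp.mpr h1
        have h3 := C.Bnn
        calc ‖f v1‖ * Real.exp (P v1 * ((v - v1 : ℝ) : ℂ) + R).re
            ≤ ‖f v1‖ * Real.exp (a * v + v ^ 2 / (128 * lam)) := by gcongr
          _ ≤ (B1 + 1) * ‖f v1‖ * Real.exp (a * v + v ^ 2 / (128 * lam)) := by
              apply mul_le_mul_of_nonneg_right _ (Real.exp_pos _).le
              nlinarith [norm_nonneg (f v1)]
    rw [norm_jj]
    have h1 := wt_le hlam x v a
    have h3 : 0 ≤ (B1 + 1) * ‖f v1‖ := by have := C.Bnn; positivity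
    calc ‖f v‖ * wt lam x v
        ≤ ((B1 + 1) * ‖f v1‖ * Real.exp (a * v + v ^ 2 / (128 * lam))) * wt lam x v :=
          mul_le_mul_of_nonneg_right h0 (wt_pos _ _ _).le
      _ = (B1 + 1) * ‖f v1‖ * (Real.exp (a * v + v ^ 2 / (128 * lam)) * wt lam x v) := by ring
      _ ≤ (B1 + 1) * ‖f v1‖ * (Real.exp (2 * lam * (a + x / (2 * lam)) ^ 2) * ga (16 * lam) v) :=
          mul_le_mul_of_nonneg_left h1 h3
      _ = _ := by ring

lemma jj_cont (hf : Continuous f) (lam x : ℝ) : Continuous (jj f lam x) := by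
  unfold jj wt
  fun_prop

lemma Core.integrable (C : Core f P v1 M Θ B1) {lam : ℝ} (hlam : 0 < lam)
    (hM2 : 128 * (lam * M) ≤ 1) (x : ℝ) : IntegrableOn (jj f lam x) (Ioi 0) := by
  obtain ⟨K, hK, h⟩ := C.bound hlam hM2 x
  have h1 : IntegrableOn (fun v => K * ga (16 * lam) v) (Ioi 0) :=
    ((ga_integrable (by positivity)).const_mul K).integrableOn
  refine Integrable.mono' h1 (jj_cont C.cont lam x).aestronglyMeasurable ?_
  exact (ae_restrict_iff' measurableSet_Ioi).mpr (Eventually.of_forall fun v hv => h v (le_of_lt hv))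

lemma Core.integrable_mul (C : Core f P v1 M Θ B1) {lam : ℝ} (hlam : 0 < lam)
    (hM2 : 128 * (lam * M) ≤ 1) (x : ℝ) :
    IntegrableOn (fun v : ℝ => (v : ℂ) * jj f lam x v) (Ioi 0) := by
  obtain ⟨K, hK, h⟩ := C.bound hlam hM2 x
  have h0 : Integrable (fun v : ℝ => v * Real.exp (-(1 / (16 * lam)) * v ^ 2)) :=
    integrable_mul_exp_neg_mul_sq (by positivity)
  have h1 : IntegrableOn (fun v => K * (v * Real.exp (-(1 / (16 * lam)) * v ^ 2))) (Ioi 0) :=
    (h0.const_mul K).integrableOn
  refine Integrable.mono' h1 ?_ ?_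
  · exact (continuous_ofReal.mul (jj_cont C.cont lam x)).aestronglyMeasurable
  · refine (ae_restrict_iff' measurableSet_Ioi).mpr (Eventually.of_forall fun v hv => ?_)
    have hv0 : 0 ≤ v := le_of_lt hv
    rw [norm_mul, Complex.norm_real, Real.norm_eq_abs, abs_of_nonneg hv0]
    have h2 := mul_le_mul_of_nonneg_left (h v hv0) hv0
    refine h2.trans (le_of_eq ?_)
    have e : ga (16 * lam) v = Real.exp (-(1 / (16 * lam)) * v ^ 2) := by
      unfold ga
      congr 1
      ring
    rw [e]
    ring

/-- the main term -/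
lemma Core.main (C : Core f P v1 M Θ B1) {lam x v0 : ℝ} (hlam : 0 < lam)
    (hM2 : 128 * (lam * M) ≤ 1) (S : Sad P v1 lam x v0) (hv1 : 0 ≤ v1) :
    ‖jj f lam x v0‖ * (Real.sqrt (Real.pi * (4 * lam)) * Real.exp (-(lam * (P v0).im ^ 2)) -
      (16 * (lam * M) * Real.sqrt (Real.pi * (16 * lam)) +
        Real.exp (-((v0 - v1) ^ 2 / (8 * lam))) * Real.sqrt (Real.pi * (8 * lam)))) ≤
      ‖∫ v in Ioi v1, jj f lam x v‖ := by
  set A := ‖jj f lam x v0‖ with hA
  set F : ℝ → ℂ := fun u => (Ioi v1).indicator (jj f lam x) (u + v0) with hF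
  set G : ℝ → ℂ := fun u => jj f lam x v0 *
    (cexp (I * ((P v0).im : ℂ) * u) * (ga (4 * lam) u : ℂ)) with hG
  have hint0 : IntegrableOn (jj f lam x) (Ioi v1) :=
    (C.integrable hlam hM2 x).mono_set (Ioi_subset_Ioi hv1)
  have hintF : Integrable F := by
    have h1 : Integrable ((Ioi v1).indicator (jj f lam x)) :=
      (integrable_indicator_iff measurableSet_Ioi).mpr hint0
    exact h1.comp_add_right v0
  have hFint : ∫ u, F u = ∫ v in Ioi v1, jj f lam x v := by
    rw [hF]
    have := integral_add_right_eq_self (μ := volume) ((Ioi v1).indicator (jj f lam x)) v0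
    rw [this, integral_indicator measurableSet_Ioi]
  have hGi : Integrable G := by
    refine Integrable.const_mul ?_ _
    refine Integrable.mono' (ga_integrable (k := 4 * lam) (by positivity)) ?_
      (Eventually.of_forall fun u => ?_)
    · refine Continuous.aestronglyMeasurable ?_
      unfold ga
      fun_prop
    · rw [norm_mul, norm_exp_I, one_mul, Complex.norm_real, Real.norm_eq_abs,
        abs_of_pos (ga_pos _ _)]
  have hGint : ‖∫ u, G u‖ = A * (Real.sqrt (Real.pi * (4 * lam)) *
      Real.exp (-(lam * (P v0).im ^ 2))) := by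
    rw [hG, integral_const_mul, ga_fourier hlam, norm_mul, Complex.norm_real, Real.norm_eq_abs,
      abs_of_nonneg (by positivity)]
  have hdiff : ∀ u, ‖F u - G u‖ ≤ A * (16 * (lam * M) * ga (16 * lam) u +
      Real.exp (-((v0 - v1) ^ 2 / (8 * lam))) * ga (8 * lam) u) := by
    intro u
    have hp1 : 0 ≤ Real.exp (-((v0 - v1) ^ 2 / (8 * lam))) * ga (8 * lam) u :=
      mul_nonneg (Real.exp_pos _).le (ga_pos _ _).le
    have hp2 : 0 ≤ 16 * (lam * M) * ga (16 * lam) u := by
      have := C.Mnn
      have := ga_pos (16 * lam) u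
      positivity
    by_cases hu : v1 < u + v0
    · have e : F u = jj f lam x (v0 + u) := by
        simp only [hF]
        rw [indicator_of_mem (by exact hu), add_comm]
      rw [e]
      refine (jj_sub_le C hlam hM2 S (by linarith)).trans ?_
      exact mul_le_mul_of_nonneg_left (by linarith) (norm_nonneg _)
    · have e : F u = 0 := by
        simp only [hF]
        rw [indicator_of_notMem (by exact hu)]
      rw [e, zero_sub, norm_neg]
      simp only [hG]
      rw [norm_mul, norm_mul, norm_exp_I, one_mul, Complex.norm_real, Real.norm_eq_abs,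
        abs_of_pos (ga_pos _ _)]
      refine mul_le_mul_of_nonneg_left ?_ (norm_nonneg _)
      have h1 : ga (4 * lam) u ≤ Real.exp (-((v0 - v1) ^ 2 / (8 * lam))) * ga (8 * lam) u := by
        unfold ga
        rw [← Real.exp_add]
        apply Real.exp_le_exp.mpr
        push Not at hu
        have h2 : (v0 - v1) ^ 2 ≤ u ^ 2 := by
          have := S.lt
          nlinarith
        have h3 : (v0 - v1) ^ 2 / (8 * lam) ≤ u ^ 2 / (8 * lam) :=
          div_le_div_of_nonneg_right h2 (by positivity)
        have h4 : -u ^ 2 / (4 * lam) = -(u ^ 2 / (8 * lam)) + -u ^ 2 / (8 * lam) := by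
          field_simp
          ring
        rw [h4]
        linarith
      linarith
  have hbi : Integrable (fun u => A * (16 * (lam * M) * ga (16 * lam) u +
      Real.exp (-((v0 - v1) ^ 2 / (8 * lam))) * ga (8 * lam) u)) := by
    refine Integrable.const_mul ?_ _
    exact ((ga_integrable (by positivity)).const_mul _).add
      ((ga_integrable (by positivity)).const_mul _)
  have h1 : ‖∫ u, (F u - G u)‖ ≤ A * (16 * (lam * M) * Real.sqrt (Real.pi * (16 * lam)) +
        Real.exp (-((v0 - v1) ^ 2 / (8 * lam))) * Real.sqrt (Real.pi * (8 * lam))) := by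
    refine (norm_integral_le_of_norm_le hbi (Eventually.of_forall hdiff)).trans (le_of_eq ?_)
    rw [integral_const_mul, integral_add ((ga_integrable (by positivity)).const_mul _)
      ((ga_integrable (by positivity)).const_mul _), integral_const_mul, integral_const_mul,
      ga_integral (by positivity), ga_integral (by positivity)]
  rw [integral_sub hintF hGi, hFint] at h1
  have h2 : ‖∫ u, G u‖ - ‖∫ v in Ioi v1, jj f lam x v‖ ≤
      ‖(∫ v in Ioi v1, jj f lam x v) - ∫ u, G u‖ := by
    rw [norm_sub_rev]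
    exact norm_sub_norm_le _ _
  rw [hGint] at h2
  rw [mul_sub]
  linarith

/-- the upper bound -/
lemma Core.upper (C : Core f P v1 M Θ B1) {lam x v0 : ℝ} (hlam : 0 < lam)
    (hM2 : 128 * (lam * M) ≤ 1) (S : Sad P v1 lam x v0) (hv1 : 0 ≤ v1) :
    ∫ v in Ioi v1, ‖jj f lam x v‖ ≤ ‖jj f lam x v0‖ * Real.sqrt (Real.pi * (8 * lam)) := by
  have hint0 : IntegrableOn (fun v => ‖jj f lam x v‖) (Ioi v1) :=
    ((C.integrable hlam hM2 x).mono_set (Ioi_subset_Ioi hv1)).norm
  have h1 : ∫ v in Ioi v1, ‖jj f lam x v‖ ≤ ∫ v in Ioi v1, ‖jj f lam x v0‖ * ga (8 * lam) (v - v0) := by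
    refine setIntegral_mono_on hint0 ?_ measurableSet_Ioi fun v hv => ?_
    · exact (((ga_integrable (k := 8 * lam) (by positivity)).comp_sub_right v0).const_mul _).integrableOn
    · have h2 := norm_jj_le C hlam hM2 S (u := v - v0) (by
        have : v1 < v := hv
        linarith)
      rwa [add_sub_cancel] at h2
  refine h1.trans ?_
  rw [integral_const_mul]
  refine mul_le_mul_of_nonneg_left ?_ (norm_nonneg _)
  rw [← ga_integral (k := 8 * lam) (by positivity)]
  have h2 := integral_sub_right_eq_self (μ := volume) (ga (8 * lam)) v0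
  rw [← h2]
  refine setIntegral_le_integral ((ga_integrable (k := 8 * lam) (by positivity)).comp_sub_right v0)
    (Eventually.of_forall fun v => (ga_pos _ _).le)

/-- the first absolute moment -/
lemma Core.moment (C : Core f P v1 M Θ B1) {lam x v0 : ℝ} (hlam : 0 < lam)
    (hM2 : 128 * (lam * M) ≤ 1) (S : Sad P v1 lam x v0) (hv1 : 0 ≤ v1) :
    ∫ v in Ioi v1, |v - v0| * ‖jj f lam x v‖ ≤ ‖jj f lam x v0‖ * (8 * lam) := by
  have hi0 : Integrable (fun u : ℝ => |u| * ga (8 * lam) u) := by
    have h0 : Integrable (fun v : ℝ => v * Real.exp (-(1 / (8 * lam)) * v ^ 2)) :=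
      integrable_mul_exp_neg_mul_sq (by positivity)
    refine h0.norm.congr (Eventually.of_forall fun u => ?_)
    simp only [norm_mul, Real.norm_eq_abs, Real.abs_exp]
    congr 1
    unfold ga
    congr 1
    ring
  have hval : ∫ u : ℝ, |u| * ga (8 * lam) u = 8 * lam := by
    have h1 : ∫ u : ℝ, |u| * ga (8 * lam) u = 2 * ∫ u in Ioi (0 : ℝ), u * ga (8 * lam) u := by
      have := integral_comp_abs (f := fun u : ℝ => u * ga (8 * lam) u)
      rw [← this]
      refine integral_congr_ae (Eventually.of_forall fun u => ?_)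
      simp only
      congr 1
      unfold ga
      rw [sq_abs]
    rw [h1]
    have hb : 0 < ((1 / (8 * lam) : ℝ) : ℂ).re := by rw [ofReal_re]; positivity
    have h2 := integral_mul_cexp_neg_mul_sq hb
    have h3 : ∫ r in Ioi (0 : ℝ), (r : ℂ) * cexp (-((1 / (8 * lam) : ℝ) : ℂ) * r ^ 2) =
        ((∫ r in Ioi (0 : ℝ), r * ga (8 * lam) r : ℝ) : ℂ) := by
      rw [← integral_complex_ofReal]
      refine integral_congr_ae (Eventually.of_forall fun r => ?_)
      simp only
      unfold ga
      push_cast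
      congr 2
      ring
    rw [h3] at h2
    have h4 : (∫ r in Ioi (0 : ℝ), r * ga (8 * lam) r : ℝ) = (2 * (1 / (8 * lam)))⁻¹ := by
      have : (((2 * (1 / (8 * lam)))⁻¹ : ℝ) : ℂ) = (2 * ((1 / (8 * lam) : ℝ) : ℂ))⁻¹ := by
        push_cast
        ring
      rw [← this] at h2
      exact_mod_cast h2
    rw [h4]
    field_simp
  have hint0 : IntegrableOn (fun v => |v - v0| * ‖jj f lam x v‖) (Ioi v1) := by
    have h1 := ((C.integrable_mul hlam hM2 x).mono_set (Ioi_subset_Ioi hv1))
    have h2 := ((C.integrable hlam hM2 x).mono_set (Ioi_subset_Ioi hv1)).const_mul (v0 : ℂ)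
    refine (h1.sub h2).norm.congr (Eventually.of_forall fun v => ?_)
    simp only [Pi.sub_apply]
    rw [← sub_mul, norm_mul, ← ofReal_sub, Complex.norm_real, Real.norm_eq_abs]
  have h1 : ∫ v in Ioi v1, |v - v0| * ‖jj f lam x v‖ ≤
      ∫ v in Ioi v1, ‖jj f lam x v0‖ * (|v - v0| * ga (8 * lam) (v - v0)) := by
    refine setIntegral_mono_on hint0 ?_ measurableSet_Ioi fun v hv => ?_
    · exact ((hi0.comp_sub_right v0).const_mul _).integrableOn
    · have h2 := norm_jj_le C hlam hM2 S (u := v - v0) (by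
        have : v1 < v := hv
        linarith)
      rw [add_sub_cancel] at h2
      have h3 := mul_le_mul_of_nonneg_left h2 (abs_nonneg (v - v0))
      linarith
  refine h1.trans ?_
  rw [integral_const_mul]
  refine mul_le_mul_of_nonneg_left ?_ (norm_nonneg _)
  have h2 := integral_sub_right_eq_self (μ := volume) (fun u => |u| * ga (8 * lam) u) v0
  refine le_trans ?_ (h2.trans hval).le
  exact setIntegral_le_integral (hi0.comp_sub_right v0)
    (Eventually.of_forall fun v => mul_nonneg (abs_nonneg _) (ga_pos _ _).le)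

end Pool.Agent.H466.HF
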