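import Pool.Agent.H466.HF.Core3

/-!
# A real Laplace method on a half line: comparison of the two sides
-/

set_option autoImplicit false

open Complex MeasureTheory Filter Topology Set
open scoped ComplexConjugate

namespace Pool.Agent.H466.HF

variable {f P : ℝ → ℂ} {v1 M Θ B1 : ℝ}

lemma key_aux {t : ℝ} (ht0 : 0 ≤ t) : (1 - 8 * t) * (1 + 2 * t) ^ 2 ≤ 1 - 4 * t := by
  have e : (1 - 8 * t) * (1 + 2 * t) ^ 2 = 1 - 4 * t - (28 * t ^ 2 + 32 * t ^ 3) := by ring
  rw [e]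
  have : 0 ≤ 28 * t ^ 2 + 32 * t ^ 3 := by positivity
  linarith

lemma key_low {W d t : ℝ} (ht0 : 0 ≤ t) (ht : 128 * t ≤ 1) (hW0 : 0 ≤ W)
    (h4 : W ≤ d * (1 + 2 * t)) : W ^ 2 * (1 - 8 * t) ≤ d ^ 2 * (1 - 4 * t) := by
  have h5 : W ^ 2 ≤ d ^ 2 * (1 + 2 * t) ^ 2 := by
    rw [← mul_pow]
    exact pow_le_pow_left₀ hW0 h4 2
  calc W ^ 2 * (1 - 8 * t) ≤ (d ^ 2 * (1 + 2 * t) ^ 2) * (1 - 8 * t) :=
        mul_le_mul_of_nonneg_right h5 (by linarith)
    _ = d ^ 2 * ((1 - 8 * t) * (1 + 2 * t) ^ 2) := by ring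
    _ ≤ _ := mul_le_mul_of_nonneg_left (key_aux ht0) (sq_nonneg d)

lemma key_big {W d t η : ℝ} (ht0 : 0 ≤ t) (ht : 128 * t ≤ 1) (hη : 0 < η) (hW : η ≤ W)
    (h4 : W ≤ d * (1 + 2 * t)) : W * η / 4 ≤ d ^ 2 * (1 - 4 * t) := by
  have hW0 : 0 ≤ W := by linarith
  have h7 := key_low ht0 ht hW0 h4
  have h8 : W ^ 2 * (15 / 16) ≤ W ^ 2 * (1 - 8 * t) := by
    apply mul_le_mul_of_nonneg_left _ (sq_nonneg W)
    linarith
  have h9 : W * η ≤ W * W := mul_le_mul_of_nonneg_left hW hW0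
  have h10 : W * W = W ^ 2 := by ring
  have h11 : 0 ≤ W ^ 2 := sq_nonneg W
  linarith

lemma key_small {W d t η y v1 : ℝ} (ht0 : 0 ≤ t) (ht : 128 * t ≤ 1) (hη : 0 < η) (hW : η ≤ W)
    (hy0 : 0 ≤ y) (hyv : y ≤ 5 / 4 * v1) (h11 : η / 2 ≤ W - 2 * y)
    (h17 : 160 * (t * v1) ≤ η)
    (h4 : W - y ≤ d * (1 + 2 * t)) : W * η / 4 ≤ d ^ 2 * (1 - 4 * t) - y ^ 2 := by
  have hW0 : 0 ≤ W := by linarith
  have hWy : 0 ≤ W - y := by linarith
  have h7 := key_low ht0 ht hWy h4
  have h8 : (W - y) ^ 2 ≤ W ^ 2 := by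
    apply pow_le_pow_left₀ hWy
    linarith
  have h9 : 8 * t * (W - y) ^ 2 ≤ 8 * t * W ^ 2 :=
    mul_le_mul_of_nonneg_left h8 (by positivity)
  have h10 : (W - y) ^ 2 - y ^ 2 = W * (W - 2 * y) := by ring
  have h7' : (W - y) ^ 2 - 8 * t * (W - y) ^ 2 ≤ d ^ 2 * (1 - 4 * t) := by
    have e : (W - y) ^ 2 - 8 * t * (W - y) ^ 2 = (W - y) ^ 2 * (1 - 8 * t) := by ring
    rw [e]
    exact h7
  rcases le_total (4 * y) W with h12 | h12
  · have h13 : W * (W / 2) ≤ W * (W - 2 * y) := by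
      apply mul_le_mul_of_nonneg_left _ hW0
      linarith
    have h14 : 8 * t * W ^ 2 ≤ (1 / 16) * W ^ 2 := by
      apply mul_le_mul_of_nonneg_right _ (sq_nonneg W)
      linarith
    have h15 : W * η ≤ W * W := mul_le_mul_of_nonneg_left hW hW0
    have h16 : W * W = W ^ 2 := by ring
    have h17' : W * (W / 2) = W ^ 2 / 2 := by ring
    have h18 : 0 ≤ W ^ 2 := sq_nonneg W
    linarith
  · have h13 : W * (η / 2) ≤ W * (W - 2 * y) := mul_le_mul_of_nonneg_left h11 hW0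
    have h14 : 8 * t * W ^ 2 ≤ W * η / 4 := by
      have h15 : W ≤ 5 * v1 := by linarith
      have h16 : t * W ≤ t * (5 * v1) := mul_le_mul_of_nonneg_left h15 ht0
      have h18 : 8 * (t * W) ≤ η / 4 := by linarith
      calc 8 * t * W ^ 2 = W * (8 * (t * W)) := by ring
        _ ≤ W * (η / 4) := mul_le_mul_of_nonneg_left h18 hW0
        _ = _ := by ring
    have h19 : W * (η / 2) = W * η / 2 := by ring
    linarith

/-- numerical conditions -/
structure Num (P : ℝ → ℂ) (v1 M Θ B1 lam q η : ℝ) : Prop where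
  lam0 : 0 < lam
  q0 : 0 < q
  q1 : q ≤ Real.exp (-(lam * Θ ^ 2))
  a : 128 * (lam * M) ≤ q
  b : 6 * Real.exp (-(v1 ^ 2 / (32 * lam))) ≤ q
  c : lam * Real.log (8 / q) ≤ v1 * (η / 4)
  e0 : 0 < η
  e1 : η ≤ v1
  d : 2 * v1 + η ≤ 2 * lam * (P v1).re
  e : 160 * (lam * M * v1) ≤ η
  f : 8 * (v1 * B1 * Real.exp (-(2 * lam * (P v1).re * η / (16 * lam)))) ≤ q * Real.sqrt lam
  g : 20 * Real.sqrt lam ≤ v1 * q

namespace Num

variable {lam q η : ℝ}

lemma q1' (N : Num P v1 M Θ B1 lam q η) : q ≤ 1 := by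
  refine N.q1.trans ?_
  rw [Real.exp_le_one_iff, neg_nonpos]
  have := N.lam0
  positivity

lemma hM2 (N : Num P v1 M Θ B1 lam q η) : 128 * (lam * M) ≤ 1 := N.a.trans N.q1'

/-- the saddle point, with the gap -/
lemma saddle (N : Num P v1 M Θ B1 lam q η) (C : Core f P v1 M Θ B1) {x : ℝ} (hx : -(η / 4) ≤ x) :
    ∃ v0 : ℝ, Sad P v1 lam x v0 ∧ v1 / 2 ≤ v0 - v1 ∧
      M * (v0 - v1) ^ 2 - (v0 - v1) ^ 2 / (4 * lam) + (max (v1 - x) 0) ^ 2 / (4 * lam) ≤
        -(2 * lam * (P v1).re * η / (16 * lam)) := by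
  have hlam := N.lam0
  have hM := N.hM2
  have hMnn := C.Mnn
  have hv1 := C.pos
  have hd := N.d
  have he0 := N.e0
  have he1 := N.e1
  obtain ⟨v0, h1, h2, h3⟩ := C.saddle (x := x) hlam (by linarith) (by linarith)
  refine ⟨v0, ⟨h1, h2⟩, ?_, ?_⟩
  · have h4 : v1 ≤ (v0 - v1) * (1 + 2 * (lam * M)) := by linarith
    nlinarith
  · set W := 2 * lam * (P v1).re with hW
    set t := lam * M with ht
    set d := v0 - v1 with hdd
    have ht0 : 0 ≤ t := mul_nonneg hlam.le hMnn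
    have hd0 : 0 < d := by rw [hdd]; linarith
    have hMt : M = t / lam := by rw [ht]; field_simp
    have hWη : η ≤ W := by linarith
    have ht128 : 128 * t ≤ 1 := hM
    have key : W * η / 4 ≤ d ^ 2 * (1 - 4 * t) - (max (v1 - x) 0) ^ 2 := by
      rcases le_total v1 x with h | h
      · rw [max_eq_right (by linarith)]
        have h4 : W ≤ d * (1 + 2 * t) := by linarith
        have h5 := key_big ht0 ht128 he0 hWη h4
        linarith
      · rw [max_eq_left (by linarith)]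
        have h17 : 160 * (t * v1) ≤ η := N.e
        exact key_small ht0 ht128 he0 hWη (by linarith) (by linarith) (by linarith) h17
          (by linarith)
    have e1 : M * d ^ 2 - d ^ 2 / (4 * lam) + (max (v1 - x) 0) ^ 2 / (4 * lam) =
        -((d ^ 2 * (1 - 4 * t) - (max (v1 - x) 0) ^ 2) / (4 * lam)) := by
      rw [hMt]
      field_simp
      ring
    have e2 : W * η / (16 * lam) = (W * η / 4) / (4 * lam) := by
      field_simp
      ring
    rw [e1, e2, neg_le_neg_iff]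
    exact div_le_div_of_nonneg_right key (by positivity)

lemma sqrt_facts (N : Num P v1 M Θ B1 lam q η) :
    Real.sqrt lam ≤ Real.sqrt (Real.pi * (4 * lam)) ∧
    Real.sqrt (Real.pi * (16 * lam)) = 2 * Real.sqrt (Real.pi * (4 * lam)) ∧
    Real.sqrt (Real.pi * (8 * lam)) ≤ 71 / 50 * Real.sqrt (Real.pi * (4 * lam)) ∧
    3 * Real.sqrt lam ≤ Real.sqrt (Real.pi * (4 * lam)) ∧
    0 < Real.sqrt (Real.pi * (4 * lam)) ∧ 0 < Real.sqrt lam := by
  have hlam := N.lam0
  have hpi := Real.pi_gt_three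
  refine ⟨Real.sqrt_le_sqrt (by nlinarith), ?_, ?_, ?_, Real.sqrt_pos.mpr (by positivity),
    Real.sqrt_pos.mpr hlam⟩
  · rw [show Real.pi * (16 * lam) = 2 ^ 2 * (Real.pi * (4 * lam)) by ring,
      Real.sqrt_mul (by norm_num), Real.sqrt_sq (by norm_num)]
  · rw [show (71 / 50 : ℝ) = Real.sqrt ((71 / 50) ^ 2) by
      rw [Real.sqrt_sq (by norm_num)], ← Real.sqrt_mul (by positivity)]
    exact Real.sqrt_le_sqrt (by nlinarith)
  · rw [show (3 : ℝ) = Real.sqrt (3 ^ 2) by rw [Real.sqrt_sq (by norm_num)],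
      ← Real.sqrt_mul (by positivity)]
    exact Real.sqrt_le_sqrt (by nlinarith)

lemma left_le (N : Num P v1 M Θ B1 lam q η) (C : Core f P v1 M Θ B1) {x v0 : ℝ}
    (S : Sad P v1 lam x v0)
    (hgap : M * (v0 - v1) ^ 2 - (v0 - v1) ^ 2 / (4 * lam) + (max (v1 - x) 0) ^ 2 / (4 * lam) ≤
        -(2 * lam * (P v1).re * η / (16 * lam))) :
    ∫ v in Ioc 0 v1, ‖jj f lam x v‖ ≤
      ‖jj f lam x v0‖ * (q / 8 * Real.sqrt (Real.pi * (4 * lam))) := by
  have hlam := N.lam0
  have hv1 := C.pos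
  set E := Real.exp (-(2 * lam * (P v1).re * η / (16 * lam))) with hE
  set A := ‖jj f lam x v0‖ with hA
  have hpt : ∀ v ∈ Ioc 0 v1, ‖jj f lam x v‖ ≤ B1 * (A * E) := by
    intro v hv
    rw [norm_jj]
    have h1 := C.left v hv.1.le hv.2
    have h2 : wt lam x v ≤ wt lam x v1 * Real.exp ((max (v1 - x) 0) ^ 2 / (4 * lam)) := by
      unfold wt
      rw [← Real.exp_add]
      apply Real.exp_le_exp.mpr
      have h3 : -v ^ 2 + 2 * x * v ≤ -v1 ^ 2 + 2 * x * v1 + (max (v1 - x) 0) ^ 2 := by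
        rcases le_total v1 x with h | h
        · rw [max_eq_right (by linarith)]
          have := hv.2
          nlinarith [mul_nonneg (sub_nonneg.mpr hv.2) (show 0 ≤ 2 * x - v1 - v by linarith)]
        · rw [max_eq_left (by linarith)]
          nlinarith [sq_nonneg (x - v)]
      have e1 : -v ^ 2 / (4 * lam) + x * v / (2 * lam) = (-v ^ 2 + 2 * x * v) / (4 * lam) := by
        field_simp
        ring
      have e2 : -v1 ^ 2 / (4 * lam) + x * v1 / (2 * lam) + (max (v1 - x) 0) ^ 2 / (4 * lam) =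
          (-v1 ^ 2 + 2 * x * v1 + (max (v1 - x) 0) ^ 2) / (4 * lam) := by
        field_simp
        ring
      rw [e1, e2]
      exact div_le_div_of_nonneg_right h3 (by positivity)
    have h3 := norm_jj_le' C hlam S (u := v1 - v0) (by linarith)
    rw [add_sub_cancel, norm_jj] at h3
    have e3 : (v1 - v0) ^ 2 = (v0 - v1) ^ 2 := by ring
    rw [e3] at h3
    have h4 := C.Bnn
    have h5 := norm_nonneg (f v1)
    calc ‖f v‖ * wt lam x v ≤ (B1 * ‖f v1‖) *
          (wt lam x v1 * Real.exp ((max (v1 - x) 0) ^ 2 / (4 * lam))) := by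
          apply mul_le_mul h1 h2 (wt_pos _ _ _).le (by positivity)
      _ = B1 * ((‖f v1‖ * wt lam x v1) * Real.exp ((max (v1 - x) 0) ^ 2 / (4 * lam))) := by ring
      _ ≤ B1 * ((A * Real.exp (M * (v0 - v1) ^ 2 - (v0 - v1) ^ 2 / (4 * lam))) *
            Real.exp ((max (v1 - x) 0) ^ 2 / (4 * lam))) := by
          apply mul_le_mul_of_nonneg_left _ h4
          exact mul_le_mul_of_nonneg_right h3 (Real.exp_pos _).le
      _ = B1 * (A * Real.exp (M * (v0 - v1) ^ 2 - (v0 - v1) ^ 2 / (4 * lam) +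
            (max (v1 - x) 0) ^ 2 / (4 * lam))) := by
          rw [Real.exp_add (M * (v0 - v1) ^ 2 - (v0 - v1) ^ 2 / (4 * lam))]
          ring
      _ ≤ B1 * (A * E) := by
          apply mul_le_mul_of_nonneg_left _ h4
          exact mul_le_mul_of_nonneg_left (Real.exp_le_exp.mpr hgap) (norm_nonneg _)
  have hint : IntegrableOn (fun v => ‖jj f lam x v‖) (Ioc 0 v1) :=
    ((C.integrable hlam N.hM2 x).mono_set Ioc_subset_Ioi_self).norm
  have h1 : ∫ v in Ioc 0 v1, ‖jj f lam x v‖ ≤ ∫ _v in Ioc 0 v1, B1 * (A * E) :=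
    setIntegral_mono_on hint (integrableOn_const (by simp) enorm_ne_top) measurableSet_Ioc hpt
  refine h1.trans ?_
  rw [setIntegral_const, smul_eq_mul, measureReal_def, Real.volume_Ioc, sub_zero,
    ENNReal.toReal_ofReal hv1.le]
  have h2 := N.f
  obtain ⟨h3, -, -, -, -, -⟩ := N.sqrt_facts
  rw [← hE] at h2
  have h4 : v1 * (B1 * (A * E)) = A * (v1 * B1 * E) := by ring
  rw [h4]
  refine mul_le_mul_of_nonneg_left ?_ (norm_nonneg _)
  have h5 : q * Real.sqrt lam ≤ q * Real.sqrt (Real.pi * (4 * lam)) :=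
    mul_le_mul_of_nonneg_left h3 N.q0.le
  linarith

lemma split (N : Num P v1 M Θ B1 lam q η) (C : Core f P v1 M Θ B1) (x : ℝ) :
    JJ f lam x = (∫ v in Ioc 0 v1, jj f lam x v) + ∫ v in Ioi v1, jj f lam x v := by
  unfold JJ
  have h := C.integrable N.lam0 N.hM2 x
  have e : Ioi (0 : ℝ) = Ioc 0 v1 ∪ Ioi v1 := (Ioc_union_Ioi_eq_Ioi C.pos.le).symm
  rw [e, setIntegral_union Ioc_disjoint_Ioi_same measurableSet_Ioi
    (h.mono_set Ioc_subset_Ioi_self) (h.mono_set (Ioi_subset_Ioi C.pos.le))]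

/-- the lower bound for `J` -/
lemma low (N : Num P v1 M Θ B1 lam q η) (C : Core f P v1 M Θ B1) {x : ℝ} (hx : -(η / 4) ≤ x) :
    ∃ v0 : ℝ, v1 < v0 ∧ Sad P v1 lam x v0 ∧ 0 < ‖jj f lam x v0‖ ∧
      ‖jj f lam x v0‖ * (3 * q / 8 * Real.sqrt (Real.pi * (4 * lam))) ≤ ‖JJ f lam x‖ ∧
      ∫ v in Ioc 0 v1, ‖jj f lam x v‖ ≤
        ‖jj f lam x v0‖ * (q / 8 * Real.sqrt (Real.pi * (4 * lam))) := by
  have hlam := N.lam0
  have hv1 := C.pos
  obtain ⟨v0, S, hd, hgap⟩ := N.saddle C hx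
  have hleft := N.left_le C S hgap
  refine ⟨v0, S.lt, S, ?_, ?_, hleft⟩
  · rw [norm_jj]
    refine mul_pos ?_ (wt_pos _ _ _)
    obtain ⟨R, -, hf⟩ := C.rep le_rfl S.lt.le
    rw [hf]
    exact norm_pos_iff.mpr (mul_ne_zero C.ne (Complex.exp_ne_zero _))
  · have hmain := C.main hlam N.hM2 S hv1.le
    set A := ‖jj f lam x v0‖ with hA
    set s := Real.sqrt (Real.pi * (4 * lam)) with hs
    obtain ⟨-, h2, h3, -, hs0, -⟩ := N.sqrt_facts
    rw [← hs] at h2 h3 hs0
    rw [h2] at hmain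
    have h4 : q ≤ Real.exp (-(lam * (P v0).im ^ 2)) := by
      refine N.q1.trans (Real.exp_le_exp.mpr ?_)
      rw [neg_le_neg_iff]
      apply mul_le_mul_of_nonneg_left _ hlam.le
      have := C.im v0 S.lt.le
      exact sq_le_sq' (by linarith [(abs_le.mp this).1]) (abs_le.mp this).2
    have h5 : Real.exp (-((v0 - v1) ^ 2 / (8 * lam))) ≤ q / 6 := by
      have h6 := N.b
      have h7 : Real.exp (-((v0 - v1) ^ 2 / (8 * lam))) ≤ Real.exp (-(v1 ^ 2 / (32 * lam))) := by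
        apply Real.exp_le_exp.mpr
        rw [neg_le_neg_iff]
        have h8 : v1 ^ 2 / 4 ≤ (v0 - v1) ^ 2 := by nlinarith
        calc v1 ^ 2 / (32 * lam) = (v1 ^ 2 / 4) / (8 * lam) := by field_simp; ring
          _ ≤ _ := div_le_div_of_nonneg_right h8 (by positivity)
      linarith
    have h6 : s * q ≤ s * Real.exp (-(lam * (P v0).im ^ 2)) := mul_le_mul_of_nonneg_left h4 hs0.le
    have h7 : 16 * (lam * M) * (2 * s) ≤ s * (q / 4) := by
      have := N.a
      have h8 : s * (128 * (lam * M)) ≤ s * q := mul_le_mul_of_nonneg_left this hs0.le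
      linarith
    have h8 : Real.exp (-((v0 - v1) ^ 2 / (8 * lam))) * Real.sqrt (Real.pi * (8 * lam)) ≤
        s * (q / 4) := by
      have hq := N.q0
      calc Real.exp (-((v0 - v1) ^ 2 / (8 * lam))) * Real.sqrt (Real.pi * (8 * lam))
          ≤ (q / 6) * (71 / 50 * s) := mul_le_mul h5 h3 (Real.sqrt_nonneg _) (by positivity)
        _ ≤ s * (q / 4) := by nlinarith [mul_pos hq hs0]
    have h9 : A * (s * q / 2) ≤ ‖∫ v in Ioi v1, jj f lam x v‖ := by
      refine le_trans (mul_le_mul_of_nonneg_left ?_ (norm_nonneg _)) hmain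
      linarith
    rw [N.split C x]
    have h10 : ‖∫ v in Ioc 0 v1, jj f lam x v‖ ≤ A * (q / 8 * s) :=
      (norm_integral_le_integral_norm _).trans hleft
    have h11 := norm_sub_norm_le (∫ v in Ioi v1, jj f lam x v) (-∫ v in Ioc 0 v1, jj f lam x v)
    rw [norm_neg, sub_neg_eq_add, add_comm (∫ v in Ioi v1, jj f lam x v)] at h11
    have e : A * (3 * q / 8 * s) = A * (s * q / 2) - A * (q / 8 * s) := by ring
    linarith

/-- comparison for `x` not too small -/
lemma compare_far (N : Num P v1 M Θ B1 lam q η) (C : Core f P v1 M Θ B1) {x : ℝ}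
    (hx : lam * Real.log (8 / q) / v1 ≤ x) (hx0 : 0 < x) : ‖JJ f lam (-x)‖ < ‖JJ f lam x‖ := by
  have hlam := N.lam0
  have hv1 := C.pos
  have hq := N.q0
  obtain ⟨v0, h1, S, hA0, hJ, hleft⟩ := N.low C (x := x) (by linarith [N.e0])
  set A := ‖jj f lam x v0‖ with hA
  set s := Real.sqrt (Real.pi * (4 * lam)) with hs
  obtain ⟨-, -, h3, -, hs0, -⟩ := N.sqrt_facts
  rw [← hs] at h3 hs0
  have hpt : ∀ v : ℝ, 0 ≤ v → ‖jj f lam (-x) v‖ = ‖jj f lam x v‖ * Real.exp (-(x * v / lam)) := by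
    intro v _
    rw [norm_jj, norm_jj, mul_assoc]
    congr 1
    unfold wt
    rw [← Real.exp_add]
    congr 1
    field_simp
    ring
  have hl : ∫ v in Ioc 0 v1, ‖jj f lam (-x) v‖ ≤ ∫ v in Ioc 0 v1, ‖jj f lam x v‖ := by
    refine setIntegral_mono_on
      ((C.integrable hlam N.hM2 (-x)).mono_set Ioc_subset_Ioi_self).norm
      ((C.integrable hlam N.hM2 x).mono_set Ioc_subset_Ioi_self).norm measurableSet_Ioc fun v hv => ?_
    rw [hpt v hv.1.le]
    refine mul_le_of_le_one_right (norm_nonneg _) ?_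
    rw [Real.exp_le_one_iff, neg_nonpos]
    have := hv.1
    positivity
  have hr : ∫ v in Ioi v1, ‖jj f lam (-x) v‖ ≤
      Real.exp (-(x * v1 / lam)) * ∫ v in Ioi v1, ‖jj f lam x v‖ := by
    rw [← integral_const_mul]
    refine setIntegral_mono_on
      ((C.integrable hlam N.hM2 (-x)).mono_set (Ioi_subset_Ioi hv1.le)).norm
      (((C.integrable hlam N.hM2 x).mono_set (Ioi_subset_Ioi hv1.le)).norm.const_mul _)
      measurableSet_Ioi fun v hv => ?_
    have hv' : v1 < v := hv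
    rw [hpt v (by linarith), mul_comm]
    refine mul_le_mul_of_nonneg_right (Real.exp_le_exp.mpr ?_) (norm_nonneg _)
    rw [neg_le_neg_iff]
    apply div_le_div_of_nonneg_right _ hlam.le
    exact mul_le_mul_of_nonneg_left hv'.le hx0.le
  have hE : Real.exp (-(x * v1 / lam)) ≤ q / 8 := by
    have h4 : Real.log (8 / q) ≤ x * v1 / lam := by
      rw [le_div_iff₀ hlam]
      rw [div_le_iff₀ hv1] at hx
      linarith
    have h5 := Real.exp_le_exp.mpr (neg_le_neg h4)
    refine h5.trans (le_of_eq ?_)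
    rw [Real.exp_neg, Real.exp_log (by positivity)]
    field_simp
  have hU := C.upper hlam N.hM2 S hv1.le
  have h6 : ∫ v in Ioi v1, ‖jj f lam (-x) v‖ ≤ q / 8 * (A * (71 / 50 * s)) := by
    refine hr.trans ?_
    refine mul_le_mul hE (hU.trans ?_) (integral_nonneg fun _ => norm_nonneg _) (by positivity)
    exact mul_le_mul_of_nonneg_left h3 (norm_nonneg _)
  have h7 : ‖JJ f lam (-x)‖ ≤ A * (q / 8 * s) + q / 8 * (A * (71 / 50 * s)) := by
    rw [N.split C (-x)]
    refine (norm_add_le _ _).trans ?_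
    refine add_le_add ((norm_integral_le_integral_norm _).trans (hl.trans hleft))
      ((norm_integral_le_integral_norm _).trans h6)
  have h8 : 0 < A * (q * s) := by positivity
  have e1 : A * (q / 8 * s) + q / 8 * (A * (71 / 50 * s)) = 121 / 400 * (A * (q * s)) := by ring
  have e2 : A * (3 * q / 8 * s) = 3 / 8 * (A * (q * s)) := by ring
  rw [e1] at h7
  rw [e2] at hJ
  linarith

/-- positivity of the real part of the logarithmic derivative of `J` -/
lemma posre (N : Num P v1 M Θ B1 lam q η) (C : Core f P v1 M Θ B1) {x : ℝ} (hx : -(η / 4) ≤ x) :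
    0 < (conj (JJ f lam x) * J1 f lam x).re := by
  have hlam := N.lam0
  have hv1 := C.pos
  have hq := N.q0
  obtain ⟨v0, h1, S, hA0, hJ, hleft⟩ := N.low C hx
  set A := ‖jj f lam x v0‖ with hA
  set s := Real.sqrt (Real.pi * (4 * lam)) with hs
  obtain ⟨-, -, -, h3, hs0, -⟩ := N.sqrt_facts
  rw [← hs] at h3 hs0
  have hv0 : 0 < v0 := by linarith
  have hi1 := C.integrable_mul hlam N.hM2 x
  have hi0 := (C.integrable hlam N.hM2 x).const_mul (v0 : ℂ)
  have hdec : J1 f lam x - v0 * JJ f lam x = ∫ v in Ioi (0 : ℝ), ((v : ℂ) - v0) * jj f lam x v := by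
    unfold J1 JJ
    rw [← integral_const_mul, ← integral_sub hi1 hi0]
    refine integral_congr_ae (Eventually.of_forall fun v => ?_)
    simp only
    ring
  have hnorm : ‖J1 f lam x - v0 * JJ f lam x‖ ≤
      A * (8 * lam) + v0 * (A * (q / 8 * s)) := by
    rw [hdec]
    have e : Ioi (0 : ℝ) = Ioc 0 v1 ∪ Ioi v1 := (Ioc_union_Ioi_eq_Ioi hv1.le).symm
    have hi2 : IntegrableOn (fun v : ℝ => ((v : ℂ) - v0) * jj f lam x v) (Ioi 0) := by
      refine (hi1.sub hi0).congr (Eventually.of_forall fun v => ?_)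
      simp only [Pi.sub_apply]
      ring
    rw [e, setIntegral_union Ioc_disjoint_Ioi_same measurableSet_Ioi
      (hi2.mono_set Ioc_subset_Ioi_self) (hi2.mono_set (Ioi_subset_Ioi hv1.le)), add_comm]
    refine (norm_add_le _ _).trans (add_le_add ?_ ?_)
    · refine (norm_integral_le_integral_norm _).trans ?_
      refine le_trans (le_of_eq ?_) (C.moment hlam N.hM2 S hv1.le)
      refine integral_congr_ae (Eventually.of_forall fun v => ?_)
      simp only
      rw [norm_mul, ← ofReal_sub, Complex.norm_real, Real.norm_eq_abs]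
    · refine (norm_integral_le_integral_norm _).trans ?_
      have h4 : ∫ v in Ioc 0 v1, ‖((v : ℂ) - v0) * jj f lam x v‖ ≤
          ∫ v in Ioc 0 v1, v0 * ‖jj f lam x v‖ := by
        refine setIntegral_mono_on (hi2.mono_set Ioc_subset_Ioi_self).norm
          (((C.integrable hlam N.hM2 x).mono_set Ioc_subset_Ioi_self).norm.const_mul _)
          measurableSet_Ioc fun v hv => ?_
        rw [norm_mul, ← ofReal_sub, Complex.norm_real, Real.norm_eq_abs]
        refine mul_le_mul_of_nonneg_right ?_ (norm_nonneg _)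
        rw [abs_le]
        have := hv.1
        have := hv.2
        constructor <;> linarith
      refine h4.trans ?_
      rw [integral_const_mul]
      exact mul_le_mul_of_nonneg_left hleft hv0.le
  have hsmall : A * (8 * lam) < v0 * (A * (q / 4 * s)) := by
    have h4 : 8 * lam < v0 * (q / 4 * s) := by
      have h5 := N.g
      have h6 : lam = Real.sqrt lam * Real.sqrt lam := (Real.mul_self_sqrt hlam.le).symm
      have h7 := Real.sqrt_pos.mpr hlam
      have h8 : v1 * q < v0 * q := mul_lt_mul_of_pos_right h1 hq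
      have h9 : 20 * Real.sqrt lam * s < v0 * q * s := by
        apply mul_lt_mul_of_pos_right _ hs0
        linarith
      have h10 : 20 * Real.sqrt lam * (3 * Real.sqrt lam) ≤ 20 * Real.sqrt lam * s :=
        mul_le_mul_of_nonneg_left h3 (by positivity)
      nlinarith
    calc A * (8 * lam) < A * (v0 * (q / 4 * s)) := mul_lt_mul_of_pos_left h4 hA0
      _ = _ := by ring
  have hlt : ‖J1 f lam x - v0 * JJ f lam x‖ < v0 * ‖JJ f lam x‖ := by
    have h4 := mul_le_mul_of_nonneg_left hJ hv0.le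
    have e : v0 * (A * (3 * q / 8 * s)) = v0 * (A * (q / 4 * s)) + v0 * (A * (q / 8 * s)) := by ring
    linarith
  set D := J1 f lam x - v0 * JJ f lam x with hD
  have hJ1 : J1 f lam x = v0 * JJ f lam x + D := by rw [hD]; ring
  have hJp : 0 < ‖JJ f lam x‖ := lt_of_lt_of_le (by positivity) hJ
  rw [hJ1, mul_add, add_re]
  have h5 : (conj (JJ f lam x) * (v0 * JJ f lam x)).re = v0 * ‖JJ f lam x‖ ^ 2 := by
    have : conj (JJ f lam x) * (v0 * JJ f lam x) = ((v0 * ‖JJ f lam x‖ ^ 2 : ℝ) : ℂ) := by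
      rw [mul_left_comm, Complex.conj_mul']
      push_cast
      ring
    rw [this, ofReal_re]
  have h6 : |(conj (JJ f lam x) * D).re| ≤ ‖JJ f lam x‖ * ‖D‖ := by
    refine (Complex.abs_re_le_norm _).trans (le_of_eq ?_)
    rw [norm_mul, RCLike.norm_conj]
  have h7 := (abs_le.mp h6).1
  have h8 : ‖JJ f lam x‖ * ‖D‖ < ‖JJ f lam x‖ * (v0 * ‖JJ f lam x‖) :=
    mul_lt_mul_of_pos_left hlt hJp
  rw [h5]
  nlinarith

end Num

end Pool.Agent.H466.HF
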