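import Pool.Agent.H466.HF.Core4

/-!
# A real Laplace method on a half line: monotonicity and the two-sided transform
-/

set_option autoImplicit false

open Complex MeasureTheory Filter Topology Set
open scoped ComplexConjugate

namespace Pool.Agent.H466.HF

variable {f P : ℝ → ℂ} {v1 M Θ B1 : ℝ}

lemma wt_neg (lam x v : ℝ) : wt lam x (-v) = wt lam (-x) v := by
  unfold wt
  congr 1
  ring

lemma wt_mono {lam x x' v : ℝ} (hlam : 0 < lam) (h : x ≤ x') (hv : 0 ≤ v) :
    wt lam x v ≤ wt lam x' v := by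
  unfold wt
  apply Real.exp_le_exp.mpr
  have h1 : x * v / (2 * lam) ≤ x' * v / (2 * lam) :=
    div_le_div_of_nonneg_right (mul_le_mul_of_nonneg_right h hv) (by positivity)
  linarith

lemma jj_hasDerivAt (f : ℝ → ℂ) (lam v x : ℝ) :
    HasDerivAt (fun x : ℝ => jj f lam x v) ((((1 / (2 * lam) : ℝ) : ℂ)) * ((v : ℂ) * jj f lam x v)) x := by
  have h1 : HasDerivAt (fun x : ℝ => -v ^ 2 / (4 * lam) + x * v / (2 * lam)) (v / (2 * lam)) x := by
    have h2 : HasDerivAt (fun x : ℝ => x * v / (2 * lam)) (1 * v / (2 * lam)) x :=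
      ((hasDerivAt_id x).mul_const v).div_const _
    rw [one_mul] at h2
    exact h2.const_add _
  have h2 := h1.exp
  have h3 := (h2.ofReal_comp).const_mul (f v)
  refine h3.congr_deriv ?_
  unfold jj wt
  push_cast
  ring

lemma Core.JJ_hasDerivAt (C : Core f P v1 M Θ B1) {lam : ℝ} (hlam : 0 < lam)
    (hM2 : 128 * (lam * M) ≤ 1) (x : ℝ) :
    HasDerivAt (fun x : ℝ => JJ f lam x) ((((1 / (2 * lam) : ℝ) : ℂ)) * J1 f lam x) x := by
  have hi := C.integrable_mul hlam hM2 (x + 1)
  have key := hasDerivAt_integral_of_dominated_loc_of_deriv_le (μ := volume.restrict (Ioi (0 : ℝ)))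
    (F := fun x v => jj f lam x v)
    (F' := fun x v => (((1 / (2 * lam) : ℝ) : ℂ)) * ((v : ℂ) * jj f lam x v))
    (bound := fun v => ‖(((1 / (2 * lam) : ℝ) : ℂ)) * ((v : ℂ) * jj f lam (x + 1) v)‖)
    (x₀ := x) (s := Iio (x + 1)) (Iio_mem_nhds (by linarith))
    (Eventually.of_forall fun x => (jj_cont C.cont lam x).aestronglyMeasurable)
    (C.integrable hlam hM2 x)
    ((C.integrable_mul hlam hM2 x).const_mul _).aestronglyMeasurable
    ?_ (hi.const_mul _).norm
    (Eventually.of_forall fun v y _ => jj_hasDerivAt f lam v y)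
  · have h2 := key.2
    rw [integral_const_mul] at h2
    exact h2
  · refine (ae_restrict_iff' measurableSet_Ioi).mpr (Eventually.of_forall fun v hv y hy => ?_)
    have hv0 : (0 : ℝ) ≤ v := le_of_lt hv
    simp only [norm_mul, norm_jj]
    have := wt_mono hlam (le_of_lt hy) hv0
    gcongr

lemma Num.strict (lam q η : ℝ) (N : Num P v1 M Θ B1 lam q η) (C : Core f P v1 M Θ B1) :
    StrictMonoOn (fun x : ℝ => ‖JJ f lam x‖ ^ 2) (Ici (-(η / 4))) := by
  have hd : ∀ x, HasDerivAt (fun x : ℝ => ‖JJ f lam x‖ ^ 2)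
      (2 * (1 / (2 * lam) * (conj (JJ f lam x) * J1 f lam x).re)) x := by
    intro x
    have h1 := C.JJ_hasDerivAt N.lam0 N.hM2 x
    have h2 := h1.norm_sq
    refine h2.congr_deriv ?_
    rw [Complex.inner]
    congr 1
    have : ((((1 / (2 * lam) : ℝ) : ℂ)) * J1 f lam x * conj (JJ f lam x)) =
        (((1 / (2 * lam) : ℝ) : ℂ)) * (conj (JJ f lam x) * J1 f lam x) := by ring
    rw [this, re_ofReal_mul]
  refine strictMonoOn_of_deriv_pos (convex_Ici _) ?_ ?_
  · exact fun x _ => (hd x).continuousAt.continuousWithinAt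
  · intro x hx
    rw [interior_Ici] at hx
    rw [(hd x).deriv]
    have h1 := N.posre C (x := x) (le_of_lt hx)
    have h2 := N.lam0
    positivity

lemma Num.compare {lam q η : ℝ} (N : Num P v1 M Θ B1 lam q η) (C : Core f P v1 M Θ B1)
    {x : ℝ} (hx : 0 < x) : ‖JJ f lam (-x)‖ < ‖JJ f lam x‖ := by
  rcases le_total (η / 4) x with h | h
  · refine N.compare_far C ?_ hx
    refine le_trans ?_ h
    rw [div_le_iff₀ C.pos]
    linarith [N.c]
  · have h1 := N.strict lam q η C (a := -x) (by simpa using h)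
      (b := x) (by
        have := N.e0
        simp only [mem_Ici]
        linarith) (by linarith)
    simp only at h1
    exact lt_of_pow_lt_pow_left₀ 2 (norm_nonneg _) h1

/-- the two-sided transform along a horizontal line -/
lemma two_sided (C : Core f P v1 M Θ B1) {lam : ℝ} (hlam : 0 < lam)
    (hM2 : 128 * (lam * M) ≤ 1) {ε : ℂ} (hf : ∀ v, f (-v) = ε * conj (f v)) (x : ℝ) :
    ∫ v, jj f lam x v = JJ f lam x + ε * conj (JJ f lam (-x)) := by
  have h1 : ∀ v, jj f lam x (-v) = ε * conj (jj f lam (-x) v) := by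
    intro v
    unfold jj
    rw [hf, wt_neg, map_mul, conj_ofReal]
    ring
  have h2 := C.integrable hlam hM2 x
  have h3 : IntegrableOn (fun v => jj f lam x (-v)) (Ioi 0) := by
    have h4 := C.integrable hlam hM2 (-x)
    have h5 : IntegrableOn (fun v => ε * conj (jj f lam (-x) v)) (Ioi 0) := by
      refine Integrable.const_mul ?_ ε
      exact Complex.conjCLE.toContinuousLinearMap.integrable_comp h4
    exact h5.congr (Eventually.of_forall fun v => (h1 v).symm)
  have h4 : IntegrableOn (fun v => jj f lam x v) (Iic 0) := by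
    have h5 := (Measure.measurePreserving_neg (volume : Measure ℝ)).integrableOn_comp_preimage
      (Homeomorph.neg ℝ).measurableEmbedding (f := fun v => jj f lam x v) (s := Iic 0)
    have h6 : (fun v : ℝ => -v) ⁻¹' Iic 0 = Ici 0 := by
      ext v
      simp
    rw [← h5, h6, integrableOn_Ici_iff_integrableOn_Ioi]
    exact h3
  rw [← integral_add_compl measurableSet_Iic
    (by
      rw [← integrableOn_univ, ← Iic_union_Ioi (a := (0 : ℝ))]
      exact h4.union h2), compl_Iic, add_comm]
  congr 1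
  have h5 := integral_comp_neg_Ioi (0 : ℝ) (fun v => jj f lam x v)
  rw [neg_zero] at h5
  rw [← h5]
  unfold JJ
  rw [← integral_conj, ← integral_const_mul]
  exact integral_congr_ae (Eventually.of_forall fun v => h1 v)

/-- no zeros off the centre -/
lemma Num.ne_zero {lam q η : ℝ} (N : Num P v1 M Θ B1 lam q η) (C : Core f P v1 M Θ B1)
    {ε : ℂ} (hε : ‖ε‖ = 1) (hf : ∀ v, f (-v) = ε * conj (f v)) {x : ℝ} (hx : x ≠ 0) :
    ∫ v, jj f lam x v ≠ 0 := by
  rw [two_sided C N.lam0 N.hM2 hf]
  intro h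
  have h1 : ‖JJ f lam x‖ = ‖JJ f lam (-x)‖ := by
    rw [eq_neg_of_add_eq_zero_left h, norm_neg, norm_mul, hε, one_mul, RCLike.norm_conj]
  rcases hx.lt_or_gt with h2 | h2
  · have h3 := N.compare C (x := -x) (by linarith)
    rw [neg_neg] at h3
    linarith
  · have h3 := N.compare C h2
    linarith

/-- the zero at the centre is simple -/
lemma Num.simple {lam q η : ℝ} (N : Num P v1 M Θ B1 lam q η) (C : Core f P v1 M Θ B1)
    {ε : ℂ} (hε : ‖ε‖ = 1) (hf : ∀ v, f (-v) = ε * conj (f v))
    {D : ℂ} (hD : HasDerivAt (fun x : ℝ => ∫ v, jj f lam x v) D 0)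
    (h0 : ∫ v, jj f lam 0 v = 0) : D ≠ 0 := by
  have hlam := N.lam0
  have e : (fun x : ℝ => ∫ v, jj f lam x v) = fun x => JJ f lam x + ε * conj (JJ f lam (-x)) := by
    funext x
    exact two_sided C N.lam0 N.hM2 hf x
  have h1 := C.JJ_hasDerivAt N.lam0 N.hM2 0
  have h2 : HasDerivAt (fun x : ℝ => JJ f lam (-x))
      (-((((1 / (2 * lam) : ℝ) : ℂ)) * J1 f lam 0)) 0 := by
    have h1' := C.JJ_hasDerivAt N.lam0 N.hM2 (-0)
    have h3 := h1'.scomp (0 : ℝ) (hasDerivAt_neg (0 : ℝ))
    simp only [neg_zero, neg_smul, one_smul] at h3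
    exact h3
  have h3 : HasDerivAt (fun x : ℝ => conj (JJ f lam (-x)))
      (conj (-((((1 / (2 * lam) : ℝ) : ℂ)) * J1 f lam 0))) 0 := by
    exact h2.star
  have h4 := h1.add (h3.const_mul ε)
  rw [e] at hD
  have h5 := hD.unique h4
  intro hD0
  rw [hD0] at h5
  rw [two_sided C N.lam0 N.hM2 hf, neg_zero] at h0
  set a := JJ f lam 0 with ha
  set b := J1 f lam 0 with hb
  have hl : (((1 / (2 * lam) : ℝ) : ℂ)) ≠ 0 := by
    rw [Ne, ofReal_eq_zero]
    positivity
  have h6 : b = ε * conj b := by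
    simp only [map_neg, map_mul, conj_ofReal] at h5
    have h7 : (((1 / (2 * lam) : ℝ) : ℂ)) * (b - ε * conj b) = 0 := by
      rw [mul_sub]
      have h8 : (((1 / (2 * lam) : ℝ) : ℂ)) * (ε * conj b) = ε * ((((1 / (2 * lam) : ℝ) : ℂ)) * conj b) := by
        ring
      rw [h8]
      linear_combination -h5
    have h9 := (mul_eq_zero.mp h7).resolve_left hl
    exact sub_eq_zero.mp h9
  have h7 : a = -(ε * conj a) := eq_neg_of_add_eq_zero_left h0
  have hpos := N.posre C (x := 0) (by
    have := N.e0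
    linarith)
  rw [← ha, ← hb] at hpos
  have hεε : conj ε * ε = 1 := by
    rw [Complex.conj_mul', hε]
    simp
  have h8 : conj a * b = -conj (conj a * b) := by
    have h9 : conj a = -(conj ε * a) := by
      have := congrArg conj h7
      simpa using this
    calc conj a * b = -(conj ε * a) * (ε * conj b) := by rw [← h9, ← h6]
      _ = -((conj ε * ε) * (a * conj b)) := by ring
      _ = _ := by rw [hεε]; simp
  have h9 := congrArg re h8
  rw [neg_re, conj_re] at h9
  linarith

end Pool.Agent.H466.HF
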