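import Pool.Agent.H466.HF.Sharp3
import Pool.Graph.R_seed8.H353R7.G4

/-!
# The Gaussian transform of an automorphic `L`-function
-/

set_option autoImplicit false

open Complex Set MeasureTheory intervalIntegral Filter Topology
open scoped ComplexConjugate NNReal ENNReal

namespace Pool.Agent.H466.HF

open H353.E H353.F

/-- lower bound for the real part of the logarithmic derivative of the gamma factor -/
lemma gaD_re_ge {m : ℕ} {N : ℝ} (hN : 1 ≤ N) {μ : Fin m → ℂ} (hμ : ∀ j, (μ j).re ≤ 1 / 2) (t : ℝ) :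
    1 / 2 * Real.log (N * ∏ j, (1 + ‖(t : ℂ) * I - μ j‖)) - 6 * m ≤ (gaD N μ (3 / 2 + t * I)).re := by
  have hN0 : 0 < N := by linarith
  have hp : ∀ j, 0 < 1 + ‖(t : ℂ) * I - μ j‖ := fun j => by positivity
  have hpp : 0 < ∏ j, (1 + ‖(t : ℂ) * I - μ j‖) := Finset.prod_pos fun j _ => hp j
  rw [Real.log_mul hN0.ne' hpp.ne', Real.log_prod (fun j _ => (hp j).ne')]
  unfold gaD
  rw [add_re, ofReal_re, re_sum]
  have h2 : ∀ j, 1 / 2 * Real.log (1 + ‖(t : ℂ) * I - μ j‖) + (-6) ≤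
      ((((-(Real.log Real.pi) / 2 : ℝ)) : ℂ) +
      logDeriv Gamma ((3 / 2 + t * I - μ j) / 2) / 2).re := fun j => by
    have hs : (1 : ℝ) ≤ (3 / 2 + t * I : ℂ).re := by simp; norm_num
    obtain ⟨_, _, hz⟩ := zre (hμ j) hs
    set z : ℂ := (3 / 2 + t * I - μ j) / 2 with hzdef
    have h3 := (Complex.abs_re_le_norm _).trans (dig_aux hz)
    rw [sub_re, Complex.log_re] at h3
    have h3' := (abs_le.mp h3).1
    have hlp := logpi
    set w : ℂ := (t : ℂ) * I - μ j with hw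
    have hwre : -(1 / 2) ≤ w.re := by
      have := hμ j
      simp only [hw, sub_re, mul_re, ofReal_re, I_re, mul_zero, ofReal_im, I_im, mul_one, sub_self,
        zero_sub]
      linarith
    have h4 : (1 + ‖w‖) / 4 ≤ ‖z + 2‖ := by
      have e : z + 2 = ((11 / 4 : ℝ) : ℂ) + w / 2 := by
        rw [hzdef, hw]
        push_cast
        ring
      have h5 : ‖w‖ / 2 - 1 / 4 ≤ ‖z + 2‖ ∧ 5 / 2 ≤ ‖z + 2‖ := by
        have hre : (z + 2).re = 11 / 4 + w.re / 2 := by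
          rw [e, add_re, ofReal_re, show (2 : ℂ) = ((2 : ℝ) : ℂ) by norm_num, Complex.div_ofReal_re]
        have him : (z + 2).im = w.im / 2 := by
          rw [e, add_im, ofReal_im, show (2 : ℂ) = ((2 : ℝ) : ℂ) by norm_num, Complex.div_ofReal_im,
            zero_add]
        have hr := re_le_norm (z + 2)
        refine ⟨?_, by rw [hre] at hr; linarith⟩
        have h6 : ‖w‖ ^ 2 = w.re ^ 2 + w.im ^ 2 := by
          rw [Complex.sq_norm, Complex.normSq_apply]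
          ring
        have h7 : ‖z + 2‖ ^ 2 = (11 / 4 + w.re / 2) ^ 2 + (w.im / 2) ^ 2 := by
          rw [Complex.sq_norm, Complex.normSq_apply, hre, him]
          ring
        have h8 : (‖w‖ / 2) ^ 2 ≤ ‖z + 2‖ ^ 2 := by
          rw [h7, div_pow, h6]
          nlinarith
        have h9 := (pow_le_pow_iff_left₀ (by positivity) (by positivity) two_ne_zero).mp h8
        linarith
      linarith [h5.1, h5.2]
    have h5 : 0 < (1 + ‖w‖) / 4 := by positivity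
    have h6 : Real.log (1 + ‖w‖) - Real.log 4 ≤ Real.log ‖z + 2‖ := by
      rw [← Real.log_div (hp j).ne' (by norm_num)]
      exact Real.log_le_log h5 h4
    have h7 : Real.log 4 ≤ 3 := by
      have := Real.log_le_sub_one_of_pos (show (0:ℝ) < 4 by norm_num)
      linarith
    have e2 : ((((-(Real.log Real.pi) / 2 : ℝ)) : ℂ) + logDeriv Gamma z / 2).re =
        -(Real.log Real.pi) / 2 + (logDeriv Gamma z).re / 2 := by
      rw [add_re, ofReal_re, show (2 : ℂ) = ((2 : ℝ) : ℂ) by norm_num, Complex.div_ofReal_re]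
    rw [e2]
    linarith
  have h3 := Finset.sum_le_sum (s := (Finset.univ : Finset (Fin m))) fun j _ => h2 j
  rw [Finset.sum_add_distrib, ← Finset.mul_sum, Finset.sum_const, Finset.card_univ, Fintype.card_fin,
    nsmul_eq_mul] at h3
  have hlog : 0 ≤ Real.log N := Real.log_nonneg hN
  linarith

/-- the sharp data -/
theorem sharp_of_datum (m : ℕ) (hm : 1 ≤ m) {θ η' : ℝ} (hθ0 : 0 ≤ θ) (hθ1 : θ ≤ 1 / 2)
    (hη'0 : 0 < η') (hη'1 : η' ≤ 1) :
    ∃ (C B : ℝ) (Sg : ℝ → ℝ), 1 ≤ C ∧ 1 ≤ B ∧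
    ∀ (N : ℝ) (μ : Fin m → ℂ) (α : Fin m → ℕ → ℂ) (ε : ℂ) (Λ : ℂ → ℂ),
    DatumT θ N μ α ε Λ → Sharp C B (1 + θ + η') Sg (fun z => (N : ℂ) ^ (z / 2) * Λ z)
      (gaf N μ) (gaD N μ) := by
  have hm' : (1 : ℝ) ≤ m := by exact_mod_cast hm
  obtain ⟨B2, hB2, hBe⟩ := euler_two m hη'0
  set σ : ℝ := 1 + θ + η' with hσ
  have hσ1 : 1 ≤ σ := by linarith
  set C : ℝ := 6 * m with hC
  have hC1 : 1 ≤ C := by rw [hC]; linarith
  have hexp1 : 1 ≤ Real.exp (C ^ 2 / 4 + 64) := Real.one_le_exp (by positivity)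
  refine ⟨C, B2 * Real.exp (C ^ 2 / 4 + 64), fun K => 4 * Real.exp (2 * |K| + 10), hC1,
    by nlinarith, fun N μ α ε Λ d => ?_⟩
  have hN := d.one_le
  have hN0 : 0 < N := by linarith
  have hNc : (N : ℂ) ≠ 0 := by exact_mod_cast hN0.ne'
  set X : ℂ → ℂ := fun z => (N : ℂ) ^ (z / 2) * Λ z with hX
  have gp := gaf_GP hm hN d.re_le
  have hXd : Differentiable ℂ X := by
    refine Differentiable.mul (fun z => ?_) d.entire
    exact (((hasDerivAt_id z).div_const 2).const_cpow (c := (N : ℂ)) (Or.inl hNc)).differentiableAt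
  have hXe : ∀ z : ℂ, 1 + θ < z.re → X z = gaf N μ z * euler α z := fun z hz => by
    simp only [hX, gaf]
    rw [d.euler z hz, mul_assoc]
    rfl
  have hfe : ∀ z : ℂ, X z = ε * conj (X (1 - conj z)) := fun z => by
    simp only [hX]
    rw [map_mul, conj_cpow_real hN0]
    have e1 : conj ((1 - conj z) / 2) = (1 - z) / 2 := by
      rw [map_div₀, map_sub, Complex.conj_conj, map_one, map_ofNat]
    have e2 : (N : ℂ) ^ (z / 2) * (N : ℂ) ^ (1 / 2 - z) = (N : ℂ) ^ ((1 - z) / 2) := by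
      rw [← cpow_add _ _ hNc]
      congr 1
      ring
    rw [e1, d.fe z, ← e2]
    ring
  have hbdd : ∃ M, ∀ z : ℂ, -3 ≤ z.re → z.re ≤ 4 → ‖X z‖ ≤ Real.exp (M * (1 + |z.im|)) := by
    obtain ⟨M, hM⟩ := d.bdd (-3) 4
    refine ⟨Real.log (N ^ (2 : ℝ)) + M, fun z h1 h2 => ?_⟩
    simp only [hX]
    rw [norm_mul, Complex.norm_cpow_eq_rpow_re_of_pos hN0]
    have e : (z / 2).re = z.re / 2 := by
      rw [show (2 : ℂ) = ((2 : ℝ) : ℂ) by norm_num, Complex.div_ofReal_re]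
    rw [e]
    have h3 : N ^ (z.re / 2) ≤ N ^ (2 : ℝ) := Real.rpow_le_rpow_of_exponent_le hN (by linarith)
    have h4 := hM z h1 h2
    have h5 : 0 < N ^ (2 : ℝ) := Real.rpow_pos_of_pos hN0 _
    have h6 : 1 ≤ N ^ (2 : ℝ) := Real.one_le_rpow hN (by norm_num)
    refine (mul_le_mul h3 h4 (norm_nonneg _) h5.le).trans ?_
    rw [add_mul, Real.exp_add]
    refine mul_le_mul_of_nonneg_right ?_ (Real.exp_pos _).le
    have h7 := Real.log_nonneg h6
    have h8 := abs_nonneg z.im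
    calc N ^ (2 : ℝ) = Real.exp (Real.log (N ^ (2 : ℝ))) := (Real.exp_log h5).symm
      _ ≤ Real.exp (Real.log (N ^ (2 : ℝ)) * (1 + |z.im|)) := by
        apply Real.exp_le_exp.mpr
        nlinarith
  have hhi : ∀ z : ℂ, σ ≤ z.re → ‖X z‖ ≤ B2 * ‖gaf N μ z‖ := fun z hz => by
    rw [hXe z (by linarith), norm_mul, mul_comm]
    exact mul_le_mul_of_nonneg_right (hBe θ α d.norm_le z hz).1 (norm_nonneg _)
  refine
    { gp := gp, hC := hC1, hB := by nlinarith, hσ := hσ1, diff := hXd,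
      fe := ⟨ε, d.norm_eq, hfe⟩, hi := fun z hz => ?_, lo := fun z hz => ?_,
      strip := fun z h1 h2 => ?_ }
  · refine (hhi z hz).trans (mul_le_mul_of_nonneg_right ?_ (norm_nonneg _))
    nlinarith
  · rw [hXe z (by linarith), norm_mul]
    have h3 := (hBe θ α d.norm_le z hz).2
    have h4 := norm_nonneg (gaf N μ z)
    have h5 : 1 ≤ B2 * Real.exp (C ^ 2 / 4 + 64) * ‖euler α z‖ := by
      calc (1 : ℝ) ≤ B2 * ‖euler α z‖ := h3
        _ = B2 * 1 * ‖euler α z‖ := by ring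
        _ ≤ B2 * Real.exp (C ^ 2 / 4 + 64) * ‖euler α z‖ := by gcongr
    calc ‖gaf N μ z‖ = ‖gaf N μ z‖ * 1 := by ring
      _ ≤ ‖gaf N μ z‖ * (B2 * Real.exp (C ^ 2 / 4 + 64) * ‖euler α z‖) := by gcongr
      _ = _ := by ring
  · exact strip_sharp gp hC1 hB2 hσ1 (by linarith) hXd hhi ⟨ε, d.norm_eq, hfe⟩ hbdd h1 h2

/-- **zeros of the Gaussian transform of an automorphic `L`-function** -/
theorem datum_heat (m : ℕ) (hm : 1 ≤ m) {θ η K : ℝ} (hθ0 : 0 ≤ θ) (hθ1 : θ ≤ 1 / 2) (hη : 0 < η)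
    (hK : 1 ≤ K) :
    ∃ Q0 : ℝ, ∀ (N : ℝ) (μ : Fin m → ℂ) (α : Fin m → ℕ → ℂ) (ε : ℂ) (Λ : ℂ → ℂ),
    DatumT θ N μ α ε Λ → ∀ lam : ℝ, 0 < lam → lam ≤ K →
    Differentiable ℂ (heat (fun z => (N : ℂ) ^ (z / 2) * Λ z) lam) → ∀ s : ℂ,
    Q0 ≤ Real.log (N * ∏ j, (1 + ‖(s.im : ℂ) * I - μ j‖)) →
    1 + 2 * θ + η ≤ lam * Real.log (N * ∏ j, (1 + ‖(s.im : ℂ) * I - μ j‖)) →
    heat (fun z => (N : ℂ) ^ (z / 2) * Λ z) lam s = 0 →
    s.re = 1 / 2 ∧ deriv (heat (fun z => (N : ℂ) ^ (z / 2) * Λ z) lam) s ≠ 0 := by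
  set η' : ℝ := min (η / 8) 1 with hη'
  have hη'0 : 0 < η' := lt_min (by positivity) one_pos
  have hη'1 : η' ≤ 1 := min_le_right _ _
  have hη'2 : η' ≤ η / 8 := min_le_left _ _
  obtain ⟨C, B, Sg, hC, hB, HS⟩ := sharp_of_datum m hm hθ0 hθ1 hη'0 hη'1
  obtain ⟨L0, H⟩ := sharp_heat C B (1 + θ + η') hC hB (by linarith) (η := η / 4) (K := K)
    (by positivity) hK
  have hm' : (1 : ℝ) ≤ m := by exact_mod_cast hm
  refine ⟨max (2 * L0 + 12 * m) ((1 + 2 * θ + η) * (24 * m) / (η / 2)), fun N μ α ε Λ d lam h0 h1 hd s h2 h3 hz => ?_⟩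
  have hge := gaD_re_ge d.one_le d.re_le s.im
  set T := Real.log (N * ∏ j, (1 + ‖(s.im : ℂ) * I - μ j‖)) with hT
  have h2a : 2 * L0 + 12 * m ≤ T := (le_max_left _ _).trans h2
  have h2b : (1 + 2 * θ + η) * (24 * m) / (η / 2) ≤ T := (le_max_right _ _).trans h2
  refine H Sg _ _ _ (HS N μ α ε Λ d) lam h0 h1 hd s (by linarith) ?_ hz
  have hT0 : 0 < T := lt_of_lt_of_le (by positivity) h2b
  -- lam * 12 m is small compared with lam * T
  have h4 : 2 * lam * (1 / 2 * T - 6 * m) ≤ 2 * lam * (gaD N μ (3 / 2 + s.im * I)).re :=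
    mul_le_mul_of_nonneg_left hge (by positivity)
  have h5 : 12 * m * lam ≤ lam * T * ((η / 4) / (1 + 2 * θ + η)) := by
    rw [div_le_iff₀ (by positivity)] at h2b
    rw [← mul_div_assoc, le_div_iff₀ (by positivity)]
    nlinarith
  have h6 : 0 < 1 + 2 * θ + η := by positivity
  have h7 : lam * T * (1 - (η / 4) / (1 + 2 * θ + η)) ≥
      (1 + 2 * θ + η) * (1 - (η / 4) / (1 + 2 * θ + η)) := by
    apply mul_le_mul_of_nonneg_right h3
    rw [sub_nonneg, div_le_one h6]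
    linarith
  have h8 : (1 + 2 * θ + η) * (1 - (η / 4) / (1 + 2 * θ + η)) = 1 + 2 * θ + 3 / 4 * η := by
    field_simp
    ring
  have h9 : 2 * lam * (1 / 2 * T - 6 * m) = lam * T - 12 * m * lam := by ring
  have h10 : lam * T * (1 - (η / 4) / (1 + 2 * θ + η)) =
      lam * T - lam * T * ((η / 4) / (1 + 2 * θ + η)) := by ring
  linarith

end Pool.Agent.H466.HF
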