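import Pool.Agent.H466.HF.Phi1
import Pool.Graph.R_seed8.W388.TW.Parts

/-!
# The kernel of a newform of weight 2
-/

set_option autoImplicit false

open Complex MeasureTheory Filter Topology Set MatrixGroups CongruenceSubgroup
open UpperHalfPlane hiding I
open scoped ComplexConjugate

namespace Pool.Agent.H466.HF

/-- Mellin transform as an integral over the line -/
lemma mellin_eq_exp (F : ℝ → ℂ) (s : ℂ) :
    mellin F s = ∫ u : ℝ, F (Real.exp u) * cexp (s * u) := by
  have h1 : ∀ x ∈ (univ : Set ℝ), HasDerivWithinAt Real.exp (Real.exp x) univ x :=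
    fun x _ => (Real.hasDerivAt_exp x).hasDerivWithinAt
  have h2 : (Real.exp '' univ) = Ioi 0 := by rw [Set.image_univ, Real.range_exp]
  have h3 : (univ : Set ℝ).InjOn Real.exp := Real.exp_injective.injOn
  rw [mellin, ← h2, integral_image_eq_integral_abs_deriv_smul MeasurableSet.univ h1 h3,
    Measure.restrict_univ]
  refine integral_congr_ae (Eventually.of_forall fun u => ?_)
  simp only
  rw [abs_of_pos (Real.exp_pos u), Complex.real_smul, smul_eq_mul, ofReal_exp,
    cpow_def_of_ne_zero (Complex.exp_ne_zero _), ← ofReal_exp, ← Complex.ofReal_log (Real.exp_pos u).le,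
    Real.log_exp, ofReal_exp, ← mul_assoc, ← Complex.exp_add, mul_comm (F _)]
  congr 2
  ring

section

variable {N : ℕ} [NeZero N] (f : CuspForm (Gamma0 N : Subgroup (GL (Fin 2) ℝ)) 2)

/-- `f(i e^u / √N)` -/
noncomputable def PhE (u : ℝ) : ℂ := f (ofComplex (((Real.exp u / Real.sqrt N : ℝ) : ℂ) * I))

omit [NeZero N] in
lemma sqN_pos (hN : 0 < N) : 0 < Real.sqrt N := Real.sqrt_pos.mpr (by exact_mod_cast hN)

lemma sqN_pos' : 0 < Real.sqrt N := sqN_pos (Nat.pos_of_ne_zero (NeZero.ne N))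

lemma PhE_eq (u : ℝ) : PhE f u = f (W388.XPars.pt 0 (Real.exp u / Real.sqrt N)
    (div_pos (Real.exp_pos u) (sqN_pos' (N := N)))) := by
  unfold PhE W388.XPars.pt
  congr 1
  have h : 0 < (((Real.exp u / Real.sqrt N : ℝ) : ℂ) * I).im := by
    have := div_pos (Real.exp_pos u) (sqN_pos' (N := N))
    rw [Complex.im_ofReal_mul, Complex.I_im, mul_one]
    exact this
  rw [ofComplex_apply_of_im_pos h]
  ext
  simp

lemma qpow (y : ℝ) (m : ℕ) : Function.Periodic.qParam 1 (((0 : ℝ) : ℂ) + y * I) ^ m =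
    ((Real.exp (-(2 * Real.pi * m * y)) : ℝ) : ℂ) := by
  unfold Function.Periodic.qParam
  rw [← Complex.exp_nat_mul, ofReal_exp]
  congr 1
  push_cast
  have : (I : ℂ) ^ 2 = -1 := I_sq
  linear_combination (2 * Real.pi * m * y : ℂ) * this

lemma PhE_hasSum (u : ℝ) : HasSum (fun m : ℕ => (qExpansion 1 f).coeff m *
    ((Real.exp (-(2 * Real.pi * m * (Real.exp u / Real.sqrt N))) : ℝ) : ℂ)) (PhE f u) := by
  rw [PhE_eq]
  have h := W388.XPars.hasSum_f f 0 (Real.exp u / Real.sqrt N)
    (div_pos (Real.exp_pos u) (sqN_pos' (N := N)))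
  simp only [qpow] at h
  exact h

lemma PhE_cont : Continuous (PhE f) := by
  have h1 : Continuous (f : ℍ → ℂ) := (CuspFormClass.holo f).continuous
  have h2 : (PhE f) = fun u => f (⟨((Real.exp u / Real.sqrt N : ℝ) : ℂ) * I, by
      have := div_pos (Real.exp_pos u) (sqN_pos' (N := N))
      rw [Complex.im_ofReal_mul, Complex.I_im, mul_one]
      exact this⟩ : ℍ) := by
    funext u
    unfold PhE
    congr 1
    rw [ofComplex_apply_of_im_pos]
  rw [h2]
  refine h1.comp ?_
  apply Continuous.upperHalfPlaneMk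
  fun_prop

/-- the sum of the absolute values at height `1/√N` -/
noncomputable def SS : ℝ := ∑' m : ℕ, ‖(qExpansion 1 f).coeff m‖ *
  Real.exp (-(2 * Real.pi * m * (1 / Real.sqrt N)))

lemma SS_summable : Summable fun m : ℕ => ‖(qExpansion 1 f).coeff m‖ *
    Real.exp (-(2 * Real.pi * m * (1 / Real.sqrt N))) :=
  W388.XPars.summable_norm f (1 / Real.sqrt N) (div_pos one_pos (sqN_pos' (N := N)))

lemma PhE_le {u : ℝ} (hu : 0 ≤ u) : ‖PhE f u‖ ≤
    Real.exp (-(2 * Real.pi / Real.sqrt N * (Real.exp u - 1))) * SS f := by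
  have h := PhE_hasSum f u
  rw [← h.tsum_eq]
  have hs := SS_summable f
  have h1 : 1 ≤ Real.exp u := Real.one_le_exp hu
  have hN := sqN_pos' (N := N)
  unfold SS
  rw [← tsum_mul_left]
  have hle : ∀ m : ℕ, ‖(qExpansion 1 f).coeff m *
      ((Real.exp (-(2 * Real.pi * m * (Real.exp u / Real.sqrt N))) : ℝ) : ℂ)‖ ≤
      Real.exp (-(2 * Real.pi / Real.sqrt N * (Real.exp u - 1))) * (‖(qExpansion 1 f).coeff m‖ *
      Real.exp (-(2 * Real.pi * m * (1 / Real.sqrt N)))) := by
    intro m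
    rw [norm_mul, Complex.norm_real, Real.norm_eq_abs, abs_of_pos (Real.exp_pos _)]
    rcases Nat.eq_zero_or_pos m with h0 | h0
    · rw [h0, W388.coeff_zero]
      simp
    · rw [mul_left_comm, ← Real.exp_add]
      refine mul_le_mul_of_nonneg_left (Real.exp_le_exp.mpr ?_) (norm_nonneg _)
      have hm : (1 : ℝ) ≤ m := by exact_mod_cast h0
      have e : -(2 * Real.pi / Real.sqrt N * (Real.exp u - 1)) + -(2 * Real.pi * m * (1 / Real.sqrt N)) -
          -(2 * Real.pi * m * (Real.exp u / Real.sqrt N)) =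
          2 * Real.pi / Real.sqrt N * ((m - 1) * (Real.exp u - 1)) := by
        field_simp
        ring
      have h2 : 0 ≤ 2 * Real.pi / Real.sqrt N * ((m - 1) * (Real.exp u - 1)) := by
        have := Real.pi_pos
        have h3 : (0 : ℝ) ≤ m - 1 := by linarith
        have h4 : 0 ≤ Real.exp u - 1 := by linarith
        positivity
      linarith
  have hs2 : Summable fun m : ℕ => Real.exp (-(2 * Real.pi / Real.sqrt N * (Real.exp u - 1))) *
      (‖(qExpansion 1 f).coeff m‖ * Real.exp (-(2 * Real.pi * m * (1 / Real.sqrt N)))) :=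
    hs.mul_left _
  have hs1 := Summable.of_nonneg_of_le (fun m => norm_nonneg _) hle hs2
  exact (norm_tsum_le_tsum_norm hs1).trans (hs1.tsum_le_tsum hle hs2)

variable {w : ℝ}

lemma PhE_real (hf : W388.IsNewf N 2 f w) (u : ℝ) : conj (PhE f u) = PhE f u := by
  have h := PhE_hasSum f u
  rw [← h.tsum_eq, Complex.conj_tsum]
  refine tsum_congr fun m => ?_
  rw [map_mul, conj_ofReal, W388.coeff_real hf m, conj_ofReal]

lemma PhE_neg (hf : W388.IsNewf N 2 f w) (u : ℝ) :
    PhE f (-u) = (w : ℂ) * ((Real.exp (2 * u) : ℝ) : ℂ) * PhE f u := by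
  have hN := sqN_pos' (N := N)
  have hNN : Real.sqrt N * Real.sqrt N = N := Real.mul_self_sqrt (Nat.cast_nonneg N)
  set τ : ℍ := W388.XPars.pt 0 (Real.exp u / Real.sqrt N)
    (div_pos (Real.exp_pos u) hN) with hτ
  set τ' : ℍ := W388.XPars.pt 0 (Real.exp (-u) / Real.sqrt N)
    (div_pos (Real.exp_pos (-u)) hN) with hτ'
  have e1 : (τ : ℂ) = ((Real.exp u / Real.sqrt N : ℝ) : ℂ) * I := by
    rw [hτ]
    unfold W388.XPars.pt
    simp
  have e2 : (τ' : ℂ) = ((Real.exp (-u) / Real.sqrt N : ℝ) : ℂ) * I := by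
    rw [hτ']
    unfold W388.XPars.pt
    simp
  have hprod : (τ' : ℂ) * ((N : ℂ) * (τ : ℂ)) = -1 := by
    rw [e1, e2]
    have h1 : (Real.exp (-u) / Real.sqrt N) * (N * (Real.exp u / Real.sqrt N)) = 1 := by
      have : Real.exp (-u) * Real.exp u = 1 := by rw [← Real.exp_add]; simp
      have hN0 : (N : ℝ) ≠ 0 := by exact_mod_cast NeZero.ne N
      calc (Real.exp (-u) / Real.sqrt N) * (N * (Real.exp u / Real.sqrt N))
          = (Real.exp (-u) * Real.exp u) * (N / (Real.sqrt N * Real.sqrt N)) := by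
            field_simp
        _ = 1 := by rw [this, hNN, div_self hN0, one_mul]
    have h2 : ((Real.exp (-u) / Real.sqrt N : ℝ) : ℂ) * ((N : ℂ) * ((Real.exp u / Real.sqrt N : ℝ) : ℂ)) = 1 := by
      exact_mod_cast congrArg (fun x : ℝ => (x : ℂ)) h1
    calc ((Real.exp (-u) / Real.sqrt N : ℝ) : ℂ) * I * ((N : ℂ) * (((Real.exp u / Real.sqrt N : ℝ) : ℂ) * I))
        = (((Real.exp (-u) / Real.sqrt N : ℝ) : ℂ) * ((N : ℂ) * ((Real.exp u / Real.sqrt N : ℝ) : ℂ))) * (I * I) := by ring
      _ = -1 := by rw [h2, I_mul_I, one_mul]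
  have h := hf.fricke τ τ' hprod
  rw [PhE_eq, PhE_eq]
  rw [← hτ, ← hτ', h]
  congr 2
  rw [e1]
  have h3 : ((Real.sqrt N : ℝ) : ℂ) * (((Real.exp u / Real.sqrt N : ℝ) : ℂ) * I) / I =
      ((Real.exp u : ℝ) : ℂ) := by
    rw [← mul_assoc, mul_div_assoc, div_self I_ne_zero, mul_one, ← ofReal_mul]
    congr 1
    field_simp
  rw [h3]
  have h4 : (((Real.exp u : ℝ) : ℂ)) ^ (2 : ℤ) = (((Real.exp u) ^ 2 : ℝ) : ℂ) := by
    rw [zpow_ofNat]
    push_cast
    rfl
  rw [h4, ← Real.exp_nat_mul]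
  norm_num

/-- the symmetrised kernel -/
noncomputable def gE (u : ℝ) : ℂ := ((Real.exp u : ℝ) : ℂ) * PhE f u

lemma gE_neg (hf : W388.IsNewf N 2 f w) (u : ℝ) : gE f (-u) = (w : ℂ) * gE f u := by
  unfold gE
  rw [PhE_neg f hf]
  have : ((Real.exp (-u) : ℝ) : ℂ) * ((Real.exp (2 * u) : ℝ) : ℂ) = ((Real.exp u : ℝ) : ℂ) := by
    rw [← ofReal_mul, ← Real.exp_add]
    congr 2
    ring
  calc ((Real.exp (-u) : ℝ) : ℂ) * ((w : ℂ) * ((Real.exp (2 * u) : ℝ) : ℂ) * PhE f u)
      = (w : ℂ) * ((((Real.exp (-u) : ℝ) : ℂ) * ((Real.exp (2 * u) : ℝ) : ℂ)) * PhE f u) := by ring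
    _ = _ := by rw [this]

lemma gE_real (hf : W388.IsNewf N 2 f w) (u : ℝ) : conj (gE f u) = gE f u := by
  unfold gE
  rw [map_mul, conj_ofReal, PhE_real f hf]

lemma gE_kern (hf : W388.IsNewf N 2 f w) : ∃ A c : ℝ, Kern (gE f) A c := by
  have hN := sqN_pos' (N := N)
  have hpi := Real.pi_pos
  have hS : 0 ≤ SS f := tsum_nonneg fun m => by positivity
  set r : ℝ := Real.pi / Real.sqrt N with hr
  have hr0 : 0 < r := by positivity
  set A : ℝ := Real.exp (2 * r) * SS f * (1 / r) with hA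
  have hpos : ∀ u : ℝ, 0 ≤ u → ‖gE f u‖ ≤ A * Real.exp (-(r * Real.exp |u|)) := by
    intro u hu
    rw [abs_of_nonneg hu]
    unfold gE
    rw [norm_mul, Complex.norm_real, Real.norm_eq_abs, abs_of_pos (Real.exp_pos _)]
    have h1 := PhE_le f hu
    have h2 : Real.exp u ≤ (1 / r) * Real.exp (r * Real.exp u) := by
      have := Real.add_one_le_exp (r * Real.exp u)
      rw [one_div, inv_mul_eq_div, le_div_iff₀ hr0]
      linarith
    calc Real.exp u * ‖PhE f u‖
        ≤ ((1 / r) * Real.exp (r * Real.exp u)) *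
          (Real.exp (-(2 * Real.pi / Real.sqrt N * (Real.exp u - 1))) * SS f) :=
          mul_le_mul h2 h1 (norm_nonneg _) (by positivity)
      _ = A * Real.exp (-(r * Real.exp u)) := by
          have e : Real.exp (r * Real.exp u) * Real.exp (-(2 * Real.pi / Real.sqrt N * (Real.exp u - 1))) =
              Real.exp (2 * r) * Real.exp (-(r * Real.exp u)) := by
            rw [← Real.exp_add, ← Real.exp_add]
            congr 1
            rw [hr]
            ring
          calc ((1 / r) * Real.exp (r * Real.exp u)) *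
                (Real.exp (-(2 * Real.pi / Real.sqrt N * (Real.exp u - 1))) * SS f)
              = (1 / r) * SS f * (Real.exp (r * Real.exp u) *
                Real.exp (-(2 * Real.pi / Real.sqrt N * (Real.exp u - 1)))) := by ring
            _ = _ := by rw [e, hA]; ring
  refine ⟨A, r, ⟨?_, hr0, by positivity, fun u => ?_⟩⟩
  · unfold gE
    have := PhE_cont f
    fun_prop
  · rcases le_total 0 u with h | h
    · exact hpos u h
    · have h1 := hpos (-u) (by linarith)
      rw [abs_neg] at h1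
      have h2 := gE_neg f hf (-u)
      rw [neg_neg] at h2
      rw [h2, norm_mul, Complex.norm_real, Real.norm_eq_abs]
      have h3 : |w| = 1 := by
        rcases hf.sign with h | h <;> rw [h] <;> simp
      rw [h3, one_mul]
      exact h1

end

end Pool.Agent.H466.HF
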