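import Pool.Agent.H466.HF.EC1
import Pool.Agent.H466.HF.Datum1

/-!
# The `L`-function of a newform of weight 2 with Ramanujan bounds, as analytic data
-/

set_option autoImplicit false

open Complex MeasureTheory Filter Topology Set MatrixGroups CongruenceSubgroup
open UpperHalfPlane hiding I
open scoped ComplexConjugate

namespace Pool.Agent.H466.HF

lemma cpow_exp {x : ℝ} (hx : 0 < x) (z : ℂ) : ((x : ℝ) : ℂ) ^ z = cexp (z * (Real.log x : ℝ)) := by
  have hx' : (x : ℂ) ≠ 0 := by exact_mod_cast hx.ne'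
  rw [cpow_def_of_ne_zero hx', ← Complex.ofReal_log hx.le, mul_comm]

section

variable {N : ℕ} [NeZero N] {f : CuspForm (Gamma0 N : Subgroup (GL (Fin 2) ℝ)) 2} {w : ℝ}

lemma newf_facts (hf : W388.IsNewf N 2 f w) {s : ℂ} (hs : 1 < s.re) :
    Summable (fun n : ℕ => ‖(W388.lamf f n : ℂ) * (n : ℂ) ^ (-s)‖) ∧
    HasProd (fun p : Nat.Primes =>
        (1 - (W388.lamf f p : ℂ) * ((p : ℕ) : ℂ) ^ (-s) +
          (if (p : ℕ) ∣ N then 0 else ((p : ℕ) : ℂ) ^ (-2 * s)))⁻¹)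
      (∑' n : ℕ, (W388.lamf f n : ℂ) * (n : ℂ) ^ (-s)) := by
  have hN : 0 < N := Nat.pos_of_ne_zero (NeZero.ne N)
  have hH := W388.heckeSeq_lamf hf
  have hR := W388.p_rs N 2 (by norm_num) f w hf
  obtain ⟨A, hA, d1, d2, d3⟩ := W388.p_dir N hN (W388.lamf f) hH hR
  have h1 : ∀ x : ZMod 1, (1 : DirichletCharacter ℂ 1) x = 1 := fun x => by
    rw [Subsingleton.elim x 1]
    simp
  obtain ⟨e1, e2, e3, e4, e5, e6⟩ := d3 1 (1 : DirichletCharacter ℂ 1)
    (fun s => ∑' n : ℕ, (1 : DirichletCharacter ℂ 1) (n : ZMod 1) * (W388.lamf f n : ℂ) * (n : ℂ) ^ (-s))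
    (fun _ _ => rfl)
  have h2 := e1 s hs
  have h3 := e6 s hs
  simp only [h1, one_mul, one_pow] at h2 h3
  exact ⟨h2, h3⟩

lemma LL_gE_eq_mellin (z : ℂ) :
    LL (gE f) 0 z = mellin (fun t => PhE f (Real.log t)) (z + 1) := by
  rw [LL_zero, mellin_eq_exp]
  refine integral_congr_ae (Eventually.of_forall fun u => ?_)
  simp only
  rw [Real.log_exp]
  unfold gE
  rw [add_mul, Complex.exp_add, one_mul, ofReal_exp]
  ring

/-- the Mellin transform as a Dirichlet series -/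
lemma LL_series (hf : W388.IsNewf N 2 f w) {s : ℂ} (hs : 1 < s.re) :
    LL (gE f) 0 (s - 1 / 2) = Gamma (s + 1 / 2) *
      ((2 * Real.pi / Real.sqrt N : ℝ) : ℂ) ^ (-(s + 1 / 2)) *
      ∑' n : ℕ, (W388.lamf f n : ℂ) * (n : ℂ) ^ (-s) := by
  have hN := sqN_pos' (N := N)
  have hpi := Real.pi_pos
  set κ : ℝ := 2 * Real.pi / Real.sqrt N with hκ
  have hκ0 : 0 < κ := by positivity
  have hκc : (κ : ℂ) ≠ 0 := by exact_mod_cast hκ0.ne'
  set s' : ℂ := s + 1 / 2 with hs'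
  have hs'r : s'.re = s.re + 1 / 2 := by rw [hs']; simp
  have e0 : s - 1 / 2 + 1 = s' := by rw [hs']; ring
  rw [LL_gE_eq_mellin, e0]
  obtain ⟨hsum, -⟩ := newf_facts hf hs
  have hlam : ∀ n : ℕ, n ≠ 0 → (qExpansion 1 f).coeff n =
      (W388.lamf f n : ℂ) * (n : ℂ) ^ (1 / 2 : ℂ) := by
    intro n hn
    have h1 := W388.lamf_eq hf n hn
    rw [h1]
    congr 2
    norm_num
  have hterm : ∀ n : ℕ, (qExpansion 1 f).coeff n / ((κ * n : ℝ) : ℂ) ^ s' =
      (κ : ℂ) ^ (-s') * ((W388.lamf f n : ℂ) * (n : ℂ) ^ (-s)) := by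
    intro n
    rcases eq_or_ne n 0 with h0 | h0
    · rw [h0, W388.coeff_zero, (W388.heckeSeq_lamf hf).zero]
      simp
    · have hn0 : (0 : ℝ) < n := by exact_mod_cast Nat.pos_of_ne_zero h0
      have hnc : (n : ℂ) ≠ 0 := by exact_mod_cast h0
      rw [hlam n h0, ofReal_mul, Complex.mul_cpow_ofReal_nonneg hκ0.le hn0.le, Complex.ofReal_natCast,
        Complex.cpow_neg]
      have h2 : (n : ℂ) ^ s' = (n : ℂ) ^ s * (n : ℂ) ^ (1 / 2 : ℂ) := by
        rw [hs', Complex.cpow_add _ _ hnc]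
      rw [h2, Complex.cpow_neg]
      have h3 : (n : ℂ) ^ (1 / 2 : ℂ) ≠ 0 := by
        rw [Ne, Complex.cpow_eq_zero_iff]; exact fun h => hnc h.1
      have h4 : (n : ℂ) ^ s ≠ 0 := by
        rw [Ne, Complex.cpow_eq_zero_iff]; exact fun h => hnc h.1
      have h5 : (κ : ℂ) ^ s' ≠ 0 := by
        rw [Ne, Complex.cpow_eq_zero_iff]; exact fun h => hκc h.1
      field_simp
  have h := hasSum_mellin (a := fun n : ℕ => (qExpansion 1 f).coeff n)
    (p := fun n : ℕ => κ * n) (F := fun t => PhE f (Real.log t)) (s := s') ?_ ?_ ?_ ?_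
  · simp only [mul_div_assoc, hterm, ← mul_assoc] at h
    simp only [mul_assoc _ (W388.lamf f _ : ℂ)] at h
    rw [← h.tsum_eq, tsum_mul_left]
  · intro n
    rcases eq_or_ne n 0 with h0 | h0
    · left
      rw [h0, W388.coeff_zero]
    · right
      have hn0 : (0 : ℝ) < n := by exact_mod_cast Nat.pos_of_ne_zero h0
      positivity
  · rw [hs'r]; linarith
  · intro t ht
    have ht0 : (0 : ℝ) < t := ht
    have h1 := PhE_hasSum f (Real.log t)
    rw [Real.exp_log ht0] at h1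
    convert h1 using 1
    funext m
    congr 3
    rw [hκ]
    ring
  · have h1 := (hsum.mul_left (‖(κ : ℂ) ^ (-s')‖))
    refine h1.congr fun n => ?_
    rw [← norm_mul, ← hterm n, norm_div]
    rcases eq_or_ne n 0 with h0 | h0
    · rw [h0, W388.coeff_zero]
      simp
    · have hn0 : (0 : ℝ) < n := by exact_mod_cast Nat.pos_of_ne_zero h0
      rw [Complex.norm_cpow_eq_rpow_re_of_pos (by positivity)]

end

end Pool.Agent.H466.HF
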