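import Pool.Agent.H466.HF.EC2

/-!
# Newforms of weight 2: the data `DatumT`
-/

set_option autoImplicit false

open Complex MeasureTheory Filter Topology Set MatrixGroups CongruenceSubgroup
open UpperHalfPlane hiding I
open scoped ComplexConjugate

namespace Pool.Agent.H466.HF

open H353.E H353.F

section

variable {N : ℕ} [NeZero N] {f : CuspForm (Gamma0 N : Subgroup (GL (Fin 2) ℝ)) 2} {w : ℝ}

/-- Satake parameters -/
noncomputable def al (f : CuspForm (Gamma0 N : Subgroup (GL (Fin 2) ℝ)) 2) (j : Fin 2) (p : ℕ) : ℂ :=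
  if p ∣ N then (if j = 0 then (W388.lamf f p : ℂ) else 0) else
    if j = 0 then ((W388.lamf f p / 2 : ℝ) : ℂ) + ((Real.sqrt (4 - W388.lamf f p ^ 2) / 2 : ℝ) : ℂ) * I
    else ((W388.lamf f p / 2 : ℝ) : ℂ) - ((Real.sqrt (4 - W388.lamf f p ^ 2) / 2 : ℝ) : ℂ) * I

/-- the shifts -/
noncomputable def mu2 (j : Fin 2) : ℂ := if j = 0 then -1 / 2 else -3 / 2

/-- the completed function in the normalisation of `DatumT` -/
noncomputable def LamD (f : CuspForm (Gamma0 N : Subgroup (GL (Fin 2) ℝ)) 2) (s : ℂ) : ℂ :=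
  2 * ((N : ℝ) : ℂ) ^ (-1 / 4 - s / 2 : ℂ) * LL (gE f) 0 (s - 1 / 2)

omit [NeZero N] in
lemma al_norm (hgood : ∀ p : ℕ, p.Prime → ¬ p ∣ N → |W388.lamf f p| ≤ 2)
    (hbad : ∀ p : ℕ, p.Prime → p ∣ N → |W388.lamf f p| ≤ 1) (j : Fin 2) {p : ℕ} (hp : p.Prime) :
    ‖al f j p‖ ≤ 1 := by
  have key : ∀ x : ℝ, |x| ≤ 2 → ‖((x / 2 : ℝ) : ℂ) + ((Real.sqrt (4 - x ^ 2) / 2 : ℝ) : ℂ) * I‖ ≤ 1 := by
    intro x hx
    have h1 : 0 ≤ 4 - x ^ 2 := by
      have := abs_le.mp hx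
      nlinarith
    have h2 : ‖((x / 2 : ℝ) : ℂ) + ((Real.sqrt (4 - x ^ 2) / 2 : ℝ) : ℂ) * I‖ ^ 2 = 1 := by
      rw [Complex.sq_norm, Complex.normSq_add_mul_I]
      have := Real.sq_sqrt h1
      nlinarith
    nlinarith [norm_nonneg (((x / 2 : ℝ) : ℂ) + ((Real.sqrt (4 - x ^ 2) / 2 : ℝ) : ℂ) * I)]
  have key2 : ∀ x : ℝ, |x| ≤ 2 → ‖((x / 2 : ℝ) : ℂ) - ((Real.sqrt (4 - x ^ 2) / 2 : ℝ) : ℂ) * I‖ ≤ 1 := by
    intro x hx
    have h1 : 0 ≤ 4 - x ^ 2 := by
      have := abs_le.mp hx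
      nlinarith
    have h2 : ‖((x / 2 : ℝ) : ℂ) - ((Real.sqrt (4 - x ^ 2) / 2 : ℝ) : ℂ) * I‖ ^ 2 = 1 := by
      have e : ((x / 2 : ℝ) : ℂ) - ((Real.sqrt (4 - x ^ 2) / 2 : ℝ) : ℂ) * I =
        ((x / 2 : ℝ) : ℂ) + ((-(Real.sqrt (4 - x ^ 2) / 2) : ℝ) : ℂ) * I := by push_cast; ring
      rw [e, Complex.sq_norm, Complex.normSq_add_mul_I]
      have := Real.sq_sqrt h1
      nlinarith
    nlinarith [norm_nonneg (((x / 2 : ℝ) : ℂ) - ((Real.sqrt (4 - x ^ 2) / 2 : ℝ) : ℂ) * I)]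
  unfold al
  split_ifs with h1 h2 h3
  · rw [Complex.norm_real]
    exact hbad p hp h1
  · rw [norm_zero]; exact zero_le_one
  · exact key _ (hgood p hp h1)
  · exact key2 _ (hgood p hp h1)

omit [NeZero N] in
lemma al_factor (hgood : ∀ p : ℕ, p.Prime → ¬ p ∣ N → |W388.lamf f p| ≤ 2) {p : ℕ} (hp : p.Prime)
    (s : ℂ) : ∏ j, (1 - al f j p * (p : ℂ) ^ (-s))⁻¹ =
      (1 - (W388.lamf f p : ℂ) * (p : ℂ) ^ (-s) + (if p ∣ N then 0 else (p : ℂ) ^ (-2 * s)))⁻¹ := by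
  rw [Fin.prod_univ_two, ← mul_inv]
  congr 1
  have hpc : (p : ℂ) ≠ 0 := by exact_mod_cast hp.ne_zero
  have hx2 : (p : ℂ) ^ (-2 * s) = (p : ℂ) ^ (-s) * (p : ℂ) ^ (-s) := by
    rw [← Complex.cpow_add _ _ hpc]
    congr 1
    ring
  unfold al
  split_ifs with h1 h2 h3 h4 h5 <;> simp at *
  rw [hx2]
  have h6 : 0 ≤ 4 - W388.lamf f p ^ 2 := by
    have := abs_le.mp (hgood p hp h1)
    nlinarith
  have h7 : ((Real.sqrt (4 - W388.lamf f p ^ 2) : ℝ) : ℂ) ^ 2 = 4 - (W388.lamf f p : ℂ) ^ 2 := by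
    have := Real.sq_sqrt h6
    have h8 := congrArg (fun x : ℝ => (x : ℂ)) this
    push_cast at h8
    exact h8
  have h9 : (I : ℂ) ^ 2 = -1 := I_sq
  generalize (p : ℂ) ^ (-s) = x at *
  generalize ((Real.sqrt (4 - W388.lamf f p ^ 2) : ℝ) : ℂ) = r at *
  generalize (W388.lamf f p : ℂ) = l at *
  linear_combination (-(1 / 4) * x ^ 2 * r ^ 2) * h9 + (1 / 4) * x ^ 2 * h7

lemma log_N_nonneg : 0 ≤ Real.log (N : ℝ) :=
  Real.log_nonneg (by exact_mod_cast Nat.one_le_iff_ne_zero.mpr (NeZero.ne N))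

/-- the functional equation -/
lemma LL_fe (hf : W388.IsNewf N 2 f w) (lam : ℝ) (z : ℂ) :
    LL (gE f) lam z = (w : ℂ) * conj (LL (gE f) lam (-conj z)) := by
  unfold LL
  rw [← integral_conj, ← integral_const_mul]
  have h1 := integral_neg_eq_self (μ := (volume : Measure ℝ))
    (fun u : ℝ => gE f u * cexp ((lam : ℂ) * (u : ℂ) ^ 2 + z * u))
  rw [← h1]
  refine integral_congr_ae (Eventually.of_forall fun u => ?_)
  simp only
  rw [gE_neg f hf, map_mul, gE_real f hf, ← Complex.exp_conj]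
  simp only [map_add, map_mul, map_neg, Complex.conj_conj, Complex.conj_ofReal, map_pow]
  push_cast
  rw [neg_sq, mul_assoc]
  congr 4
  ring

theorem datum_newf (hf : W388.IsNewf N 2 f w)
    (hgood : ∀ p : ℕ, p.Prime → ¬ p ∣ N → |W388.lamf f p| ≤ 2)
    (hbad : ∀ p : ℕ, p.Prime → p ∣ N → |W388.lamf f p| ≤ 1) :
    DatumT 0 (N : ℝ) mu2 (al f) (w : ℂ) (LamD f) := by
  have hN1 : (1 : ℝ) ≤ N := by exact_mod_cast Nat.one_le_iff_ne_zero.mpr (NeZero.ne N)
  have hN0 : (0 : ℝ) < N := by linarith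
  have hNc : ((N : ℝ) : ℂ) ≠ 0 := by exact_mod_cast hN0.ne'
  obtain ⟨A, c, k⟩ := gE_kern f hf
  have hw1 : |w| = 1 := by
    rcases hf.sign with h | h <;> rw [h] <;> simp
  refine
    { one_le := hN1
      re_le := fun j => ?_
      norm_le := fun j p hp => ?_
      norm_eq := ?_
      entire := ?_
      euler := fun s hs => ?_
      fe := fun s => ?_
      bdd := fun a b => ?_ }
  · unfold mu2
    split_ifs
    · simp; norm_num
    · simp; norm_num
  · rw [Real.rpow_zero]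
    exact al_norm hgood hbad j hp
  · rw [Complex.norm_real]
    exact hw1
  · unfold LamD
    have h1 := k.differentiable 0
    have h2 : Differentiable ℂ fun s : ℂ => ((N : ℝ) : ℂ) ^ (-1 / 4 - s / 2 : ℂ) := fun s => by
      refine DifferentiableAt.const_cpow ?_ (Or.inl hNc)
      fun_prop
    exact (h2.const_mul 2).mul (h1.comp (by fun_prop))
  · rw [add_zero] at hs
    obtain ⟨-, hprod⟩ := newf_facts hf hs
    have hser := LL_series hf hs
    have e1 : ∏' p : Nat.Primes, ∏ j, (1 - al f j p * ((p : ℕ) : ℂ) ^ (-s))⁻¹ =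
        ∑' n : ℕ, (W388.lamf f n : ℂ) * (n : ℂ) ^ (-s) := by
      rw [← hprod.tprod_eq]
      exact tprod_congr fun p => al_factor hgood p.2 s
    rw [e1]
    unfold LamD
    rw [hser, Fin.prod_univ_two]
    have e2 : s - mu2 0 = s + 1 / 2 := by simp [mu2]; ring
    have e3 : s - mu2 1 = s + 1 / 2 + 1 := by simp [mu2]; ring
    rw [e2, e3, Gammaℝ_mul_Gammaℝ_add_one, Gammaℂ_def]
    have hR := sqN_pos' (N := N)
    have hpi := Real.pi_pos
    have e4 : (2 * (Real.pi : ℂ)) = ((2 * Real.pi : ℝ) : ℂ) := by push_cast; ring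
    rw [e4, cpow_exp (by positivity : (0:ℝ) < 2 * Real.pi), cpow_exp hN0,
      cpow_exp (by positivity : 0 < 2 * Real.pi / Real.sqrt N)]
    have e5 : Real.log (2 * Real.pi / Real.sqrt N) = Real.log (2 * Real.pi) - Real.log N / 2 := by
      rw [Real.log_div (by positivity) hR.ne', Real.log_sqrt hN0.le]
    rw [e5]
    have e6 : cexp ((-1 / 4 - s / 2) * ((Real.log N : ℝ) : ℂ)) *
        cexp (-(s + 1 / 2) * ((Real.log (2 * Real.pi) - Real.log N / 2 : ℝ) : ℂ)) =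
        cexp (-(s + 1 / 2) * ((Real.log (2 * Real.pi) : ℝ) : ℂ)) := by
      rw [← Complex.exp_add]
      congr 1
      push_cast
      ring
    calc 2 * cexp ((-1 / 4 - s / 2) * ((Real.log N : ℝ) : ℂ)) * (Gamma (s + 1 / 2) *
          cexp (-(s + 1 / 2) * ((Real.log (2 * Real.pi) - Real.log N / 2 : ℝ) : ℂ)) *
          ∑' n : ℕ, (W388.lamf f n : ℂ) * (n : ℂ) ^ (-s))
        = 2 * (cexp ((-1 / 4 - s / 2) * ((Real.log N : ℝ) : ℂ)) *
          cexp (-(s + 1 / 2) * ((Real.log (2 * Real.pi) - Real.log N / 2 : ℝ) : ℂ))) *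
          Gamma (s + 1 / 2) * ∑' n : ℕ, (W388.lamf f n : ℂ) * (n : ℂ) ^ (-s) := by ring
      _ = _ := by rw [e6]
  · unfold LamD
    rw [LL_fe hf]
    simp only [map_mul, map_ofNat]
    rw [cpow_exp hN0, cpow_exp hN0, cpow_exp hN0, ← Complex.exp_conj]
    have e1 : (1 - conj s) - 1 / 2 = -conj (s - 1 / 2) := by
      rw [map_sub, map_div₀, map_one, map_ofNat]
      ring
    rw [e1]
    have e2 : cexp ((1 / 2 - s) * ((Real.log N : ℝ) : ℂ)) *
        cexp (conj ((-1 / 4 - (1 - conj s) / 2) * ((Real.log N : ℝ) : ℂ))) =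
        cexp ((-1 / 4 - s / 2) * ((Real.log N : ℝ) : ℂ)) := by
      rw [← Complex.exp_add]
      congr 1
      simp only [map_mul, map_sub, map_div₀, map_neg, map_one, map_ofNat, Complex.conj_conj,
        Complex.conj_ofReal]
      ring
    rw [← e2]
    ring
  · obtain ⟨K, hK, hs⟩ := k.strip 0 (|a| + |b| + 1 / 2)
    refine ⟨Real.log (2 * K + 1) + (|a| + |b| + 1) * Real.log N, fun s h1 h2 => ?_⟩
    have hlog := log_N_nonneg (N := N)
    have hK1 : 0 ≤ Real.log (2 * K + 1) := Real.log_nonneg (by linarith)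
    unfold LamD
    rw [norm_mul, norm_mul, Complex.norm_ofNat, cpow_exp hN0, Complex.norm_exp, re_mul_ofReal]
    have hre : |(s - 1 / 2 : ℂ).re| ≤ |a| + |b| + 1 / 2 := by
      have : (s - 1 / 2 : ℂ).re = s.re - 1 / 2 := by simp
      rw [this, abs_le]
      have := neg_abs_le a
      have := le_abs_self b
      have := abs_nonneg a
      have := abs_nonneg b
      constructor <;> linarith
    have h3 := hs _ hre
    have h4 : (-1 / 4 - s / 2 : ℂ).re = -1 / 4 - s.re / 2 := by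
      have e1 : (s / 2 : ℂ).re = s.re / 2 := by
        rw [show (2 : ℂ) = ((2 : ℝ) : ℂ) by norm_num, Complex.div_ofReal_re]
      rw [sub_re, e1]
      norm_num
    have h5 : Real.exp ((-1 / 4 - s / 2 : ℂ).re * Real.log N) ≤
        Real.exp ((|a| + |b| + 1) * Real.log N) := by
      apply Real.exp_le_exp.mpr
      apply mul_le_mul_of_nonneg_right _ hlog
      rw [h4]
      have := neg_abs_le a
      have := abs_nonneg b
      have := abs_nonneg a
      linarith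
    have h6 : 0 ≤ |s.im| := abs_nonneg _
    calc 2 * Real.exp ((-1 / 4 - s / 2 : ℂ).re * Real.log N) * ‖LL (gE f) 0 (s - 1 / 2)‖
        ≤ 2 * Real.exp ((|a| + |b| + 1) * Real.log N) * K := by gcongr
      _ ≤ (2 * K + 1) * Real.exp ((|a| + |b| + 1) * Real.log N) := by
          have := Real.exp_pos ((|a| + |b| + 1) * Real.log N)
          nlinarith
      _ = Real.exp (Real.log (2 * K + 1) + (|a| + |b| + 1) * Real.log N) := by
          rw [Real.exp_add, Real.exp_log (by linarith)]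
      _ ≤ Real.exp ((Real.log (2 * K + 1) + (|a| + |b| + 1) * Real.log N) * (1 + |s.im|)) := by
          apply Real.exp_le_exp.mpr
          have : 0 ≤ Real.log (2 * K + 1) + (|a| + |b| + 1) * Real.log N := by positivity
          nlinarith

end

end Pool.Agent.H466.HF
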