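import Pool.Agent.H466.HF.EC3

/-!
# Newforms of weight 2: zeros after the heat flow
-/

set_option autoImplicit false

open Complex MeasureTheory Filter Topology Set MatrixGroups CongruenceSubgroup
open UpperHalfPlane hiding I
open scoped ComplexConjugate

namespace Pool.Agent.H466.HF

open H353.E H353.F

section

lemma prod_mu (t : ℝ) : (1 + |t|) ^ 2 ≤ ∏ j, (1 + ‖(t : ℂ) * I - mu2 j‖) := by
  rw [Fin.prod_univ_two, sq]
  have h : ∀ j, 1 + |t| ≤ 1 + ‖(t : ℂ) * I - mu2 j‖ := by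
    intro j
    have h1 := Complex.abs_im_le_norm ((t : ℂ) * I - mu2 j)
    have h2 : ((t : ℂ) * I - mu2 j).im = t := by
      unfold mu2
      split_ifs <;> simp
    rw [h2] at h1
    linarith
  have := abs_nonneg t
  exact mul_le_mul (h 0) (h 1) (by linarith) (by positivity)

theorem newf_heat {η K : ℝ} (hη : 0 < η) (hK : 1 ≤ K) : ∃ Q0 : ℝ,
    ∀ (N : ℕ) [NeZero N] (f : CuspForm (Gamma0 N : Subgroup (GL (Fin 2) ℝ)) 2) (w : ℝ),
    W388.IsNewf N 2 f w → (∀ p : ℕ, p.Prime → ¬ p ∣ N → |W388.lamf f p| ≤ 2) →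
    (∀ p : ℕ, p.Prime → p ∣ N → |W388.lamf f p| ≤ 1) →
    ∀ lam : ℝ, 0 < lam → lam ≤ K → ∀ z : ℂ, LL (gE f) lam z = 0 →
    Q0 ≤ Real.log (N * (1 + |z.im|) ^ 2) → 1 + η ≤ lam * Real.log (N * (1 + |z.im|) ^ 2) →
    z.re = 0 ∧ deriv (LL (gE f) lam) z ≠ 0 := by
  obtain ⟨Q0, H⟩ := datum_heat 2 (by norm_num) (θ := 0) (η := η) (K := K) le_rfl (by norm_num) hη hK
  refine ⟨Q0, fun N _ f w hf hgood hbad lam h0 h1 z hz h2 h3 => ?_⟩
  have hN1 : (1 : ℝ) ≤ N := by exact_mod_cast Nat.one_le_iff_ne_zero.mpr (NeZero.ne N)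
  have hN0 : (0 : ℝ) < N := by linarith
  have hNc : ((N : ℝ) : ℂ) ≠ 0 := by exact_mod_cast hN0.ne'
  obtain ⟨A, c, k⟩ := gE_kern f hf
  have d := datum_newf hf hgood hbad
  set κ : ℂ := 2 * cexp ((-1 / 4) * ((Real.log N : ℝ) : ℂ)) with hκ
  have hκ0 : κ ≠ 0 := mul_ne_zero two_ne_zero (Complex.exp_ne_zero _)
  have hX : (fun z : ℂ => ((N : ℝ) : ℂ) ^ (z / 2) * LamD f z) =
      fun z => κ * LL (gE f) 0 (z - 1 / 2) := by
    funext z
    unfold LamD
    rw [cpow_exp hN0, cpow_exp hN0, hκ]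
    have e : cexp (z / 2 * ((Real.log N : ℝ) : ℂ)) * cexp ((-1 / 4 - z / 2) * ((Real.log N : ℝ) : ℂ)) =
        cexp ((-1 / 4) * ((Real.log N : ℝ) : ℂ)) := by
      rw [← Complex.exp_add]
      congr 1
      ring
    rw [← e]
    ring
  have hheat : ∀ s, heat (fun z => κ * LL (gE f) 0 (z - 1 / 2)) lam s =
      (κ * (Real.sqrt (Real.pi * (4 * lam)) : ℂ)) * LL (gE f) lam (s - 1 / 2) := by
    intro s
    have h4 := k.heat_eq h0 (s - 1 / 2)
    rw [mul_assoc, ← h4]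
    unfold heat
    rw [← integral_const_mul]
    refine integral_congr_ae (Eventually.of_forall fun v => ?_)
    simp only
    have : s + (v : ℂ) - 1 / 2 = s - 1 / 2 + v := by ring
    rw [this]
    ring
  have hheat' : heat (fun z => κ * LL (gE f) 0 (z - 1 / 2)) lam =
      fun s => (κ * (Real.sqrt (Real.pi * (4 * lam)) : ℂ)) * LL (gE f) lam (s - 1 / 2) :=
    funext hheat
  have hc0 : κ * (Real.sqrt (Real.pi * (4 * lam)) : ℂ) ≠ 0 := by
    refine mul_ne_zero hκ0 ?_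
    rw [Ne, ofReal_eq_zero]
    have := Real.pi_pos
    positivity
  have hd := k.differentiable lam
  have hdiff : Differentiable ℂ fun s : ℂ => LL (gE f) lam (s - 1 / 2) := hd.comp (by fun_prop)
  have him : (z + 1 / 2 : ℂ).im = z.im := by simp
  have hre : (z + 1 / 2 : ℂ).re = z.re + 1 / 2 := by simp
  have hle : N * (1 + |z.im|) ^ 2 ≤ N * ∏ j, (1 + ‖((z.im : ℝ) : ℂ) * I - mu2 j‖) :=
    mul_le_mul_of_nonneg_left (prod_mu z.im) hN0.le
  have hpos : 0 < (N : ℝ) * (1 + |z.im|) ^ 2 := by positivity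
  have hlog := Real.log_le_log hpos hle
  have h5 := H (N : ℝ) mu2 (al f) (w : ℂ) (LamD f) d lam h0 h1
  rw [hX, hheat'] at h5
  have h6 := h5 (hdiff.const_mul _) (z + 1 / 2) (by rw [him]; exact h2.trans hlog)
    (by
      rw [him, mul_zero, add_zero]
      exact h3.trans (mul_le_mul_of_nonneg_left hlog h0.le))
    (by
      have : z + 1 / 2 - 1 / 2 = z := by ring
      show (κ * (Real.sqrt (Real.pi * (4 * lam)) : ℂ)) * LL (gE f) lam (z + 1 / 2 - 1 / 2) = 0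
      rw [this, hz, mul_zero])
  refine ⟨by rw [hre] at h6; linarith [h6.1], fun h7 => h6.2 ?_⟩
  have h8 : HasDerivAt (fun s : ℂ => (κ * (Real.sqrt (Real.pi * (4 * lam)) : ℂ)) *
      LL (gE f) lam (s - 1 / 2)) ((κ * (Real.sqrt (Real.pi * (4 * lam)) : ℂ)) * 0) (z + 1 / 2) := by
    refine HasDerivAt.const_mul _ ?_
    have h9 : HasDerivAt (LL (gE f) lam) 0 (z + 1 / 2 - 1 / 2) := by
      have : z + 1 / 2 - 1 / 2 = z := by ring
      rw [this, ← h7]
      exact (hd z).hasDerivAt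
    have h10 := h9.comp (z + 1 / 2) ((hasDerivAt_id (z + 1 / 2)).sub_const (1 / 2))
    rw [zero_mul] at h10
    exact h10
  rw [h8.deriv, mul_zero]

end

end Pool.Agent.H466.HF
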