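import Pool.Agent.H466.HF.Sharp3

/-!
# Fourier-Laplace transforms of kernels of double exponential decay
-/

set_option autoImplicit false

open Complex MeasureTheory Filter Topology Set
open scoped ComplexConjugate

namespace Pool.Agent.H466.HF

/-- a kernel of double exponential decay -/
structure Kern (g : ℝ → ℂ) (A c : ℝ) : Prop where
  cont : Continuous g
  c0 : 0 < c
  A0 : 0 ≤ A
  bd : ∀ u : ℝ, ‖g u‖ ≤ A * Real.exp (-(c * Real.exp |u|))

/-- the transform with Gaussian factor -/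
noncomputable def LL (g : ℝ → ℂ) (lam : ℝ) (s : ℂ) : ℂ :=
  ∫ u : ℝ, g u * cexp ((lam : ℂ) * (u : ℂ) ^ 2 + s * u)

lemma decay (a lam : ℝ) {c : ℝ} (hc : 0 < c) :
    ∃ K : ℝ, 0 ≤ K ∧ ∀ x : ℝ, 0 ≤ x → Real.exp (a * x + lam * x ^ 2 - c * Real.exp x) ≤ K := by
  set X0 : ℝ := 6 * (|a| + |lam|) / c + 1 with hX0
  have hX1 : 1 ≤ X0 := by
    rw [hX0]
    have : 0 ≤ 6 * (|a| + |lam|) / c := by positivity
    linarith
  refine ⟨Real.exp (|a| * X0 + |lam| * X0 ^ 2), (Real.exp_pos _).le, fun x hx => ?_⟩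
  apply Real.exp_le_exp.mpr
  have h1 := Real.pow_div_factorial_le_exp x hx 3
  have h2 : ((Nat.factorial 3 : ℕ) : ℝ) = 6 := by norm_num [Nat.factorial]
  rw [h2] at h1
  have h3 : a * x ≤ |a| * x := mul_le_mul_of_nonneg_right (le_abs_self a) hx
  have h4 : lam * x ^ 2 ≤ |lam| * x ^ 2 := mul_le_mul_of_nonneg_right (le_abs_self lam) (sq_nonneg x)
  have h5 : 0 ≤ |a| * X0 + |lam| * X0 ^ 2 := by positivity
  rcases le_total x X0 with h | h
  · have h6 : |a| * x ≤ |a| * X0 := mul_le_mul_of_nonneg_left h (abs_nonneg a)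
    have h7 : |lam| * x ^ 2 ≤ |lam| * X0 ^ 2 :=
      mul_le_mul_of_nonneg_left (pow_le_pow_left₀ hx h 2) (abs_nonneg lam)
    have h8 : 0 ≤ c * Real.exp x := by positivity
    linarith
  · have hx1 : 1 ≤ x := hX1.trans h
    have h6 : |a| * x ≤ |a| * x ^ 2 := by
      apply mul_le_mul_of_nonneg_left _ (abs_nonneg a)
      nlinarith
    have h7 : 6 * (|a| + |lam|) ≤ c * x := by
      have h9 : 6 * (|a| + |lam|) / c ≤ x := by linarith
      rw [div_le_iff₀ hc] at h9
      linarith
    have h8 : (|a| + |lam|) * x ^ 2 ≤ c * (x ^ 3 / 6) := by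
      have h9 := mul_le_mul_of_nonneg_right h7 (sq_nonneg x)
      have e : c * x * x ^ 2 = c * x ^ 3 := by ring
      rw [e] at h9
      linarith
    have h9 : c * (x ^ 3 / 6) ≤ c * Real.exp x := mul_le_mul_of_nonneg_left h1 hc.le
    linarith

lemma decay' (a lam : ℝ) {c : ℝ} (hc : 0 < c) :
    ∃ K : ℝ, 0 ≤ K ∧ ∀ u : ℝ, Real.exp (-(c * Real.exp |u|)) * Real.exp (a * |u| + lam * u ^ 2) ≤
      K * Real.exp (-1 * u ^ 2) := by
  obtain ⟨K, hK, h⟩ := decay a (lam + 1) hc
  refine ⟨K, hK, fun u => ?_⟩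
  have h1 := h |u| (abs_nonneg u)
  rw [sq_abs] at h1
  have e : Real.exp (-(c * Real.exp |u|)) * Real.exp (a * |u| + lam * u ^ 2) =
      Real.exp (a * |u| + (lam + 1) * u ^ 2 - c * Real.exp |u|) * Real.exp (-1 * u ^ 2) := by
    rw [← Real.exp_add, ← Real.exp_add]
    congr 1
    ring
  rw [e]
  exact mul_le_mul_of_nonneg_right h1 (Real.exp_pos _).le

variable {g : ℝ → ℂ} {A c : ℝ}

lemma norm_exp_le (lam : ℝ) (s : ℂ) (u : ℝ) :
    ‖cexp ((lam : ℂ) * (u : ℂ) ^ 2 + s * u)‖ ≤ Real.exp (|s.re| * |u| + lam * u ^ 2) := by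
  rw [Complex.norm_exp]
  apply Real.exp_le_exp.mpr
  have e1 : ((lam : ℂ) * (u : ℂ) ^ 2 + s * u).re = lam * u ^ 2 + s.re * u := by
    rw [add_re, mul_comm s, re_ofReal_mul, re_ofReal_mul, ← ofReal_pow, ofReal_re]
    ring
  rw [e1]
  have h : s.re * u ≤ |s.re| * |u| := by
    rw [← abs_mul]
    exact le_abs_self _
  linarith

lemma Kern.term (k : Kern g A c) (a lam : ℝ) : ∃ K : ℝ, 0 ≤ K ∧ ∀ u : ℝ,
    ‖g u‖ * Real.exp (a * |u| + lam * u ^ 2) ≤ K * Real.exp (-1 * u ^ 2) := by
  obtain ⟨K, hK, h⟩ := decay' a lam k.c0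
  refine ⟨A * K, mul_nonneg k.A0 hK, fun u => ?_⟩
  calc ‖g u‖ * Real.exp (a * |u| + lam * u ^ 2)
      ≤ (A * Real.exp (-(c * Real.exp |u|))) * Real.exp (a * |u| + lam * u ^ 2) :=
        mul_le_mul_of_nonneg_right (k.bd u) (Real.exp_pos _).le
    _ = A * (Real.exp (-(c * Real.exp |u|)) * Real.exp (a * |u| + lam * u ^ 2)) := by ring
    _ ≤ A * (K * Real.exp (-1 * u ^ 2)) := mul_le_mul_of_nonneg_left (h u) k.A0
    _ = _ := by ring

lemma gauss_int : Integrable (fun u : ℝ => Real.exp (-1 * u ^ 2)) :=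
  integrable_exp_neg_mul_sq one_pos

lemma Kern.contF (k : Kern g A c) (lam : ℝ) (s : ℂ) :
    Continuous (fun u : ℝ => g u * cexp ((lam : ℂ) * (u : ℂ) ^ 2 + s * u)) := by
  have := k.cont
  fun_prop

lemma Kern.integrable (k : Kern g A c) (lam : ℝ) (s : ℂ) :
    Integrable (fun u : ℝ => g u * cexp ((lam : ℂ) * (u : ℂ) ^ 2 + s * u)) := by
  obtain ⟨K, hK, h⟩ := k.term |s.re| lam
  refine Integrable.mono' (gauss_int.const_mul K) (k.contF lam s).aestronglyMeasurable
    (Eventually.of_forall fun u => ?_)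
  rw [norm_mul]
  exact (mul_le_mul_of_nonneg_left (norm_exp_le lam s u) (norm_nonneg _)).trans (h u)

/-- bounded in vertical strips -/
lemma Kern.strip (k : Kern g A c) (lam a : ℝ) : ∃ K : ℝ, 0 ≤ K ∧ ∀ s : ℂ, |s.re| ≤ a →
    ‖LL g lam s‖ ≤ K := by
  obtain ⟨K, hK, h⟩ := k.term a lam
  refine ⟨∫ u : ℝ, K * Real.exp (-1 * u ^ 2), integral_nonneg fun u => by positivity,
    fun s hs => ?_⟩
  unfold LL
  refine norm_integral_le_of_norm_le (gauss_int.const_mul K) (Eventually.of_forall fun u => ?_)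
  rw [norm_mul]
  refine (mul_le_mul_of_nonneg_left ((norm_exp_le lam s u).trans ?_) (norm_nonneg _)).trans (h u)
  apply Real.exp_le_exp.mpr
  have := mul_le_mul_of_nonneg_right hs (abs_nonneg u)
  linarith

lemma Kern.differentiable (k : Kern g A c) (lam : ℝ) : Differentiable ℂ (LL g lam) := by
  intro s0
  obtain ⟨K, hK, h⟩ := k.term (|s0.re| + 2) lam
  have key := hasDerivAt_integral_of_dominated_loc_of_deriv_le (μ := (volume : Measure ℝ))
    (F := fun (s : ℂ) (u : ℝ) => g u * cexp ((lam : ℂ) * (u : ℂ) ^ 2 + s * u))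
    (F' := fun (s : ℂ) (u : ℝ) => g u * (cexp ((lam : ℂ) * (u : ℂ) ^ 2 + s * u) * (u : ℂ)))
    (bound := fun u => K * Real.exp (-1 * u ^ 2))
    (x₀ := s0) (s := Metric.ball s0 1) (Metric.ball_mem_nhds s0 one_pos)
    (Eventually.of_forall fun s => (k.contF lam s).aestronglyMeasurable)
    (k.integrable lam s0)
    (by
      have := k.cont
      refine Continuous.aestronglyMeasurable ?_
      fun_prop)
    (Eventually.of_forall fun u s hs => ?_)
    (gauss_int.const_mul K)
    (Eventually.of_forall fun u s _ => ?_)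
  · exact key.2.differentiableAt
  · rw [norm_mul, norm_mul, Complex.norm_real, Real.norm_eq_abs]
    have h1 : |s.re| ≤ |s0.re| + 1 := by
      rw [Metric.mem_ball, dist_eq_norm] at hs
      have h2 := (Complex.abs_re_le_norm (s - s0)).trans hs.le
      rw [sub_re] at h2
      have h3 := abs_add_le (s.re - s0.re) s0.re
      rw [sub_add_cancel] at h3
      linarith
    have h2 : |u| ≤ Real.exp |u| := by linarith [Real.add_one_le_exp |u|]
    have h3 : ‖cexp ((lam : ℂ) * (u : ℂ) ^ 2 + s * u)‖ * |u| ≤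
        Real.exp ((|s0.re| + 2) * |u| + lam * u ^ 2) := by
      calc ‖cexp ((lam : ℂ) * (u : ℂ) ^ 2 + s * u)‖ * |u|
          ≤ Real.exp (|s.re| * |u| + lam * u ^ 2) * Real.exp |u| :=
            mul_le_mul (norm_exp_le lam s u) h2 (abs_nonneg u) (Real.exp_pos _).le
        _ = Real.exp (|s.re| * |u| + lam * u ^ 2 + |u|) := by rw [← Real.exp_add]
        _ ≤ _ := by
            apply Real.exp_le_exp.mpr
            have := mul_le_mul_of_nonneg_right h1 (abs_nonneg u)
            linarith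
    exact (mul_le_mul_of_nonneg_left h3 (norm_nonneg _)).trans (h u)
  · have h1 : HasDerivAt (fun s : ℂ => (lam : ℂ) * (u : ℂ) ^ 2 + s * u) (u : ℂ) s := by
      have := ((hasDerivAt_id s).mul_const (u : ℂ)).const_add ((lam : ℂ) * (u : ℂ) ^ 2)
      simpa using this
    exact (h1.cexp).const_mul (g u)

lemma LL_zero (g : ℝ → ℂ) (s : ℂ) : LL g 0 s = ∫ u : ℝ, g u * cexp (s * u) := by
  unfold LL
  simp

/-- the inner Gaussian integral -/
lemma gauss_inner {lam : ℝ} (hlam : 0 < lam) (u : ℝ) :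
    ∫ v : ℝ, cexp ((v : ℂ) * u) * (Real.exp (-v ^ 2 / (4 * lam)) : ℂ) =
      ((Real.sqrt (Real.pi * (4 * lam)) * Real.exp (lam * u ^ 2) : ℝ) : ℂ) := by
  have hb : 0 < ((1 / (4 * lam) : ℝ) : ℂ).re := by
    rw [ofReal_re]; positivity
  have h := fourierIntegral_gaussian hb (-I * (u : ℂ))
  have e1 : (fun v : ℝ => cexp ((v : ℂ) * u) * (Real.exp (-v ^ 2 / (4 * lam)) : ℂ)) =
      fun v : ℝ => cexp (I * (-I * (u : ℂ)) * v) * cexp (-((1 / (4 * lam) : ℝ) : ℂ) * v ^ 2) := by
    funext v
    congr 1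
    · congr 1
      have : I * (-I * (u : ℂ)) = u := by
        rw [← mul_assoc, mul_neg, I_mul_I]
        ring
      rw [this]
      ring
    · rw [ofReal_exp]
      congr 1
      push_cast
      ring
  rw [e1, h, ofReal_mul, ofReal_exp]
  congr 1
  · rw [← ofReal_div]
    have : (1 / 2 : ℂ) = ((1 / 2 : ℝ) : ℂ) := by push_cast; rfl
    rw [this, ← ofReal_cpow (by positivity), ← Real.sqrt_eq_rpow]
    congr 2
    field_simp
  · congr 1
    have hl : (lam : ℂ) ≠ 0 := by exact_mod_cast hlam.ne'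
    rw [mul_pow, neg_sq, I_sq]
    push_cast
    field_simp

/-- **heat relation** -/
lemma Kern.heat_eq (k : Kern g A c) {lam : ℝ} (hlam : 0 < lam) (s : ℂ) :
    heat (LL g 0) lam s = (Real.sqrt (Real.pi * (4 * lam)) : ℂ) * LL g lam s := by
  unfold heat
  have h1 : ∀ v : ℝ, LL g 0 (s + v) * (Real.exp (-v ^ 2 / (4 * lam)) : ℂ) =
      ∫ u : ℝ, (g u * cexp (s * u)) * (cexp ((v : ℂ) * u) * (Real.exp (-v ^ 2 / (4 * lam)) : ℂ)) := by
    intro v
    rw [LL_zero, ← integral_mul_const]
    refine integral_congr_ae (Eventually.of_forall fun u => ?_)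
    simp only
    rw [add_mul, Complex.exp_add]
    ring
  simp_rw [h1]
  have hint : Integrable (Function.uncurry fun (v u : ℝ) =>
      (g u * cexp (s * u)) * (cexp ((v : ℂ) * u) * (Real.exp (-v ^ 2 / (4 * lam)) : ℂ)))
      ((volume : Measure ℝ).prod volume) := by
    have hc : Continuous (Function.uncurry fun (v u : ℝ) =>
      (g u * cexp (s * u)) * (cexp ((v : ℂ) * u) * (Real.exp (-v ^ 2 / (4 * lam)) : ℂ))) := by
      have := k.cont
      unfold Function.uncurry
      fun_prop
    rw [← integrable_swap_iff]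
    have hc' : Continuous ((Function.uncurry fun (v u : ℝ) =>
      (g u * cexp (s * u)) * (cexp ((v : ℂ) * u) * (Real.exp (-v ^ 2 / (4 * lam)) : ℂ))) ∘
        Prod.swap) := hc.comp continuous_swap
    refine (integrable_prod_iff hc'.aestronglyMeasurable).mpr ⟨Eventually.of_forall fun u => ?_, ?_⟩
    · simp only [Function.comp, Prod.swap, Function.uncurry]
      refine Integrable.const_mul ?_ _
      have hn : Integrable (fun v : ℝ => Real.exp (-v ^ 2 / (4 * lam) + 2 * lam * u * v / (2 * lam))) := by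
        have h3 := (ga_integrable (k := 4 * lam) (by positivity)).comp_sub_right (2 * lam * u)
        refine (h3.const_mul (Real.exp (lam * u ^ 2))).congr (Eventually.of_forall fun v => ?_)
        simp only
        unfold ga
        rw [← Real.exp_add]
        congr 1
        field_simp
        ring
      refine hn.mono' (Continuous.aestronglyMeasurable (by fun_prop)) (Eventually.of_forall fun v => ?_)
      rw [norm_mul, Complex.norm_exp, Complex.norm_real, Real.norm_eq_abs, abs_of_pos (Real.exp_pos _),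
        ← Real.exp_add, ← ofReal_mul, ofReal_re]
      apply Real.exp_le_exp.mpr
      have : 2 * lam * u * v / (2 * lam) = v * u := by field_simp
      rw [this]
      linarith
    · simp only [Function.comp, Prod.swap, Function.uncurry]
      have h4 : ∀ u : ℝ, ∫ v : ℝ, ‖(g u * cexp (s * u)) *
          (cexp ((v : ℂ) * u) * (Real.exp (-v ^ 2 / (4 * lam)) : ℂ))‖ =
          Real.sqrt (Real.pi * (4 * lam)) * (‖g u‖ * Real.exp (s.re * u + lam * u ^ 2)) := by
        intro u
        have h5 : ∀ v : ℝ, ‖(g u * cexp (s * u)) *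
            (cexp ((v : ℂ) * u) * (Real.exp (-v ^ 2 / (4 * lam)) : ℂ))‖ =
            (‖g u‖ * Real.exp (s.re * u)) * Real.exp (v * u + -v ^ 2 / (4 * lam)) := by
          intro v
          rw [norm_mul, norm_mul, norm_mul, Complex.norm_exp, Complex.norm_exp, Complex.norm_real,
            Real.norm_eq_abs, abs_of_pos (Real.exp_pos _), Real.exp_add, ← ofReal_mul, ofReal_re,
            mul_comm s, re_ofReal_mul, mul_comm u]
        simp_rw [h5]
        rw [integral_const_mul]
        have h6 : ∫ v : ℝ, Real.exp (v * u + -v ^ 2 / (4 * lam)) =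
            Real.sqrt (Real.pi * (4 * lam)) * Real.exp (lam * u ^ 2) := by
          have h7 := gauss_inner hlam u
          have h8 : ∫ v : ℝ, cexp ((v : ℂ) * u) * (Real.exp (-v ^ 2 / (4 * lam)) : ℂ) =
              ((∫ v : ℝ, Real.exp (v * u + -v ^ 2 / (4 * lam)) : ℝ) : ℂ) := by
            rw [← integral_complex_ofReal]
            refine integral_congr_ae (Eventually.of_forall fun v => ?_)
            simp only
            rw [Real.exp_add]
            push_cast
            rfl
          rw [h8] at h7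
          exact_mod_cast h7
        rw [h6, Real.exp_add]
        ring
      simp_rw [h4]
      refine Integrable.const_mul ?_ _
      obtain ⟨K, hK, h⟩ := k.term |s.re| lam
      refine Integrable.mono' (gauss_int.const_mul K) ?_ (Eventually.of_forall fun u => ?_)
      · have := k.cont
        refine Continuous.aestronglyMeasurable ?_
        fun_prop
      · rw [Real.norm_of_nonneg (by positivity)]
        refine le_trans ?_ (h u)
        apply mul_le_mul_of_nonneg_left _ (norm_nonneg _)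
        apply Real.exp_le_exp.mpr
        have : s.re * u ≤ |s.re| * |u| := by
          rw [← abs_mul]
          exact le_abs_self _
        linarith
  rw [integral_integral_swap hint]
  have h2 : ∀ u : ℝ, ∫ v : ℝ, (g u * cexp (s * u)) *
      (cexp ((v : ℂ) * u) * (Real.exp (-v ^ 2 / (4 * lam)) : ℂ)) =
      (Real.sqrt (Real.pi * (4 * lam)) : ℂ) * (g u * cexp ((lam : ℂ) * (u : ℂ) ^ 2 + s * u)) := by
    intro u
    rw [integral_const_mul, gauss_inner hlam, Complex.exp_add]
    push_cast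
    ring
  simp_rw [h2]
  rw [integral_const_mul]
  rfl

end Pool.Agent.H466.HF
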