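import Pool.Agent.H466.HF.Core5
import Pool.Graph.R_seed8.H353R7.G1

/-!
# The half line data for a completed `L`-function
-/

set_option autoImplicit false

open Complex MeasureTheory Filter Topology Set
open scoped ComplexConjugate

namespace Pool.Agent.H466.HF

open H353.E H353.F

variable {C B σ : ℝ} {Sg : ℝ → ℝ} {Λ γ D : ℂ → ℂ}

/-- point of the line -/
noncomputable def pt (y v : ℝ) : ℂ := ((1 / 2 + v : ℝ) : ℂ) + (y : ℂ) * I

lemma pt_re (y v : ℝ) : (pt y v).re = 1 / 2 + v := by simp [pt]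
lemma pt_im (y v : ℝ) : (pt y v).im = y := by simp [pt]

/-- the function along the horizontal line -/
noncomputable def fl (Λ : ℂ → ℂ) (y v : ℝ) : ℂ := Λ (pt y v)

/-- its logarithmic derivative -/
noncomputable def pl (Λ γ D : ℂ → ℂ) (y v : ℝ) : ℂ := D (pt y v) + Qf Λ γ (pt y v)

lemma pt_hasDerivAt (y v : ℝ) : HasDerivAt (fun v : ℝ => pt y v) 1 v := by
  unfold pt
  have h1 : HasDerivAt (fun v : ℝ => (1 / 2 + v : ℝ)) 1 v := (hasDerivAt_id v).const_add _
  have h2 := (h1.ofReal_comp).add_const ((y : ℂ) * I)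
  simpa using h2

lemma gam_right (S : Sharp C B σ Sg Λ γ D) {y a b : ℝ} (ha : 1 ≤ a) (hab : a ≤ b)
    (hpos : ∀ x : ℝ, a ≤ x → x ≤ b → 0 ≤ (D ((x : ℂ) + y * I)).re) :
    ‖γ ((a : ℂ) + y * I)‖ ≤ ‖γ ((b : ℂ) + y * I)‖ := by
  have h := seg_le S.gp (s := (b : ℂ) + y * I) (v := ((a - b : ℝ) : ℂ)) (A := 0)
    (fun t ht => ?_) (fun t ht => ?_)
  · have e : (b : ℂ) + y * I + ((a - b : ℝ) : ℂ) = (a : ℂ) + y * I := by push_cast; ring
    rw [e, Real.exp_zero, mul_one] at h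
    exact h
  · have : ((b : ℂ) + y * I + (t : ℂ) * ((a - b : ℝ) : ℂ)).re = b + t * (a - b) := by simp
    rw [this]
    nlinarith [ht.1, ht.2]
  · have e : ((b : ℂ) + y * I + (t : ℂ) * ((a - b : ℝ) : ℂ)) = ((b + t * (a - b) : ℝ) : ℂ) + y * I := by
      push_cast; ring
    rw [e, mul_comm, re_ofReal_mul]
    have h1 := hpos (b + t * (a - b)) (by nlinarith [ht.1, ht.2]) (by nlinarith [ht.1, ht.2])
    nlinarith

lemma Qf_lip (S : Sharp C B σ Sg Λ γ D) {e : ℝ} (he : 0 < e) {z w : ℂ} (hz : σ + e ≤ z.re)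
    (hw : σ + e ≤ w.re) : ‖Qf Λ γ z - Qf Λ γ w‖ ≤ 4 * B ^ 2 / e ^ 2 * ‖z - w‖ := by
  have hconv : Convex ℝ {z : ℂ | σ + e ≤ z.re} := convex_halfSpace_re_ge (σ + e)
  refine hconv.norm_image_sub_le_of_norm_deriv_le (f := Qf Λ γ) (fun z hz => ?_) (fun z hz => ?_)
    hw hz
  · exact Qf_diff S (lt_of_lt_of_le (by linarith) hz)
  · exact Qf_deriv S he hz

lemma core_of (S : Sharp C B σ Sg Λ γ D) {y v1 e : ℝ} (he : 0 < e) (hv : σ + e ≤ 1 / 2 + v1)
    (hpos : ∀ x : ℝ, σ ≤ x → x ≤ 1 / 2 + v1 → 0 ≤ (D ((x : ℂ) + y * I)).re) :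
    Core (fl Λ y) (pl Λ γ D y) v1 (C / (1 / 2 + v1) + 4 * B ^ 2 / e ^ 2) (C + 2 * B ^ 2 / e)
      (B ^ 2) := by
  have hσ := S.hσ
  have hB := S.hB
  have hC := S.hC
  have hv10 : 0 < v1 := by linarith
  refine ⟨?_, fun v hv' => ?_, fun v w hv' hw' => ?_, fun v hv' => ?_, fun v h0 h1 => ?_, ?_, hv10,
    by positivity, by positivity⟩
  · unfold fl
    have h1 : Continuous fun v : ℝ => pt y v := by unfold pt; fun_prop
    exact S.diff.continuous.comp h1
  · have h1 := lam_der S (z := pt y v) (by rw [pt_re]; linarith)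
    have h2 := h1.comp v (pt_hasDerivAt y v)
    rw [mul_one] at h2
    exact h2
  · have h1 := S.gp.lipD (ρ := 1 / 2 + v1) (s := pt y v) (t := pt y w) (by linarith)
      (by rw [pt_re]; linarith) (by rw [pt_re]; linarith)
    have h2 := Qf_lip S he (z := pt y v) (w := pt y w) (by rw [pt_re]; linarith)
      (by rw [pt_re]; linarith)
    have h3 : pt y v - pt y w = ((v - w : ℝ) : ℂ) := by unfold pt; push_cast; ring
    rw [h3, Complex.norm_real, Real.norm_eq_abs] at h1 h2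
    have h4 : pl Λ γ D y v - pl Λ γ D y w = (D (pt y v) - D (pt y w)) +
        (Qf Λ γ (pt y v) - Qf Λ γ (pt y w)) := by unfold pl; ring
    rw [h4, add_mul]
    exact (norm_add_le _ _).trans (add_le_add h1 h2)
  · have h1 := S.gp.im (pt y v) (by rw [pt_re]; linarith)
    have h2 := Qf_bound S he (z := pt y v) (by rw [pt_re]; linarith)
    unfold pl
    rw [add_im]
    refine (abs_add_le _ _).trans (add_le_add h1 ((Complex.abs_im_le_norm _).trans h2))
  · have h2 : ‖γ (pt y v1)‖ ≤ B * ‖fl Λ y v1‖ := S.lo _ (by rw [pt_re]; linarith)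
    have h4 : pt y v1 = (((1 / 2 + v1 : ℝ)) : ℂ) + y * I := rfl
    have h3 : ‖fl Λ y v‖ ≤ B * ‖γ (pt y v1)‖ := by
      rcases le_total (1 / 2 + v) σ with h | h
      · have h5 := S.strip (pt y v) (by rw [pt_re]; linarith) (by rw [pt_re]; exact h)
        rw [pt_im] at h5
        refine h5.trans (mul_le_mul_of_nonneg_left ?_ (by linarith))
        rw [h4]
        exact gam_right S hσ (by linarith) hpos
      · have h5 := S.hi (pt y v) (by rw [pt_re]; exact h)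
        refine h5.trans (mul_le_mul_of_nonneg_left ?_ (by linarith))
        rw [h4]
        exact gam_right S (hσ.trans h) (by linarith) fun x hx1 hx2 => hpos x (h.trans hx1) hx2
    calc ‖fl Λ y v‖ ≤ B * ‖γ (pt y v1)‖ := h3
      _ ≤ B * (B * ‖fl Λ y v1‖) := mul_le_mul_of_nonneg_left h2 (by linarith)
      _ = B ^ 2 * ‖fl Λ y v1‖ := by ring
  · exact (quot_ne S (z := pt y v1) (by rw [pt_re]; linarith)).2.1

/-- the functional equation along the line -/
lemma fl_neg {Λ : ℂ → ℂ} {ε : ℂ} (hfe : ∀ s : ℂ, Λ s = ε * conj (Λ (1 - conj s))) (y v : ℝ) :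
    fl Λ y (-v) = ε * conj (fl Λ y v) := by
  unfold fl
  rw [hfe (pt y (-v))]
  congr 3
  unfold pt
  simp only [map_add, map_mul, conj_ofReal, conj_I]
  push_cast
  ring

lemma pl_re_ge (S : Sharp C B σ Sg Λ γ D) {y v1 e : ℝ} (he : 0 < e) (hv : σ + e ≤ 1 / 2 + v1) :
    (D (3 / 2 + y * I)).re - C * |v1 - 1| - 2 * B ^ 2 / e ≤ (pl Λ γ D y v1).re := by
  have hσ := S.hσ
  have h2 := Qf_bound S he (z := pt y v1) (by rw [pt_re]; linarith)
  have h2' := (abs_le.mp ((Complex.abs_re_le_norm _).trans h2)).1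
  have h3 : (3 / 2 + y * I : ℂ).re = 3 / 2 := by simp
  have h1 := S.gp.lipD (ρ := 1) le_rfl (s := pt y v1) (t := 3 / 2 + y * I)
    (by rw [pt_re]; linarith) (by rw [h3]; norm_num)
  have h4 : pt y v1 - (3 / 2 + y * I) = ((v1 - 1 : ℝ) : ℂ) := by unfold pt; push_cast; ring
  rw [h4, Complex.norm_real, Real.norm_eq_abs, div_one] at h1
  have h1' := (abs_le.mp ((Complex.abs_re_le_norm _).trans h1)).1
  rw [sub_re] at h1'
  unfold pl
  rw [add_re]
  linarith

lemma D_re_ge (S : Sharp C B σ Sg Λ γ D) {y x : ℝ} (hx : 1 ≤ x) :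
    (D (3 / 2 + y * I)).re - C * |x - 3 / 2| ≤ (D ((x : ℂ) + y * I)).re := by
  have h3 : (3 / 2 + y * I : ℂ).re = 3 / 2 := by simp
  have h5 : ((x : ℂ) + y * I).re = x := by simp
  have h1 := S.gp.lipD (ρ := 1) le_rfl (s := (x : ℂ) + y * I) (t := 3 / 2 + y * I)
    (by rw [h5]; exact hx) (by rw [h3]; norm_num)
  have h4 : (x : ℂ) + y * I - (3 / 2 + y * I) = ((x - 3 / 2 : ℝ) : ℂ) := by push_cast; ring
  rw [h4, Complex.norm_real, Real.norm_eq_abs, div_one] at h1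
  have h1' := (abs_le.mp ((Complex.abs_re_le_norm _).trans h1)).1
  rw [sub_re] at h1'
  linarith

end Pool.Agent.H466.HF
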