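import Pool.Agent.H466.HF.Sharp1

/-!
# The half line data for a completed `L`-function: the numerical conditions
-/

set_option autoImplicit false

open Complex MeasureTheory Filter Topology Set
open scoped ComplexConjugate

namespace Pool.Agent.H466.HF

open H353.E H353.F

variable {C B σ : ℝ} {Sg : ℝ → ℝ} {Λ γ D : ℂ → ℂ}

lemma ev_lin {a b : ℝ} (hb : 0 < b) : ∀ᶠ lam : ℝ in 𝓝[>] 0, a * lam ≤ b := by
  have h : Tendsto (fun lam : ℝ => a * lam) (𝓝[>] 0) (𝓝 (a * 0)) :=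
    ((continuous_const.mul continuous_id).tendsto 0).mono_left nhdsWithin_le_nhds
  rw [mul_zero] at h
  exact h.eventually_le_const hb

lemma ev_sqrt {a b : ℝ} (hb : 0 < b) : ∀ᶠ lam : ℝ in 𝓝[>] 0, a * Real.sqrt lam ≤ b := by
  have h : Tendsto (fun lam : ℝ => a * Real.sqrt lam) (𝓝[>] 0) (𝓝 (a * Real.sqrt 0)) :=
    ((continuous_const.mul Real.continuous_sqrt).tendsto 0).mono_left nhdsWithin_le_nhds
  rw [Real.sqrt_zero, mul_zero] at h
  exact h.eventually_le_const hb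

/-- `exp (-c / lam) ≤ a √lam` for small `lam` -/
lemma ev_exp {a b c : ℝ} (ha : 0 < a) (hc : 0 < c) (hb : 0 ≤ b) :
    ∀ᶠ lam : ℝ in 𝓝[>] 0, b * Real.exp (-(c / lam)) ≤ a * Real.sqrt lam := by
  have h1 : ∀ᶠ lam : ℝ in 𝓝[>] 0, (b / c) * Real.sqrt lam ≤ a := ev_sqrt ha
  filter_upwards [h1, self_mem_nhdsWithin] with lam h2 h3
  have h3' : 0 < lam := h3
  have h4 : Real.exp (-(c / lam)) ≤ lam / c := by
    rw [Real.exp_neg, inv_le_comm₀ (Real.exp_pos _) (by positivity), inv_div]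
    linarith [Real.add_one_le_exp (c / lam)]
  have h5 : lam = Real.sqrt lam * Real.sqrt lam := (Real.mul_self_sqrt h3'.le).symm
  calc b * Real.exp (-(c / lam)) ≤ b * (lam / c) := mul_le_mul_of_nonneg_left h4 hb
    _ = (b / c * Real.sqrt lam) * Real.sqrt lam := by
        nth_rewrite 1 [h5]
        ring
    _ ≤ a * Real.sqrt lam := mul_le_mul_of_nonneg_right h2 (Real.sqrt_nonneg _)

lemma ev_exp' {a b c : ℝ} (ha : 0 < a) (hc : 0 < c) (hb : 0 ≤ b) :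
    ∀ᶠ lam : ℝ in 𝓝[>] 0, b * Real.exp (-(c / lam)) ≤ a := by
  have h1 := ev_exp ha hc hb
  have h2 : ∀ᶠ lam : ℝ in 𝓝[>] 0, 1 * Real.sqrt lam ≤ 1 := ev_sqrt one_pos
  filter_upwards [h1, h2] with lam h3 h4
  nlinarith

lemma ev_extract {p : ℝ → Prop} (h : ∀ᶠ lam : ℝ in 𝓝[>] 0, p lam) :
    ∃ lam1 : ℝ, 0 < lam1 ∧ ∀ lam, 0 < lam → lam ≤ lam1 → p lam := by
  rw [(nhdsGT_basis (0 : ℝ)).eventually_iff] at h
  obtain ⟨l, hl, H⟩ := h
  exact ⟨l / 2, by linarith, fun lam h1 h2 => H ⟨h1, by linarith⟩⟩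

/-- small `lam` -/
theorem regime_small (C B σ : ℝ) (hC : 1 ≤ C) (hB : 1 ≤ B) (hσ : 1 ≤ σ) {η : ℝ} (hη : 0 < η) :
    ∃ lam1 : ℝ, 0 < lam1 ∧ ∀ (Sg : ℝ → ℝ) (Λ γ D : ℂ → ℂ), Sharp C B σ Sg Λ γ D →
    ∀ lam y : ℝ, 0 < lam → lam ≤ lam1 → 2 * σ - 1 + η ≤ 2 * lam * (D (3 / 2 + y * I)).re →
    ∃ v1 M Θ B1 q ηc : ℝ, Core (fl Λ y) (pl Λ γ D y) v1 M Θ B1 ∧
      Num (pl Λ γ D y) v1 M Θ B1 lam q ηc := by
  set η1 : ℝ := min η 1 with hη1
  have hη10 : 0 < η1 := lt_min hη one_pos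
  have hη11 : η1 ≤ 1 := min_le_right _ _
  have hη12 : η1 ≤ η := min_le_left _ _
  set e : ℝ := η1 / 8 with he
  have he0 : 0 < e := by positivity
  set v1 : ℝ := σ - 1 / 2 + e with hv1
  have hv10 : 1 / 2 ≤ v1 := by linarith
  set M : ℝ := C / (1 / 2 + v1) + 4 * B ^ 2 / e ^ 2 with hM
  have hM0 : 0 ≤ M := by positivity
  set Θ : ℝ := C + 2 * B ^ 2 / e with hΘ
  set q : ℝ := Real.exp (-(Θ ^ 2)) with hq
  have hq0 : 0 < q := Real.exp_pos _
  have hq1 : q ≤ 1 := by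
    rw [hq, Real.exp_le_one_iff, neg_nonpos]
    positivity
  set ηc : ℝ := η1 / 4 with hηc
  have hηc0 : 0 < ηc := by positivity
  have E1 : ∀ᶠ lam : ℝ in 𝓝[>] 0, (128 * M) * lam ≤ q := ev_lin hq0
  have E2 : ∀ᶠ lam : ℝ in 𝓝[>] 0, 6 * Real.exp (-((v1 ^ 2 / 32) / lam)) ≤ q :=
    ev_exp' hq0 (by positivity) (by norm_num)
  have E3 : ∀ᶠ lam : ℝ in 𝓝[>] 0, Real.log (8 / q) * lam ≤ v1 * (ηc / 4) :=
    ev_lin (by positivity)
  have E4 : ∀ᶠ lam : ℝ in 𝓝[>] 0, (160 * (M * v1)) * lam ≤ ηc := ev_lin hηc0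
  have E5 : ∀ᶠ lam : ℝ in 𝓝[>] 0,
      (8 * (v1 * B ^ 2)) * Real.exp (-((ηc / 16) / lam)) ≤ q * Real.sqrt lam :=
    ev_exp hq0 (by positivity) (by positivity)
  have E6 : ∀ᶠ lam : ℝ in 𝓝[>] 0, 20 * Real.sqrt lam ≤ v1 * q := ev_sqrt (by positivity)
  have E7 : ∀ᶠ lam : ℝ in 𝓝[>] 0, (2 * (C * |v1 - 1| + 2 * B ^ 2 / e)) * lam ≤ η1 / 2 :=
    ev_lin (by positivity)
  have E8 : ∀ᶠ lam : ℝ in 𝓝[>] 0, (C * (σ + 3) * 2) * lam ≤ 1 := ev_lin one_pos
  have E9 : ∀ᶠ lam : ℝ in 𝓝[>] 0, 1 * lam ≤ 1 := ev_lin one_pos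
  obtain ⟨lam1, hlam1, H⟩ := ev_extract
    (((((((E1.and E2).and E3).and E4).and E5).and E6).and E7).and (E8.and E9))
  refine ⟨lam1, hlam1, fun Sg Λ γ D S lam y hlam hlam' hℓ => ?_⟩
  obtain ⟨⟨⟨⟨⟨⟨⟨h1, h2⟩, h3⟩, h4⟩, h5⟩, h6⟩, h7⟩, h8, h9⟩ := H lam hlam hlam'
  set ℓ := (D (3 / 2 + y * I)).re with hℓdef
  have hℓ1 : C * (σ + 3) ≤ ℓ := by
    have h10 : 1 ≤ 2 * lam * ℓ := by linarith
    have h11 : 2 * lam * (C * (σ + 3)) ≤ 2 * lam * ℓ := by linarith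
    exact le_of_mul_le_mul_left h11 (by positivity)
  have hve : σ + e ≤ 1 / 2 + v1 := by rw [hv1]; linarith
  have hcore := core_of S (y := y) he0 hve (fun x hx1 hx2 => by
    have h10 := D_re_ge S (y := y) (x := x) (hσ.trans hx1)
    have h11 : C * |x - 3 / 2| ≤ C * (σ + 3) := by
      apply mul_le_mul_of_nonneg_left _ (by linarith)
      rw [abs_le]
      have : 1 / 2 + v1 ≤ σ + 1 := by rw [hv1]; linarith
      constructor <;> linarith
    linarith)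
  refine ⟨v1, M, Θ, B ^ 2, q, ηc, hcore, ?_⟩
  have hP := pl_re_ge S (y := y) he0 hve
  rw [← hℓdef] at hP
  have hd : 2 * v1 + ηc ≤ 2 * lam * (pl Λ γ D y v1).re := by
    have h10 : 2 * lam * (ℓ - C * |v1 - 1| - 2 * B ^ 2 / e) ≤ 2 * lam * (pl Λ γ D y v1).re :=
      mul_le_mul_of_nonneg_left hP (by positivity)
    have h11 : 2 * lam * (ℓ - C * |v1 - 1| - 2 * B ^ 2 / e) =
        2 * lam * ℓ - (2 * (C * |v1 - 1| + 2 * B ^ 2 / e)) * lam := by ring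
    have h12 : 2 * v1 + ηc ≤ 2 * σ - 1 + η1 / 2 := by
      rw [hv1, he, hηc]
      linarith
    linarith
  refine ⟨hlam, hq0, ?_, ?_, ?_, ?_, hηc0, ?_, hd, ?_, ?_, ?_⟩
  · rw [hq]
    apply Real.exp_le_exp.mpr
    rw [neg_le_neg_iff]
    have : lam ≤ 1 := by linarith
    nlinarith [sq_nonneg Θ]
  · linarith
  · have e1 : v1 ^ 2 / (32 * lam) = (v1 ^ 2 / 32) / lam := by
      field_simp
    rw [e1]
    exact h2
  · linarith
  · linarith
  · linarith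
  · have h10 : Real.exp (-(2 * lam * (pl Λ γ D y v1).re * ηc / (16 * lam))) ≤
        Real.exp (-((ηc / 16) / lam)) := by
      apply Real.exp_le_exp.mpr
      rw [neg_le_neg_iff]
      have e1 : (ηc / 16) / lam = 1 * ηc / (16 * lam) := by
        field_simp
      rw [e1]
      apply div_le_div_of_nonneg_right _ (by positivity)
      apply mul_le_mul_of_nonneg_right _ hηc0.le
      linarith
    calc 8 * (v1 * B ^ 2 * Real.exp (-(2 * lam * (pl Λ γ D y v1).re * ηc / (16 * lam))))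
        = (8 * (v1 * B ^ 2)) * Real.exp (-(2 * lam * (pl Λ γ D y v1).re * ηc / (16 * lam))) := by ring
      _ ≤ (8 * (v1 * B ^ 2)) * Real.exp (-((ηc / 16) / lam)) :=
          mul_le_mul_of_nonneg_left h10 (by positivity)
      _ ≤ _ := h5
  · exact h6

/-- `lam` in a compact interval -/
theorem regime_large (C B σ : ℝ) (hC : 1 ≤ C) (hB : 1 ≤ B) (hσ : 1 ≤ σ) {lam1 K : ℝ}
    (hlam1 : 0 < lam1) (hK : 1 ≤ K) :
    ∃ L0 : ℝ, ∀ (Sg : ℝ → ℝ) (Λ γ D : ℂ → ℂ), Sharp C B σ Sg Λ γ D →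
    ∀ lam y : ℝ, lam1 ≤ lam → lam ≤ K → L0 ≤ (D (3 / 2 + y * I)).re →
    ∃ v1 M Θ B1 q ηc : ℝ, Core (fl Λ y) (pl Λ γ D y) v1 M Θ B1 ∧
      Num (pl Λ γ D y) v1 M Θ B1 lam q ηc := by
  set Θ0 : ℝ := C + 2 * B ^ 2 with hΘ0
  set q : ℝ := Real.exp (-(K * Θ0 ^ 2)) with hq
  have hq0 : 0 < q := Real.exp_pos _
  have hq1 : q ≤ 1 := by
    rw [hq, Real.exp_le_one_iff, neg_nonpos]
    positivity
  have T1 : Tendsto (fun V : ℝ => C / (1 / 2 + V) + 4 * B ^ 2 / (V + 1 / 2 - σ) ^ 2) atTop (𝓝 0) := by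
    have a1 : Tendsto (fun V : ℝ => C / (1 / 2 + V)) atTop (𝓝 0) :=
      tendsto_const_nhds.div_atTop (tendsto_atTop_add_const_left _ _ tendsto_id)
    have a2 : Tendsto (fun V : ℝ => 4 * B ^ 2 / (V + 1 / 2 - σ) ^ 2) atTop (𝓝 0) := by
      refine tendsto_const_nhds.div_atTop ?_
      refine (tendsto_pow_atTop two_ne_zero).comp ?_
      have : (fun V : ℝ => V + 1 / 2 - σ) = fun V : ℝ => V + (1 / 2 - σ) := by
        funext V; ring
      rw [this]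
      exact tendsto_atTop_add_const_right _ _ tendsto_id
    simpa using a1.add a2
  have E1 := T1.eventually_le_const (u := q / (160 * K)) (by positivity)
  have T2 : Tendsto (fun V : ℝ => 6 * Real.exp (-(V ^ 2 / (32 * K)))) atTop (𝓝 (6 * 0)) := by
    refine Tendsto.const_mul _ (Real.tendsto_exp_neg_atTop_nhds_zero.comp ?_)
    refine Tendsto.atTop_div_const (by positivity) ?_
    exact tendsto_pow_atTop two_ne_zero
  rw [mul_zero] at T2
  have E2 := T2.eventually_le_const hq0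
  have E3 : ∀ᶠ V : ℝ in atTop, K * Real.log (8 / q) * 4 + 4 ≤ V ^ 2 :=
    (tendsto_pow_atTop (α := ℝ) two_ne_zero).eventually_ge_atTop _
  have E4 : ∀ᶠ V : ℝ in atTop, 20 * Real.sqrt K / q ≤ V := eventually_ge_atTop _
  have E5 : ∀ᶠ V : ℝ in atTop, σ + 1 / 2 ≤ V := eventually_ge_atTop _
  obtain ⟨V, ⟨⟨⟨⟨h1, h2⟩, h3⟩, h4⟩, h5⟩⟩ := ((((E1.and E2).and E3).and E4).and E5).exists
  set e : ℝ := V + 1 / 2 - σ with he
  have he1 : 1 ≤ e := by linarith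
  have hV1 : 1 ≤ V := by linarith
  set M : ℝ := C / (1 / 2 + V) + 4 * B ^ 2 / e ^ 2 with hM
  have hM0 : 0 ≤ M := by positivity
  set Θ : ℝ := C + 2 * B ^ 2 / e with hΘ
  have hΘΘ : Θ ≤ Θ0 := by
    rw [hΘ, hΘ0]
    have : 2 * B ^ 2 / e ≤ 2 * B ^ 2 := div_le_self (by positivity) he1
    linarith
  have hΘ00 : 0 ≤ Θ := by positivity
  have F1 : ∀ᶠ L : ℝ in atTop, 3 * V / (2 * lam1) + C * V + 2 * B ^ 2 ≤ L := eventually_ge_atTop _
  have T3 : Tendsto (fun L : ℝ => 8 * (V * B ^ 2) * Real.exp (-((L - C * V - 2 * B ^ 2) * V / 8)))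
      atTop (𝓝 (8 * (V * B ^ 2) * 0)) := by
    refine Tendsto.const_mul _ (Real.tendsto_exp_neg_atTop_nhds_zero.comp ?_)
    refine Tendsto.atTop_div_const (by norm_num) ?_
    refine Tendsto.atTop_mul_const (by linarith) ?_
    have : (fun L : ℝ => L - C * V - 2 * B ^ 2) = fun L : ℝ => L + (- C * V - 2 * B ^ 2) := by
      funext L; ring
    rw [this]
    exact tendsto_atTop_add_const_right _ _ tendsto_id
  rw [mul_zero] at T3
  have F2 := T3.eventually_le_const (u := q * Real.sqrt lam1) (by positivity)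
  have F3 : ∀ᶠ L : ℝ in atTop, C * (V + 2) ≤ L := eventually_ge_atTop _
  obtain ⟨L0, hL0⟩ := eventually_atTop.mp ((F1.and F2).and F3)
  refine ⟨L0, fun Sg Λ γ D S lam y hlam hlam' hℓ => ?_⟩
  obtain ⟨⟨g1, g2⟩, g3⟩ := hL0 _ hℓ
  set ℓ := (D (3 / 2 + y * I)).re with hℓdef
  have hlam0 : 0 < lam := lt_of_lt_of_le hlam1 hlam
  have he0 : 0 < e := by linarith
  have hve : σ + e ≤ 1 / 2 + V := by rw [he]; linarith
  have hcore := core_of S (y := y) (v1 := V) he0 hve (fun x hx1 hx2 => by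
    have h10 := D_re_ge S (y := y) (x := x) (hσ.trans hx1)
    have h11 : C * |x - 3 / 2| ≤ C * (V + 2) := by
      apply mul_le_mul_of_nonneg_left _ (by linarith)
      rw [abs_le]
      constructor <;> linarith
    linarith)
  refine ⟨V, M, Θ, B ^ 2, q, V, hcore, ?_⟩
  have hP := pl_re_ge S (y := y) he0 hve
  rw [← hℓdef] at hP
  have hP' : ℓ - C * V - 2 * B ^ 2 ≤ (pl Λ γ D y V).re := by
    have a1 : C * |V - 1| ≤ C * V := by
      apply mul_le_mul_of_nonneg_left _ (by linarith)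
      rw [abs_le]
      constructor <;> linarith
    have a2 : 2 * B ^ 2 / e ≤ 2 * B ^ 2 := div_le_self (by positivity) he1
    linarith
  have hM1 : 160 * (K * M) ≤ q := by
    rw [le_div_iff₀ (by positivity)] at h1
    linarith
  have hlM : lam * M ≤ K * M := mul_le_mul_of_nonneg_right hlam' hM0
  have hd : 3 * V ≤ 2 * lam * (pl Λ γ D y V).re := by
    have a1 : 3 * V / (2 * lam1) ≤ (pl Λ γ D y V).re := by linarith
    rw [div_le_iff₀ (by positivity)] at a1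
    have a2 : 0 ≤ (pl Λ γ D y V).re := by
      by_contra hc
      push Not at hc
      nlinarith
    nlinarith
  refine ⟨hlam0, hq0, ?_, ?_, ?_, ?_, by linarith, le_rfl, by linarith, ?_, ?_, ?_⟩
  · rw [hq]
    apply Real.exp_le_exp.mpr
    rw [neg_le_neg_iff]
    have a1 : Θ ^ 2 ≤ Θ0 ^ 2 := pow_le_pow_left₀ hΘ00 hΘΘ 2
    exact mul_le_mul hlam' a1 (sq_nonneg _) (by linarith)
  · have : 0 ≤ K * M := by positivity
    linarith
  · refine le_trans ?_ h2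
    apply mul_le_mul_of_nonneg_left _ (by norm_num)
    apply Real.exp_le_exp.mpr
    rw [neg_le_neg_iff]
    exact div_le_div_of_nonneg_left (by positivity) (by positivity) (by linarith)
  · have a1 : 0 ≤ Real.log (8 / q) := by
      apply Real.log_nonneg
      rw [le_div_iff₀ hq0]
      linarith
    have a2 : lam * Real.log (8 / q) ≤ K * Real.log (8 / q) := mul_le_mul_of_nonneg_right hlam' a1
    have a3 : V * (V / 4) = V ^ 2 / 4 := by ring
    rw [a3]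
    linarith
  · have a1 : 160 * (lam * M * V) ≤ (160 * (K * M)) * V := by
      have := mul_le_mul_of_nonneg_right hlM (show 0 ≤ V by linarith)
      linarith
    have a2 : (160 * (K * M)) * V ≤ 1 * V := by
      apply mul_le_mul_of_nonneg_right _ (by linarith)
      linarith
    linarith
  · have e1 : 2 * lam * (pl Λ γ D y V).re * V / (16 * lam) = (pl Λ γ D y V).re * V / 8 := by
      field_simp
      ring
    rw [e1]
    have a1 : Real.exp (-((pl Λ γ D y V).re * V / 8)) ≤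
        Real.exp (-((ℓ - C * V - 2 * B ^ 2) * V / 8)) := by
      apply Real.exp_le_exp.mpr
      rw [neg_le_neg_iff]
      apply div_le_div_of_nonneg_right _ (by norm_num)
      apply mul_le_mul_of_nonneg_right hP' (by linarith)
    have a2 : q * Real.sqrt lam1 ≤ q * Real.sqrt lam :=
      mul_le_mul_of_nonneg_left (Real.sqrt_le_sqrt hlam) hq0.le
    calc 8 * (V * B ^ 2 * Real.exp (-((pl Λ γ D y V).re * V / 8)))
        = (8 * (V * B ^ 2)) * Real.exp (-((pl Λ γ D y V).re * V / 8)) := by ring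
      _ ≤ (8 * (V * B ^ 2)) * Real.exp (-((ℓ - C * V - 2 * B ^ 2) * V / 8)) :=
          mul_le_mul_of_nonneg_left a1 (by positivity)
      _ ≤ q * Real.sqrt lam1 := g2
      _ ≤ _ := a2
  · rw [div_le_iff₀ hq0] at h4
    have := Real.sqrt_le_sqrt hlam'
    linarith

/-- the general statement -/
theorem sharp_num (C B σ : ℝ) (hC : 1 ≤ C) (hB : 1 ≤ B) (hσ : 1 ≤ σ) {η K : ℝ} (hη : 0 < η)
    (hK : 1 ≤ K) :
    ∃ L0 : ℝ, ∀ (Sg : ℝ → ℝ) (Λ γ D : ℂ → ℂ), Sharp C B σ Sg Λ γ D →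
    ∀ lam y : ℝ, 0 < lam → lam ≤ K → L0 ≤ (D (3 / 2 + y * I)).re →
    2 * σ - 1 + η ≤ 2 * lam * (D (3 / 2 + y * I)).re →
    ∃ v1 M Θ B1 q ηc : ℝ, Core (fl Λ y) (pl Λ γ D y) v1 M Θ B1 ∧
      Num (pl Λ γ D y) v1 M Θ B1 lam q ηc := by
  obtain ⟨lam1, hlam1, H1⟩ := regime_small C B σ hC hB hσ hη
  obtain ⟨L0, H2⟩ := regime_large C B σ hC hB hσ hlam1 hK
  refine ⟨L0, fun Sg Λ γ D S lam y h0 h1 h2 h3 => ?_⟩
  rcases le_total lam lam1 with h | h
  · exact H1 Sg Λ γ D S lam y h0 h h3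
  · exact H2 Sg Λ γ D S lam y h h1 h2

end Pool.Agent.H466.HF
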