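import Pool.Agent.H466.HF.Sharp2

/-!
# Zeros of the Gaussian transform of a completed `L`-function
-/

set_option autoImplicit false

open Complex MeasureTheory Filter Topology Set
open scoped ComplexConjugate

namespace Pool.Agent.H466.HF

open H353.E H353.F

variable {C B σ : ℝ} {Sg : ℝ → ℝ} {Λ γ D : ℂ → ℂ}

/-- the Gaussian transform -/
noncomputable def heat (Λ : ℂ → ℂ) (lam : ℝ) (s : ℂ) : ℂ :=
  ∫ v : ℝ, Λ (s + v) * (Real.exp (-v ^ 2 / (4 * lam)) : ℂ)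

lemma heat_pt {lam : ℝ} (hlam : 0 < lam) (y x : ℝ) :
    heat Λ lam (pt y x) = ((Real.exp (-x ^ 2 / (4 * lam)) : ℝ) : ℂ) * ∫ v, jj (fl Λ y) lam x v := by
  unfold heat
  have h1 := integral_add_left_eq_self (μ := (volume : Measure ℝ))
    (fun v : ℝ => fl Λ y v * (Real.exp (-(v - x) ^ 2 / (4 * lam)) : ℂ)) x
  have e1 : ∀ v : ℝ, Λ (pt y x + v) * (Real.exp (-v ^ 2 / (4 * lam)) : ℂ) =
      fl Λ y (x + v) * (Real.exp (-(x + v - x) ^ 2 / (4 * lam)) : ℂ) := by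
    intro v
    have e2 : pt y x + v = pt y (x + v) := by unfold pt; push_cast; ring
    rw [e2, add_sub_cancel_left]
    rfl
  rw [integral_congr_ae (Eventually.of_forall e1), h1, ← integral_const_mul]
  refine integral_congr_ae (Eventually.of_forall fun v => ?_)
  simp only
  unfold jj wt
  have e3 : Real.exp (-(v - x) ^ 2 / (4 * lam)) = Real.exp (-x ^ 2 / (4 * lam)) *
      Real.exp (-v ^ 2 / (4 * lam) + x * v / (2 * lam)) := by
    rw [← Real.exp_add]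
    congr 1
    field_simp
    ring
  rw [e3, ofReal_mul]
  ring

/-- **the main theorem on the Gaussian transform** -/
theorem sharp_heat (C B σ : ℝ) (hC : 1 ≤ C) (hB : 1 ≤ B) (hσ : 1 ≤ σ) {η K : ℝ} (hη : 0 < η)
    (hK : 1 ≤ K) :
    ∃ L0 : ℝ, ∀ (Sg : ℝ → ℝ) (Λ γ D : ℂ → ℂ), Sharp C B σ Sg Λ γ D →
    ∀ lam : ℝ, 0 < lam → lam ≤ K → Differentiable ℂ (heat Λ lam) →
    ∀ s : ℂ, L0 ≤ (D (3 / 2 + s.im * I)).re →
    2 * σ - 1 + η ≤ 2 * lam * (D (3 / 2 + s.im * I)).re → heat Λ lam s = 0 →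
    s.re = 1 / 2 ∧ deriv (heat Λ lam) s ≠ 0 := by
  obtain ⟨L0, H⟩ := sharp_num C B σ hC hB hσ hη hK
  refine ⟨L0, fun Sg Λ γ D S lam h0 h1 hd s h2 h3 hz => ?_⟩
  obtain ⟨v1, M, Θ, B1, q, ηc, hcore, N⟩ := H Sg Λ γ D S lam s.im h0 h1 h2 h3
  obtain ⟨ε, hε, hfe⟩ := S.fe
  have hf := fl_neg hfe s.im
  have hs : s = pt s.im (s.re - 1 / 2) := by
    apply Complex.ext
    · rw [pt_re]; ring
    · rw [pt_im]
  have hre : s.re = 1 / 2 := by
    by_contra hne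
    have hx : s.re - 1 / 2 ≠ 0 := sub_ne_zero.mpr hne
    have h4 := N.ne_zero hcore hε hf hx
    rw [hs, heat_pt h0] at hz
    have h5 : ((Real.exp (-(s.re - 1 / 2) ^ 2 / (4 * lam)) : ℝ) : ℂ) ≠ 0 := by
      rw [Ne, ofReal_eq_zero]
      exact (Real.exp_pos _).ne'
    exact h4 ((mul_eq_zero.mp hz).resolve_left h5)
  refine ⟨hre, ?_⟩
  have hs0 : s = pt s.im 0 := by
    rw [hre, sub_self] at hs
    exact hs
  set y := s.im with hy
  have hz0 : ∫ v, jj (fl Λ y) lam 0 v = 0 := by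
    rw [hs0, heat_pt h0] at hz
    simpa using hz
  have hd1 : HasDerivAt (fun x : ℝ => heat Λ lam (pt y x)) (deriv (heat Λ lam) (pt y 0)) 0 := by
    have h4 := (hd (pt y 0)).hasDerivAt
    have h5 := h4.comp (0 : ℝ) (pt_hasDerivAt y 0)
    rw [mul_one] at h5
    exact h5
  have hd2 : HasDerivAt (fun x : ℝ => ((Real.exp (x ^ 2 / (4 * lam)) : ℝ) : ℂ)) 0 0 := by
    have h4 : HasDerivAt (fun x : ℝ => x ^ 2 / (4 * lam)) 0 0 := by
      have := ((hasDerivAt_pow 2 (0 : ℝ)).div_const (4 * lam))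
      simpa using this
    have h5 := (h4.exp).ofReal_comp
    simpa using h5
  have hd3 := hd2.mul hd1
  have e : (fun x : ℝ => ∫ v, jj (fl Λ y) lam x v) =
      (fun x : ℝ => ((Real.exp (x ^ 2 / (4 * lam)) : ℝ) : ℂ)) * fun x : ℝ => heat Λ lam (pt y x) := by
    funext x
    rw [Pi.mul_apply, heat_pt h0, ← mul_assoc, ← ofReal_mul, ← Real.exp_add]
    have : x ^ 2 / (4 * lam) + -x ^ 2 / (4 * lam) = 0 := by ring
    rw [this]
    simp
  rw [← e] at hd3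
  have h6 := N.simple hcore hε hf hd3 hz0
  intro h7
  apply h6
  rw [← hs0, h7]
  simp

end Pool.Agent.H466.HF
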